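import Pool.Agent.Work.MP_bde882_al_h64.Leaf
import Pool.Agent.Work.MP_bde882_al_red.Homog

/-!
The big check from the leaf tests.
-/

set_option autoImplicit false

namespace Pool.Agent.Work.MP_bde882_al.DP

open Finset
open Pool.Agent.Work.MP_bde882_al.Red
open Pool.Agent.Work.MP_bde882_al.H93
open Pool.Agent.Work.MP_bde882_al.H69
open Pool.Agent.Work.MP_bde882_al.H87
open Pool.Agent.Work.MP_bde882_al.Fin8

theorem cont_ofFn {Ix : Type} (wt : Ix → Fin 3 → ℕ) (n : ℕ) (c : Fin n → Ix) :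
    cont wt (List.ofFn c) = ∑ i, wt (c i) := by
  unfold cont
  rw [List.map_ofFn, List.sum_ofFn]
  rfl

/-- all leaf tests are true -/
def Leaves (H : HM) (wc : ℕ → List ℕ → ℕ → ℕ → ℕ) (ob : Fin 504 → Pg62.Op) : Prop :=
  ∀ c : Fin 6 → Fin 504, Monotone c → ∑ i, lbDeg (c i) ≤ 18 → lbDeg (c 5) ≤ lbDeg (c 4) + 1 →
    ∀ β < 343, 2 * dB β + ∑ i, lbDeg (c i) ≤ 18 → (∀ l : Fin 3, cct c β l ≤ 6) →
      0 < DH H (tgt (cct c β)) → ∀ m < DH H β,
        Pg62.lt6 wc β (2 ^ (30 * m)) (List.ofFn (fun i => ob (c i))) = true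

variable {Ix : Type} {wt : Ix → Fin 3 → ℕ} {sem : Ix → Module.End (ZMod 7) HV}
variable {RF : (Fin 3 → ℕ) → ℕ → HV → Prop} {RU : ℕ → (Fin 3 → ℕ) → ℕ → HV → Prop}
variable {tb : Ix → Pg62.Op} {wc : ℕ → List ℕ → ℕ → ℕ → ℕ}

/-- **The big check from the leaf tests.** -/
theorem bigCheckC_of_leaves (H : HM)
    (HS : Sound wt sem RF RU (fun p s y => Pg62.app wc 30 (tb p) s y) Pg62.fd)
    (hz : ∀ κ, RU 0 κ 0 0) (hsh : ∀ p, Pg62.shO (tb p) = cod (wt p))
    (hzt : ∀ κ y a, RF κ y a → Pg62.zt y = true → ∀ k < DH H (cod κ), a (cod κ) k = 0)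
    (hst : ∀ β < 343, ∀ m < DH H β, RF (fun l => dg l β) (2 ^ (30 * m)) (bv β m))
    (ix : Fin 504 → Ix) (hsem : ∀ i, sem (ix i) = lb (XO H) i) (hwt : ∀ i, wt (ix i) = lbCt i)
    (hleaf : Leaves H wc (fun i => tb (ix i))) : BigCheckC H := by
  intro c hc h18 h5 β hβ hd h6 m hm k hk
  have hcod : cod (fun l => dg l β) = β := tgt_dg β hβ
  have hcont : (fun l => dg l β) + cont wt (List.ofFn (fun i => ix (c i))) = cct c β := by
    rw [cont_ofFn]
    unfold cct
    congr 1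
    exact Finset.sum_congr rfl (fun i _ => hwt (c i))
  have h1 := leaf_sound H HS hz hsh hzt (fun l => dg l β) (bv β m) (2 ^ (30 * m))
    (hst β hβ m hm) (fun i => ix (c i)) (fun x => by
      have := h6 x
      rw [← hcont] at this
      exact this) (by
      rw [hcod, List.map_ofFn]
      exact hleaf c hc h18 h5 β hβ hd h6 (by
        have : k < DH H (tgt (cct c β)) := hk
        omega) m hm)
  rw [hcont] at h1
  have h2 := h1 k hk
  have h3 : (fun i => sem (ix (c i))) = fun i => lb (XO H) (c i) := funext fun i => hsem (c i)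
  rw [h3] at h2
  exact h2

end Pool.Agent.Work.MP_bde882_al.DP
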