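import Pool.Agent.Work.MP_bde882_al_h64.LongDP
import Pool.Agent.Work.MP_bde882_al_red.Homog

/-!
The scalar checks of the long lists as Bool checks on packed tables.
-/

set_option autoImplicit false

namespace Pool.Agent.Work.MP_bde882_al.DP

open Finset
open Pool.Agent.Work.MP_bde882_al.Red
open Pool.Agent.Work.MP_bde882_al.H93
open Pool.Agent.Work.MP_bde882_al.H69
open Pool.Agent.Work.MP_bde882_al.H87
open Pool.Agent.Work.MP_bde882_al.Fin8

/-- the words of the operators: letters `0, 1, 2`, then `2^a 1` (number `2 + a`) -/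
def nmW : ℕ → List (Fin 3)
  | 0 => [0]
  | 1 => [1]
  | 2 => [2]
  | n + 3 => List.replicate (n + 1) 2 ++ [1]

theorem adZY_eq_rn {R : Type*} [Ring R] (X : Fin 3 → R) (a : ℕ) :
    adZY X a = rn X (List.replicate a 2 ++ [1]) := by
  induction a with
  | zero => rfl
  | succ a ih =>
    rw [List.replicate_succ, List.cons_append, rn_cons _ _ _ (by simp), ← ih]
    rfl

/-- the contents of the operators -/
def nmC : ℕ → Fin 3 → ℕ
  | 0 => ![1, 0, 0]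
  | 1 => ![0, 1, 0]
  | 2 => ![0, 0, 1]
  | n + 3 => ![0, 1, n + 1]

section abs

variable (H : HM)

theorem inter_rnO (w : List (Fin 3)) : Inter H (rn (XO H) w) (rn (Xop 7) w) := by
  induction w with
  | nil => exact Inter_zero H
  | cons a w ih =>
    by_cases h : w = []
    · subst h
      exact Inter_X H a
    · rw [rn_cons _ a w h, rn_cons _ a w h]
      exact Inter_sub H (Inter_mul H (Inter_X H a) ih) (Inter_mul H ih (Inter_X H a))

/-- `Phi` as an additive map -/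
noncomputable def PhiA : HV →+ Fn 7 := (Phi H).toAddMonoidHom

theorem cop_Phi (ns ms : List ℕ) (hl : ms.length = ns.length) (a0 : HV) :
    cop 7 (Phi H a0) (flatM (ns.map (fun n => rn (Xop 7) (nmW n))) ms)
      = Phi H (∑ j ∈ range 7, VV (ns.map (fun n => rn (XO H) (nmW n))) a0 j ms) := by
  rw [cop_flatM 7 _ _ _ (by rw [hl, List.length_map]), map_sum]
  refine sum_congr rfl (fun j _ => ?_)
  have h := VV_natural (PhiA H) (bs := ns.map (fun n => rn (XO H) (nmW n)))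
    (bs' := ns.map (fun n => rn (Xop 7) (nmW n))) ?_ a0 j ms
  · exact h.symm
  · rw [List.forall₂_map_left_iff, List.forall₂_map_right_iff, List.forall₂_same]
    intro n _ x
    exact inter_rnO H (nmW n) x

variable {Op : Type} {wt : Op → Fin 3 → ℕ} {sem : Op → Module.End (ZMod 7) HV}
variable {RF : (Fin 3 → ℕ) → ℕ → HV → Prop} {RU : ℕ → (Fin 3 → ℕ) → ℕ → HV → Prop}
variable {f : Op → ℕ → ℕ → ℕ} {fd : ℕ → ℕ}

/-- the start vector: `v0` or `X 2 v0` -/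
def stV (j : ℕ) : HV := if j = 0 then v0 else XH H 2 v0

/-- the packed start vector -/
def stY (fd : ℕ → ℕ) (f : Op → ℕ → ℕ → ℕ) (o2 : Op) (j : ℕ) : ℕ :=
  if j = 0 then 1 else fd (f o2 0 1)

/-- reading of the value -/
def rdV (f : Op → ℕ → ℕ → ℕ) (o2 : Op) (i : ℕ) (y : ℕ) : ℕ :=
  if i = 0 then y else f o2 341 y

/-- the value of a long list -/
noncomputable def valS (w : Op → ℕ) (fd : ℕ → ℕ) (f : Op → ℕ → ℕ → ℕ) (o : ℕ → Op)
    (i j : ℕ) (ns ms : List ℕ) : ℕ :=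
  rsum (rdV f (o 2) i) (round w fd f (rowsOf (ns.map o) ms) (ns.map o) (342 - i)) 6
    (initT ms (stY fd f (o 2) j))

/-- the hypotheses which connect the packed numbers with the model -/
structure Top (RF : (Fin 3 → ℕ) → ℕ → HV → Prop) (RU : ℕ → (Fin 3 → ℕ) → ℕ → HV → Prop) : Prop
    where
  zero : ∀ κ, RF κ 0 0
  start : RF 0 1 v0
  top0 : ∀ y a, RF ![6, 6, 6] y a → ((y : ℕ) : ZMod 7) = a 342 0
  top1 : ∀ y a, RU 1 ![6, 6, 6] y a → ((y : ℕ) : ZMod 7) = a 342 0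

theorem valS_sound (HS : SoundC wt sem RF RU f fd) (HT : Top RF RU) (o : ℕ → Op)
    (ho : ∀ n ≤ 8, sem (o n) = rn (XO H) (nmW n)) (hc : ∀ n ≤ 8, wt (o n) = nmC n)
    (i j : ℕ) (hi : i ≤ 1) (hj : j ≤ 1) (ns ms : List ℕ) (hl : ms.length = ns.length)
    (hns : ∀ n ∈ ns, n ≤ 8)
    (htot : tot (fun n => nmC n) ns ms = ![6, 6, 6 - i - j]) (hij : i + j ≤ 6) :
    ((valS (fun p => cod (wt p)) fd f o i j ns ms : ℕ) : ZMod 7)
      = (cop 7 (Phi H (stV H j)) (flatM (ns.map (fun n => rn (Xop 7) (nmW n))) ms))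
          (List.replicate i 2) := by
  rw [cop_Phi H ns ms hl]
  have htot' : ∀ (ns ms : List ℕ), (∀ n ∈ ns, n ≤ 8) →
      tot wt (ns.map o) ms = tot (fun n => nmC n) ns ms := by
    intro ns
    induction ns with
    | nil => intro ms _; rfl
    | cons n ns ih =>
      intro ms h
      cases ms with
      | nil => rfl
      | cons m ms =>
        simp only [List.map_cons, tot]
        rw [hc n (h n (by simp)), ih ms (fun n' hn' => h n' (by simp [hn']))]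
  have hsem : (ns.map o).map sem = ns.map (fun n => rn (XO H) (nmW n)) := by
    rw [List.map_map]
    refine List.map_congr_left (fun n hn => ?_)
    exact ho n (hns n hn)
  -- the start
  set κ : Fin 3 → ℕ := ![0, 0, j] with hκ
  have hst : RF κ (stY fd f (o 2) j) (stV H j) := by
    rcases Nat.le_one_iff_eq_zero_or_eq_one.1 hj with rfl | rfl
    · have : κ = 0 := by
        rw [hκ]
        funext x
        fin_cases x <;> rfl
      rw [this]
      exact HT.start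
    · have h1 := HS.mv (o 2) 0 1 v0 (by
        intro x
        rw [hc 2 (by norm_num)]
        fin_cases x <;> simp [nmC]) HT.start
      have h2 := HS.fold 1 _ _ _ (by norm_num) h1
      rw [ho 2 (by norm_num), hc 2 (by norm_num)] at h2
      have : (0 : Fin 3 → ℕ) + nmC 2 = κ := by
        rw [hκ]
        funext x
        fin_cases x <;> rfl
      rw [this] at h2
      exact h2
  have hκt : κ + tot wt (ns.map o) ms = ![6, 6, 6 - i] := by
    rw [htot' ns ms hns, htot, hκ]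
    funext x
    fin_cases x
    · simp
    · simp
    · simp
      omega
  have hlen : ms.length = (ns.map o).length := by rw [List.length_map, hl]
  have hv : ∀ x, κ x + tot wt (ns.map o) ms x ≤ 6 := by
    intro x
    have : (κ + tot wt (ns.map o) ms) x ≤ 6 := by
      rw [hκt]
      fin_cases x
      · simp
      · simp
      · simp
    exact this
  have hs : 342 - i = cod (κ + tot wt (ns.map o) ms) := by
    rw [hκt]
    simp [cod]
    omega
  -- the functional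
  let L : HV →+ ZMod 7 :=
    { toFun := fun y => Phi H y (List.replicate i 2)
      map_zero' := by rw [map_zero]; rfl
      map_add' := fun a b => by rw [map_add]; rfl }
  have hL : ∀ y, L y = Phi H y (List.replicate i 2) := fun _ => rfl
  have hg : ∀ y a, RF (κ + tot wt (ns.map o) ms) y a → ((rdV f (o 2) i y : ℕ) : ZMod 7) = L a := by
    intro y a hya
    rw [hκt] at hya
    rw [hL, Phi_apply]
    rcases Nat.le_one_iff_eq_zero_or_eq_one.1 hi with rfl | rfl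
    · exact HT.top0 y a hya
    · have h1 := HS.mv (o 2) _ y a (by
        intro x
        rw [hc 2 (by norm_num)]
        fin_cases x <;> simp [nmC]) hya
      rw [hc 2 (by norm_num), ho 2 (by norm_num)] at h1
      have e : (![6, 6, 6 - 1] + nmC 2 : Fin 3 → ℕ) = ![6, 6, 6] := by
        funext x
        fin_cases x <;> rfl
      rw [e] at h1
      exact HT.top1 _ _ h1
  have h3 := rsum_sound HS HT.zero (ns.map o) ms hlen κ (stY fd f (o 2) j) (stV H j) hst hv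
    (342 - i) hs (rdV f (o 2) i) L hg 6
  rw [hsem] at h3
  exact h3

end abs

/-! ### The lists -/

section lists

theorem start_eq (H : HM) (hd0 : 0 < H.d 0) (j : ℕ) (hj : j ≤ 1) :
    ((List.replicate j (2 : Fin 3)).map (Xop 7)).prod (fH H) = Phi H (stV H j) := by
  rcases Nat.le_one_iff_eq_zero_or_eq_one.1 hj with rfl | rfl
  · rw [← Phi_v0 H hd0]
    rfl
  · rw [← Phi_v0 H hd0]
    change (List.map (Xop 7) [2]).prod (Phi H v0) = Phi H (XH H 2 v0)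
    rw [Phi_X, List.map_singleton, List.prod_singleton]

theorem zs1_eq (as : List ℕ) (h : ∀ a ∈ as, 1 ≤ a) :
    zs1 7 as = (List.replicate 6 0 ++ List.replicate (6 - as.length) 1 ++ as.map (· + 2)).map
      (fun n => rn (Xop 7) (nmW n)) := by
  unfold zs1 lB1
  rw [List.map_append, List.map_append, List.map_append, List.map_replicate, List.map_replicate,
    List.map_replicate, List.map_replicate, List.map_map]
  congr 1
  refine List.map_congr_left (fun a ha => ?_)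
  have h1 := h a ha
  obtain ⟨b, rfl⟩ : ∃ b, a = b + 1 := ⟨a - 1, by omega⟩
  exact adZY_eq_rn (Xop 7) (b + 1)

theorem zs2_eq (s : ℕ) :
    zs2 7 s = (flatM [0, 1, 2] [6, 6, s]).map (fun n => rn (Xop 7) (nmW n)) := by
  unfold zs2 lB2
  simp only [flatM, List.append_nil, List.map_append, List.map_replicate]
  rfl

/-- an entry of the list of checks -/
structure Ent : Type where
  /-- the parts -/
  as : List ℕ
  /-- number of letters `2` on the left -/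
  i : ℕ
  /-- number of letters `2` on the right -/
  j : ℕ
  /-- operators -/
  ns : List ℕ
  /-- multiplicities -/
  ms : List ℕ

/-- side conditions of an entry -/
def okE (e : Ent) : Prop :=
  (∀ a ∈ e.as, 1 ≤ a) ∧ e.i ≤ 1 ∧ e.j ≤ 1 ∧ e.ms.length = e.ns.length ∧ (∀ n ∈ e.ns, n ≤ 8) ∧
    flatM e.ns e.ms
      = List.replicate 6 0 ++ List.replicate (6 - e.as.length) 1 ++ e.as.map (· + 2) ∧
    tot nmC e.ns e.ms = ![6, 6, 6 - e.i - e.j]

instance (e : Ent) : Decidable (okE e) := by unfold okE; infer_instance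

/-- the list of the first kind -/
def tblE : List Ent := [
  ⟨[1, 1, 1, 1, 1, 1], 0, 0, [0, 3], [6, 6]⟩,
  ⟨[1, 1, 1, 1, 2], 0, 0, [0, 1, 3, 4], [6, 1, 4, 1]⟩,
  ⟨[1, 1, 1, 3], 0, 0, [0, 1, 3, 5], [6, 2, 3, 1]⟩,
  ⟨[1, 1, 2, 2], 0, 0, [0, 1, 3, 4], [6, 2, 2, 2]⟩,
  ⟨[1, 1, 4], 0, 0, [0, 1, 3, 6], [6, 3, 2, 1]⟩,
  ⟨[1, 2, 3], 0, 0, [0, 1, 3, 4, 5], [6, 3, 1, 1, 1]⟩,
  ⟨[1, 5], 0, 0, [0, 1, 3, 7], [6, 4, 1, 1]⟩,
  ⟨[2, 2, 2], 0, 0, [0, 1, 4], [6, 3, 3]⟩,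
  ⟨[2, 4], 0, 0, [0, 1, 4, 6], [6, 4, 1, 1]⟩,
  ⟨[3, 3], 0, 0, [0, 1, 5], [6, 4, 2]⟩,
  ⟨[6], 0, 0, [0, 1, 8], [6, 5, 1]⟩,
  ⟨[1, 1, 1, 1, 1], 0, 1, [0, 1, 3], [6, 1, 5]⟩,
  ⟨[1, 1, 1, 2], 0, 1, [0, 1, 3, 4], [6, 2, 3, 1]⟩,
  ⟨[1, 1, 3], 0, 1, [0, 1, 3, 5], [6, 3, 2, 1]⟩,
  ⟨[1, 2, 2], 0, 1, [0, 1, 3, 4], [6, 3, 1, 2]⟩,
  ⟨[1, 4], 0, 1, [0, 1, 3, 6], [6, 4, 1, 1]⟩,
  ⟨[2, 3], 0, 1, [0, 1, 4, 5], [6, 4, 1, 1]⟩,
  ⟨[5], 0, 1, [0, 1, 7], [6, 5, 1]⟩,
  ⟨[1, 1, 1, 1, 1], 1, 0, [0, 1, 3], [6, 1, 5]⟩,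
  ⟨[1, 1, 1, 2], 1, 0, [0, 1, 3, 4], [6, 2, 3, 1]⟩,
  ⟨[1, 1, 3], 1, 0, [0, 1, 3, 5], [6, 3, 2, 1]⟩,
  ⟨[1, 2, 2], 1, 0, [0, 1, 3, 4], [6, 3, 1, 2]⟩,
  ⟨[1, 4], 1, 0, [0, 1, 3, 6], [6, 4, 1, 1]⟩,
  ⟨[2, 3], 1, 0, [0, 1, 4, 5], [6, 4, 1, 1]⟩,
  ⟨[5], 1, 0, [0, 1, 7], [6, 5, 1]⟩,
  ⟨[1, 1, 1, 1], 1, 1, [0, 1, 3], [6, 2, 4]⟩,
  ⟨[1, 1, 2], 1, 1, [0, 1, 3, 4], [6, 3, 2, 1]⟩,
  ⟨[1, 3], 1, 1, [0, 1, 3, 5], [6, 4, 1, 1]⟩,
  ⟨[2, 2], 1, 1, [0, 1, 4], [6, 4, 2]⟩,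
  ⟨[4], 1, 1, [0, 1, 6], [6, 5, 1]⟩]

theorem tblE_ok : ∀ e ∈ tblE, okE e := by decide +kernel

theorem tblE_cov : ∀ as ∈ partsLe 6 1 6, ∀ i ∈ [0, 1], ∀ j ∈ [0, 1], i + j + as.sum = 6 →
    ∃ e ∈ tblE, e.as = as ∧ e.i = i ∧ e.j = j := by decide +kernel

variable (H : HM) {Op : Type} {wt : Op → Fin 3 → ℕ} {sem : Op → Module.End (ZMod 7) HV}
variable {RF : (Fin 3 → ℕ) → ℕ → HV → Prop} {RU : ℕ → (Fin 3 → ℕ) → ℕ → HV → Prop}
variable {f : Op → ℕ → ℕ → ℕ} {fd : ℕ → ℕ}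

/-- the check of an entry -/
noncomputable def chkE (w : Op → ℕ) (fd : ℕ → ℕ) (f : Op → ℕ → ℕ → ℕ) (o : ℕ → Op) (e : Ent) :
    Bool :=
  Nat.beq (Nat.mod (valS w fd f o e.i e.j e.ns e.ms) 7) 0

theorem beq_false_ne (n m : ℕ) (h : Nat.beq n m = false) : n ≠ m := by
  intro e
  rw [e, Nat.beq_refl] at h
  cases h

theorem cast_eq_zero_iff_mod (n : ℕ) : ((n : ℕ) : ZMod 7) = 0 ↔ n % 7 = 0 := by
  rw [ZMod.natCast_eq_zero_iff]
  exact Nat.dvd_iff_mod_eq_zero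

theorem LongOne_of (hd0 : 0 < H.d 0) (HS : SoundC wt sem RF RU f fd) (HT : Top RF RU)
    (o : ℕ → Op) (ho : ∀ n ≤ 8, sem (o n) = rn (XO H) (nmW n)) (hc : ∀ n ≤ 8, wt (o n) = nmC n)
    (hchk : ∀ e ∈ tblE, chkE (fun p => cod (wt p)) fd f o e = true) : LongOne H := by
  intro as has i j hi hj hij
  obtain ⟨e, he, rfl, rfl, rfl⟩ := tblE_cov as has i (by
    rcases Nat.le_one_iff_eq_zero_or_eq_one.1 hi with rfl | rfl <;> simp) j (by
    rcases Nat.le_one_iff_eq_zero_or_eq_one.1 hj with rfl | rfl <;> simp) hij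
  obtain ⟨h1, h2, h3, h4, h5, h6, h7⟩ := tblE_ok e he
  have h8 := valS_sound H HS HT o ho hc e.i e.j h2 h3 e.ns e.ms h4 h5 h7 (by omega)
  rw [start_eq H hd0 e.j h3, zs1_eq e.as h1, ← h6, flatM_map, ← h8, cast_eq_zero_iff_mod]
  exact Nat.eq_of_beq_eq_true (hchk e he)

theorem LongTwo_of (hd0 : 0 < H.d 0) (HS : SoundC wt sem RF RU f fd) (HT : Top RF RU)
    (o : ℕ → Op) (ho : ∀ n ≤ 8, sem (o n) = rn (XO H) (nmW n)) (hc : ∀ n ≤ 8, wt (o n) = nmC n)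
    (hchk : ∀ e ∈ [(⟨[], 0, 1, [0, 1, 2], [6, 6, 5]⟩ : Ent), ⟨[], 1, 0, [0, 1, 2], [6, 6, 5]⟩,
      ⟨[], 1, 1, [0, 1, 2], [6, 6, 4]⟩], chkE (fun p => cod (wt p)) fd f o e = true) :
    LongTwo H := by
  intro s hs1 hs2 i j hi hj hij
  have h8 := valS_sound H HS HT o ho hc i j hi hj [0, 1, 2] [6, 6, s] rfl
    (by decide) (by
      funext x
      fin_cases x
      · simp [tot, nmC]
      · simp [tot, nmC]
      · simp [tot, nmC]
        omega) (by omega)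
  rw [start_eq H hd0 j hj, zs2_eq, flatM_map, ← h8, cast_eq_zero_iff_mod]
  have h9 : ∀ e ∈ [(⟨[], 0, 1, [0, 1, 2], [6, 6, 5]⟩ : Ent), ⟨[], 1, 0, [0, 1, 2], [6, 6, 5]⟩,
      ⟨[], 1, 1, [0, 1, 2], [6, 6, 4]⟩],
      valS (fun p => cod (wt p)) fd f o e.i e.j e.ns e.ms % 7 = 0 :=
    fun e he => Nat.eq_of_beq_eq_true (hchk e he)
  rcases Nat.le_one_iff_eq_zero_or_eq_one.1 hi with rfl | rfl <;>
    rcases Nat.le_one_iff_eq_zero_or_eq_one.1 hj with rfl | rfl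
  · omega
  · obtain rfl : s = 5 := by omega
    exact h9 ⟨[], 0, 1, [0, 1, 2], [6, 6, 5]⟩ (by simp)
  · obtain rfl : s = 5 := by omega
    exact h9 ⟨[], 1, 0, [0, 1, 2], [6, 6, 5]⟩ (by simp)
  · obtain rfl : s = 4 := by omega
    exact h9 ⟨[], 1, 1, [0, 1, 2], [6, 6, 4]⟩ (by simp)

theorem TopValue_of (hd0 : 0 < H.d 0) (HS : SoundC wt sem RF RU f fd) (HT : Top RF RU)
    (o : ℕ → Op) (ho : ∀ n ≤ 8, sem (o n) = rn (XO H) (nmW n)) (hc : ∀ n ≤ 8, wt (o n) = nmC n)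
    (hchk : chkE (fun p => cod (wt p)) fd f o ⟨[], 0, 0, [0, 1, 2], [6, 6, 6]⟩ = false) :
    TopValue H := by
  have h8 := valS_sound H HS HT o ho hc 0 0 (by omega) (by omega) [0, 1, 2] [6, 6, 6] rfl
    (by decide) (by
      funext x
      fin_cases x <;> simp [tot, nmC]) (by omega)
  unfold TopValue
  have h9 : (top3 7).map (Xop 7) = (flatM [0, 1, 2] [6, 6, 6]).map
      (fun n => rn (Xop 7) (nmW n)) := zs2_eq 6
  rw [h9, flatM_map]
  have h10 := start_eq H hd0 0 (by omega)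
  have h11 : ((List.replicate 0 (2 : Fin 3)).map (Xop 7)).prod (fH H) = fH H := rfl
  rw [h11] at h10
  rw [h10]
  rw [List.replicate_zero] at h8
  rw [← h8, Ne, cast_eq_zero_iff_mod]
  exact beq_false_ne _ _ hchk

/-- the entries of the second kind -/
def tblF : List Ent := [⟨[], 0, 1, [0, 1, 2], [6, 6, 5]⟩, ⟨[], 1, 0, [0, 1, 2], [6, 6, 5]⟩,
  ⟨[], 1, 1, [0, 1, 2], [6, 6, 4]⟩]

/-- **The three statements on long lists**, with the programs as run by the kernel. -/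
theorem long_all (hd0 : 0 < H.d 0) (HS : SoundC wt sem RF RU f fd) (HT : Top RF RU)
    (o : ℕ → Op) (ho : ∀ n ≤ 8, sem (o n) = rn (XO H) (nmW n)) (hc : ∀ n ≤ 8, wt (o n) = nmC n)
    (w : Op → ℕ) (hw : ∀ p, w p = cod (wt p)) (f' : Op → ℕ → ℕ → ℕ)
    (hf : ∀ p s y, f' p s y = f p s y)
    (h1 : ∀ e ∈ tblE, chkE w fd f' o e = true) (h2 : ∀ e ∈ tblF, chkE w fd f' o e = true)
    (h3 : chkE w fd f' o ⟨[], 0, 0, [0, 1, 2], [6, 6, 6]⟩ = false) :
    LongOne H ∧ LongTwo H ∧ TopValue H := by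
  have e1 : w = fun p => cod (wt p) := funext hw
  have e2 : f' = f := funext fun p => funext fun s => funext fun y => hf p s y
  subst e2
  subst e1
  exact ⟨LongOne_of H hd0 HS HT o ho hc h1, LongTwo_of H hd0 HS HT o ho hc h2,
    TopValue_of H hd0 HS HT o ho hc h3⟩

end lists

end Pool.Agent.Work.MP_bde882_al.DP
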