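import Pool.Agent.Work.MP_bde882_al_h64.ChkDefs

set_option autoImplicit false
set_option linter.defProp false
set_option maxRecDepth 100000

namespace Pool.Agent.Work.MP_bde882_al.Chk64

def e3 : chk ⟨[1, 1, 2, 2], 0, 0, [0, 1, 3, 4], [6, 2, 2, 2]⟩ = true := by decide +kernel

def e5 : chk ⟨[1, 2, 3], 0, 0, [0, 1, 3, 4, 5], [6, 3, 1, 1, 1]⟩ = true := by decide +kernel

def e8 : chk ⟨[2, 4], 0, 0, [0, 1, 4, 6], [6, 4, 1, 1]⟩ = true := by decide +kernel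

def e14 : chk ⟨[1, 2, 2], 0, 1, [0, 1, 3, 4], [6, 3, 1, 2]⟩ = true := by decide +kernel

def e17 : chk ⟨[5], 0, 1, [0, 1, 7], [6, 5, 1]⟩ = true := by decide +kernel

def e18 : chk ⟨[1, 1, 1, 1, 1], 1, 0, [0, 1, 3], [6, 1, 5]⟩ = true := by decide +kernel

def e24 : chk ⟨[5], 1, 0, [0, 1, 7], [6, 5, 1]⟩ = true := by decide +kernel

def e27 : chk ⟨[1, 3], 1, 1, [0, 1, 3, 5], [6, 4, 1, 1]⟩ = true := by decide +kernel

def e32 : chk ⟨[], 1, 1, [0, 1, 2], [6, 6, 4]⟩ = true := by decide +kernel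

end Pool.Agent.Work.MP_bde882_al.Chk64
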