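import Pool.Agent.Work.MP_bde882_al_h64.Chk0
import Pool.Agent.Work.MP_bde882_al_h64.Chk1
import Pool.Agent.Work.MP_bde882_al_h64.Chk2
import Pool.Agent.Work.MP_bde882_al_h64.Chk3

/-!
All scalar checks of the long lists.
-/

set_option autoImplicit false

namespace Pool.Agent.Work.MP_bde882_al.Chk64

theorem cns {α : Type} {P : α → Prop} {a : α} {l : List α} (h : P a) (hl : ∀ e ∈ l, P e) :
    ∀ e ∈ a :: l, P e := List.forall_mem_cons.2 ⟨h, hl⟩

theorem all_E : ∀ e ∈ DP.tblE, chk e = true :=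
  cns e0 (cns e1 (cns e2 (cns e3 (cns e4 (cns e5 (cns e6 (cns e7 (cns e8 (cns e9 (cns e10 (cns e11 (cns e12 (cns e13 (cns e14 (cns e15 (cns e16 (cns e17 (cns e18 (cns e19 (cns e20 (cns e21 (cns e22 (cns e23 (cns e24 (cns e25 (cns e26 (cns e27 (cns e28 (cns e29 (fun _ h => absurd h List.not_mem_nil))))))))))))))))))))))))))))))

theorem all_F : ∀ e ∈ DP.tblF, chk e = true :=
  cns e30 (cns e31 (cns e32 (fun _ h => absurd h List.not_mem_nil)))

end Pool.Agent.Work.MP_bde882_al.Chk64
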