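import Pool.Agent.Work.MP_bde882_al_h87.Model

/-!
The dimensions of the concrete model are bounded.
-/

set_option autoImplicit false

namespace Pool.Agent.Work.MP_bde882_al.H87

theorem dm_le_small : ∀ β < 343, dm β ≤ 428 := by
  decide +kernel

theorem dims_lt : Tab.dims < 2 ^ (16 * 343) := by
  decide +kernel

theorem dm_ge (β : ℕ) (hβ : 343 ≤ β) : dm β = 0 := by
  have h1 : Nat.shiftRight Tab.dims (Nat.mul 16 β) = 0 := by
    have h2 : Nat.shiftRight Tab.dims (Nat.mul 16 β) = Tab.dims / 2 ^ (16 * β) :=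
      Nat.shiftRight_eq_div_pow _ _
    rw [h2]
    refine Nat.div_eq_of_lt (lt_of_lt_of_le dims_lt (Nat.pow_le_pow_right (by norm_num) ?_))
    omega
  unfold dm
  rw [h1]
  exact Nat.zero_and _

theorem dm_le (β : ℕ) : dm β ≤ 428 := by
  by_cases h : β < 343
  · exact dm_le_small β h
  · rw [dm_ge β (by omega)]
    exact Nat.zero_le _

theorem hD_HH (β : ℕ) : DH HH β ≤ 428 := by
  unfold DH
  rw [HH_d, HH_d]
  split_ifs
  · exact dm_le _
  · exact dm_le _

theorem hd0_HH : HH.d 0 = 1 := by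
  rw [HH_d]
  decide +kernel

theorem hd2_HH : HH.d 2 = 0 := by
  rw [HH_d]
  decide +kernel

end Pool.Agent.Work.MP_bde882_al.H87
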