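import Pool.Agent.Work.MP_bde882_al_red.Lie
import Pool.Agent.Work.MP_bde882_al_red.Module

/-!
Dynamic programming over multiplicities for the symmetrised products and for the rearrangement
sums of lists with repeated entries.
-/

set_option autoImplicit false

namespace Pool.Agent.Work.MP_bde882_al.Red

open Finset

section flat

variable {I : Type*}

/-- the list `b₁ … b₁ b₂ … b₂ …` with multiplicities `m₁, m₂, …` -/
def flatM : List I → List ℕ → List I
  | [], _ => []
  | _ :: _, [] => []
  | b :: bs, m :: ms => List.replicate m b ++ flatM bs ms

theorem flatM_map {J : Type*} (g : I → J) (bs : List I) (ms : List ℕ) :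
    (flatM bs ms).map g = flatM (bs.map g) ms := by
  induction bs generalizing ms with
  | nil => rfl
  | cons b bs ih =>
    cases ms with
    | nil => rfl
    | cons m ms => simp only [flatM, List.map_append, List.map_replicate, List.map_cons, ih]

theorem flatM_length (bs : List I) (ms : List ℕ) (h : ms.length = bs.length) :
    (flatM bs ms).length = ms.sum := by
  induction bs generalizing ms with
  | nil =>
    cases ms with
    | nil => rfl
    | cons m ms => simp at h
  | cons b bs ih =>
    cases ms with
    | nil => simp at h
    | cons m ms =>
      simp only [flatM, List.length_append, List.length_replicate, List.sum_cons]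
      rw [ih ms (by simpa using h)]

variable {R : Type*} [AddCommMonoid R]

theorem splitS_replicate (n : ℕ) (a : I) (L : List I) (G : List I → List I → R) :
    splitS (List.replicate n a ++ L) G
      = ∑ t ∈ range (n + 1), n.choose t •
        splitS L (fun s t' => G (List.replicate t a ++ s) (List.replicate (n - t) a ++ t')) := by
  induction n generalizing G with
  | zero => simp
  | succ n ih =>
    rw [List.replicate_succ, List.cons_append]
    simp only [splitS]
    rw [ih, ih]
    set g : ℕ → R := fun t =>
      splitS L (fun s t' => G (List.replicate t a ++ s) (List.replicate (n + 1 - t) a ++ t'))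
      with hg
    have h1 : ∀ t ∈ range (n + 1), n.choose t • splitS L (fun s t' =>
        G (a :: (List.replicate t a ++ s)) (List.replicate (n - t) a ++ t'))
        = n.choose t • g (t + 1) := by
      intro t _
      rw [hg]
      simp only [List.replicate_succ, List.cons_append, Nat.add_sub_add_right]
    have h2 : ∀ t ∈ range (n + 1), n.choose t • splitS L (fun s t' =>
        G (List.replicate t a ++ s) (a :: (List.replicate (n - t) a ++ t')))
        = n.choose t • g t := by
      intro t ht
      rw [mem_range] at ht
      rw [hg]
      have e : n + 1 - t = (n - t) + 1 := by omega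
      simp only [e, List.replicate_succ, List.cons_append]
    change _ = ∑ t ∈ range (n + 1 + 1), (n + 1).choose t • g t
    rw [sum_congr rfl h1, sum_congr rfl h2, sum_range_succ' _ (n + 1)]
    have h3 : ∀ t, (n + 1).choose (t + 1) • g (t + 1)
        = n.choose t • g (t + 1) + n.choose (t + 1) • g (t + 1) := by
      intro t
      rw [Nat.choose_succ_succ, add_smul]
    simp only [h3, sum_add_distrib]
    rw [add_assoc]
    congr 1
    have h4 := sum_range_succ' (fun t => n.choose t • g t) (n + 1)
    rw [sum_range_succ, Nat.choose_succ_self, zero_smul, add_zero] at h4
    rw [h4]
    simp only [Nat.choose_zero_right]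

theorem sel_replicate (m : ℕ) (b : I) (L : List I) (F : I → List I → R) :
    sel (List.replicate m b ++ L) F
      = m • F b (List.replicate (m - 1) b ++ L)
        + sel L (fun x l' => F x (List.replicate m b ++ l')) := by
  induction m generalizing F with
  | zero => simp
  | succ m ih =>
    rw [List.replicate_succ, List.cons_append]
    simp only [sel]
    rw [ih, ← add_assoc]
    congr 1
    rw [Nat.add_sub_cancel, succ_nsmul', add_comm]
    cases m with
    | zero => simp
    | succ m => rw [Nat.add_sub_cancel, List.replicate_succ, List.cons_append]; rw [add_comm]

/-- selection of one entry, with multiplicities -/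
def selM : List I → List ℕ → (I → List ℕ → R) → R
  | b :: bs, m :: ms, G => m • G b ((m - 1) :: ms) + selM bs ms (fun x ms' => G x (m :: ms'))
  | [], _, _ => 0
  | _ :: _, [], _ => 0

/-- selection of one distinct entry -/
def selD : List I → List ℕ → (I → List ℕ → R) → R
  | b :: bs, m :: ms, G =>
    (if m = 0 then 0 else G b ((m - 1) :: ms)) + selD bs ms (fun x ms' => G x (m :: ms'))
  | [], _, _ => 0
  | _ :: _, [], _ => 0

theorem sel_flatM (bs : List I) (ms : List ℕ) (F : I → List I → R) :
    sel (flatM bs ms) F = selM bs ms (fun x ms' => F x (flatM bs ms')) := by
  induction bs generalizing ms F with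
  | nil => rfl
  | cons b bs ih =>
    cases ms with
    | nil => rfl
    | cons m ms =>
      simp only [flatM, selM]
      rw [sel_replicate, ih]

theorem selD_smul {S : Type*} [Semiring S] [Module S R] (c : S) (bs : List I) (ms : List ℕ)
    (G : I → List ℕ → R) :
    selD bs ms (fun x ms' => c • G x ms') = c • selD bs ms G := by
  induction bs generalizing ms G with
  | nil => simp [selD]
  | cons b bs ih =>
    cases ms with
    | nil => simp [selD]
    | cons m ms =>
      simp only [selD]
      rw [ih, smul_add]
      split_ifs
      · rw [smul_zero]
      · rfl

/-- product of the factorials of the multiplicities -/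
def facs (ms : List ℕ) : ℕ := (ms.map Nat.factorial).prod

theorem facs_cons (m : ℕ) (ms : List ℕ) : facs (m :: ms) = m.factorial * facs ms := by
  simp [facs]

theorem selM_facs (bs : List I) (ms : List ℕ) (G : I → List ℕ → R) :
    selM bs ms (fun x ms' => facs ms' • G x ms') = facs ms • selD bs ms G := by
  induction bs generalizing ms G with
  | nil => simp [selM, selD]
  | cons b bs ih =>
    cases ms with
    | nil => simp [selM, selD]
    | cons m ms =>
      simp only [selM, selD, facs_cons]
      have h1 : (fun (x : I) (ms' : List ℕ) => (m.factorial * facs ms') • G x (m :: ms'))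
          = fun x ms' => facs ms' • (m.factorial • G x (m :: ms')) := by
        funext x ms'
        rw [smul_smul, mul_comm]
      rw [h1, ih, selD_smul, smul_add, smul_smul, smul_smul, mul_comm (facs ms)]
      congr 1
      cases m with
      | zero => simp
      | succ m =>
        rw [if_neg (Nat.succ_ne_zero m), Nat.add_sub_cancel, Nat.factorial_succ, mul_assoc]

end flat

section dp

variable {A W : Type*} [Ring A] [AddCommGroup W] [Module A W]

/-- sum over the distinct orders of the list with multiplicities `ms`, applied to `w` -/
def yy (bs : List A) (w : W) : ℕ → List ℕ → W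
  | 0, _ => w
  | n + 1, ms => selD bs ms (fun x ms' => x • yy bs w n ms')

/-- **Symmetrised products with multiplicities.** -/
theorem syn_flatM (bs : List A) (w : W) (n : ℕ) (ms : List ℕ) (hl : ms.length = bs.length)
    (hn : ms.sum = n) : syn id w n (flatM bs ms) = facs ms • yy bs w n ms := by
  induction n generalizing ms with
  | zero =>
    have h0 : facs ms = 1 := by
      clear hl
      induction ms with
      | nil => rfl
      | cons m ms ih =>
        rw [List.sum_cons] at hn
        rw [facs_cons, ih (by omega), show m = 0 by omega]
        rfl
    rw [h0, one_smul]
    rfl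
  | succ n ih =>
    simp only [syn, yy, id_eq]
    rw [sel_flatM, ← selM_facs]
    -- the two selections agree on the lists which occur
    have key : ∀ (cs : List A) (ks : List ℕ) (T : List ℕ → List ℕ),
        (∀ ks', ks'.length = ks.length → (T ks').length = bs.length) →
        (∀ ks', ks'.length = ks.length → (T ks').sum + ks.sum = (T ks).sum + ks'.sum) →
        (T ks).sum = n + 1 →
        selM cs ks (fun x ms' => x • syn id w n (flatM bs (T ms')))
          = selM cs ks (fun x ms' => facs (T ms') • (x • yy bs w n (T ms'))) := by
      intro cs
      induction cs with
      | nil => intro ks T _ _ _; rfl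
      | cons c cs ihc =>
        intro ks T h1 h2 h3
        cases ks with
        | nil => rfl
        | cons k ks =>
          simp only [selM]
          congr 1
          · cases k with
            | zero => rw [zero_smul, zero_smul]
            | succ k =>
              have h4 := h2 (k :: ks) (by simp)
              rw [List.sum_cons, List.sum_cons] at h4
              rw [Nat.add_sub_cancel, ih _ (h1 _ (by simp)) (by omega), smul_comm c]
          · exact ihc ks (fun ms' => T (k :: ms'))
              (fun ks' hk => h1 _ (by simp [hk]))
              (fun ks' hk => by
                have := h2 (k :: ks') (by simp [hk])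
                rw [List.sum_cons, List.sum_cons] at this
                omega) h3
    exact key bs ms id (fun ks' hk => by rw [← hl, ← hk]; rfl)
      (fun ks' hk => by simp only [id_eq]; omega) hn

/-- one factor of the product of exponentials, for all entries of the list in turn -/
def iterT : List A → (List ℕ → W) → List ℕ → W
  | [], V, ms => V ms
  | b :: bs, V, m :: ms =>
    ∑ t ∈ range (m + 1), m.choose t • (b ^ t • iterT bs (fun ms' => V ((m - t) :: ms')) ms)
  | _ :: _, _, [] => 0

/-- the `j`-th power of the product of exponentials -/
def VV (bs : List A) (w : W) : ℕ → List ℕ → W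
  | 0, ms => if ms.sum = 0 then w else 0
  | j + 1, ms => iterT bs (VV bs w j) ms

theorem splitS_flatM (bs : List A) (ms : List ℕ) (hl : ms.length = bs.length) (H : List A → W) :
    splitS (flatM bs ms) (fun s t => s.prod • H t)
      = iterT bs (fun ms' => H (flatM bs ms')) ms := by
  induction bs generalizing ms H with
  | nil =>
    cases ms with
    | nil => simp [flatM, splitS, iterT]
    | cons m ms => simp at hl
  | cons b bs ih =>
    cases ms with
    | nil => simp at hl
    | cons m ms =>
      simp only [flatM, iterT]
      rw [splitS_replicate]
      refine sum_congr rfl ?_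
      intro t _
      congr 1
      rw [← ih ms (by simpa using hl) (fun l => H (List.replicate (m - t) b ++ l))]
      have h1 := splitS_hom (DistribSMul.toAddMonoidHom W (b ^ t)) (flatM bs ms)
        (fun s t' => s.prod • H (List.replicate (m - t) b ++ t'))
      change b ^ t • splitS (flatM bs ms) (fun s t' => s.prod • H (List.replicate (m - t) b ++ t'))
        = splitS (flatM bs ms)
          (fun s t' => b ^ t • (s.prod • H (List.replicate (m - t) b ++ t'))) at h1
      rw [h1]
      congr 1
      funext s t'
      rw [List.prod_append, List.prod_replicate, mul_smul]

theorem arr_flatM (bs : List A) (w : W) (j : ℕ) (ms : List ℕ) (hl : ms.length = bs.length) :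
    arr j (flatM bs ms) (fun r => r.prod • w) = VV bs w j ms := by
  induction j generalizing ms with
  | zero =>
    simp only [VV]
    have h1 := flatM_length bs ms hl
    by_cases h : ms.sum = 0
    · rw [if_pos h]
      rw [h] at h1
      rw [List.eq_nil_of_length_eq_zero h1]
      simp [arr]
    · rw [if_neg h]
      cases hf : flatM bs ms with
      | nil =>
        rw [hf] at h1
        exact absurd h1.symm h
      | cons a l => rfl
  | succ j ih =>
    simp only [arr, VV]
    have h1 : ∀ s t' : List A, arr j t' (fun r => (s ++ r).prod • w)
        = s.prod • arr j t' (fun r => r.prod • w) := by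
      intro s t'
      have h2 := arr_hom (DistribSMul.toAddMonoidHom W s.prod) j t' (fun r => r.prod • w)
      change s.prod • arr j t' (fun r => r.prod • w)
        = arr j t' (fun r => s.prod • (r.prod • w)) at h2
      rw [h2]
      congr 1
      funext r
      rw [List.prod_append, mul_smul]
    simp only [h1]
    rw [splitS_flatM bs ms hl (fun t' => arr j t' (fun r => r.prod • w))]
    -- replace the function under `iterT`
    have key : ∀ (cs : List A) (ks : List ℕ) (V V' : List ℕ → W),
        (∀ ks', ks'.length = ks.length → V ks' = V' ks') → iterT cs V ks = iterT cs V' ks := by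
      intro cs
      induction cs with
      | nil => intro ks V V' h; exact h ks rfl
      | cons c cs ihc =>
        intro ks V V' h
        cases ks with
        | nil => rfl
        | cons k ks =>
          simp only [iterT]
          refine sum_congr rfl ?_
          intro t _
          rw [ihc ks _ (fun ms' => V' ((k - t) :: ms')) (fun ks' hk => h _ (by simp [hk]))]
    exact key bs ms _ _ (fun ks' hk => ih ks' (by rw [hk, hl]))

/-- **Rearrangement sums with multiplicities.** -/
theorem cop_flatM (p : ℕ) (bs : List A) (w : W) (ms : List ℕ) (hl : ms.length = bs.length) :
    cop p w (flatM bs ms) = ∑ j ∈ range p, VV bs w j ms := by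
  unfold cop csum
  exact sum_congr rfl (fun j _ => arr_flatM bs w j ms hl)

end dp

end Pool.Agent.Work.MP_bde882_al.Red
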