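import Pool.Agent.Work.MP_bde882_al_h64.Long4
import Pool.Agent.Work.MP_bde882_al_h64.Multi

/-!
The base checks of block B as scalar statements, and the dynamic programming form.
-/

set_option autoImplicit false

namespace Pool.Agent.Work.MP_bde882_al.Red

open Finset
open Pool.Agent.Work.MP_bde882_al.H93 (LieD)

section exact

variable {F R : Type*} [Field F] [Ring R] [Algebra F R] (X : Fin 3 → R)

/-- words of content `c` -/
def exC (c : Fin 3 → ℕ) : Set (List (Fin 3)) := {w | ∀ i, w.count i = c i}

theorem exC_append (a b : Fin 3 → ℕ) (s : List (Fin 3)) (hs : s ∈ exC a)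
    (t : List (Fin 3)) (ht : t ∈ exC b) : s ++ t ∈ exC (a + b) := by
  intro i
  rw [List.count_append, hs i, ht i]
  rfl

theorem exC_zero : ([] : List (Fin 3)) ∈ exC 0 := fun _ => rfl

theorem letters_ex (ls : List (Fin 3)) :
    List.Forall₂ (fun n z => z ∈ spanW F X (exC n)) (ls.map (fun j => Pi.single j 1)) (ls.map X) := by
  induction ls with
  | nil => exact List.Forall₂.nil
  | cons a ls ih =>
    refine List.Forall₂.cons ?_ ih
    have := word_mem_spanW (F := F) (X := X) (S := exC (Pi.single a 1)) (w := [a]) (by
      intro i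
      rw [List.count_singleton]
      by_cases h : a = i
      · subst h
        simp
      · rw [Pi.single_eq_of_ne (fun h' => h h'.symm)]
        simp [h])
    simpa using this

theorem letters_ex_sum (ls : List (Fin 3)) (i : Fin 3) :
    (ls.map (fun j => (Pi.single j 1 : Fin 3 → ℕ))).sum i = ls.count i := by
  induction ls with
  | nil => rfl
  | cons a ls ih =>
    rw [List.map_cons, List.sum_cons, Pi.add_apply, ih, List.count_cons, add_comm]
    congr 1
    by_cases h : a = i
    · subst h
      simp
    · rw [Pi.single_eq_of_ne (fun h' => h h'.symm)]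
      simp [h]

/-- content of `zy a` -/
def cZY (a : ℕ) : Fin 3 → ℕ := ![0, 1, a]

theorem adZY_ex (a : ℕ) : adZY X a ∈ spanW F X (exC (cZY a)) := by
  induction a with
  | zero =>
    have := word_mem_spanW (F := F) (X := X) (S := exC (cZY 0)) (w := [1]) (by
      intro i
      fin_cases i <;> rfl)
    simpa [adZY] using this
  | succ a ih =>
    refine spanW_bracket 2 ?_ ?_ ih
    · intro s hs i
      have h := hs i
      fin_cases i
      · simpa [cZY] using h
      · simpa [cZY] using h
      · simp [cZY] at h ⊢
        exact h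
    · intro s hs i
      have h := hs i
      fin_cases i
      · simpa [cZY] using h
      · simpa [cZY] using h
      · simp [cZY] at h ⊢
        exact h

theorem zys_ex (as : List ℕ) :
    List.Forall₂ (fun n z => z ∈ spanW F X (exC n)) (as.map cZY) (as.map (adZY X)) := by
  induction as with
  | nil => exact List.Forall₂.nil
  | cons a as ih => exact List.Forall₂.cons (adZY_ex X a) ih

theorem cZY_sum (as : List ℕ) : (as.map cZY).sum = ![0, as.length, as.sum] := by
  induction as with
  | nil =>
    funext i
    fin_cases i <;> rfl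
  | cons a as ih =>
    rw [List.map_cons, List.sum_cons, ih]
    funext i
    fin_cases i
    · rfl
    · change 1 + as.length = (a :: as).length
      rw [List.length_cons, add_comm]
    · change a + as.sum = (a :: as).sum
      rw [List.sum_cons]

end exact

section scalars

variable {p : ℕ} [Fact p.Prime]

theorem spanW_apply_zero (F : Fn p) (S : Set (List (Fin 3))) (u b : List (Fin 3))
    (h : ∀ w ∈ S, F (u ++ w ++ b) = 0) (r : Module.End (ZMod p) (Fn p))
    (hr : r ∈ spanW (ZMod p) (Xop p) S) : r ((b.map (Xop p)).prod F) u = 0 := by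
  unfold spanW at hr
  induction hr using Submodule.span_induction with
  | mem x hx =>
    obtain ⟨w, hw, rfl⟩ := hx
    rw [Xop_prod, Xop_prod]
    exact h w hw
  | zero => rfl
  | add x y _ _ hx hy => rw [LinearMap.add_apply, Pi.add_apply, hx, hy, add_zero]
  | smul c x _ hx => rw [LinearMap.smul_apply, Pi.smul_apply, hx, smul_zero]

theorem eq_replicate_two (u : List (Fin 3)) (h0 : u.count 0 = 0) (h1 : u.count 1 = 0) :
    u = List.replicate (u.count 2) 2 := by
  induction u with
  | nil => rfl
  | cons a u ih =>
    rw [List.count_cons] at h0 h1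
    fin_cases a
    · simp at h0
    · simp at h1
    · have h0' : u.count 0 = 0 := by
        revert h0
        simp
      have h1' : u.count 1 = 0 := by
        revert h1
        simp
      have h2 := ih h0' h1'
      change (2 : Fin 3) :: u = List.replicate ((2 : Fin 3) :: u |>.count 2) 2
      rw [List.count_cons_self, List.replicate_succ, ← h2]

/-- an operator of content `(q, q, s)` is in `IF F` as soon as finitely many values vanish -/
theorem IF_of_scalars (F : Fn p) (hcont : ∀ v : List (Fin 3), (¬ ∀ i, v.count i = p - 1) → F v = 0)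
    (h22l : ∀ w, F (2 :: 2 :: w) = 0) (h22r : ∀ w, F (w ++ [2, 2]) = 0) (s : ℕ)
    (r : Module.End (ZMod p) (Fn p))
    (hr : r ∈ spanW (ZMod p) (Xop p) (exC ![p - 1, p - 1, s]))
    (h : ∀ i j, i ≤ 1 → j ≤ 1 → i + j + s = p - 1 →
      r (((List.replicate j (2 : Fin 3)).map (Xop p)).prod F) (List.replicate i 2) = 0) :
    r ∈ IF F := by
  rw [mem_IF_iff]
  intro u b
  by_cases hc : u.count 0 + b.count 0 = 0 ∧ u.count 1 + b.count 1 = 0 ∧
      u.count 2 + b.count 2 + s = p - 1
  · obtain ⟨h0, h1, h2⟩ := hc
    have hu := eq_replicate_two u (by omega) (by omega)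
    have hb := eq_replicate_two b (by omega) (by omega)
    by_cases hi : 2 ≤ u.count 2
    · refine spanW_apply_zero F _ u b ?_ r hr
      intro w _
      rw [hu]
      obtain ⟨e, he⟩ : ∃ e, u.count 2 = e + 2 := ⟨u.count 2 - 2, by omega⟩
      rw [he, List.replicate_succ, List.replicate_succ, List.cons_append, List.cons_append,
        List.cons_append, List.cons_append]
      exact h22l _
    · by_cases hj : 2 ≤ b.count 2
      · refine spanW_apply_zero F _ u b ?_ r hr
        intro w _
        rw [hb]
        obtain ⟨e, he⟩ : ∃ e, b.count 2 = e + 2 := ⟨b.count 2 - 2, by omega⟩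
        rw [he, List.replicate_add, ← List.append_assoc]
        exact h22r _
      · have := h (u.count 2) (b.count 2) (by omega) (by omega) (by omega)
        rwa [← hu, ← hb] at this
  · refine spanW_apply_zero F _ u b ?_ r hr
    intro w hw
    apply hcont
    intro hall
    apply hc
    have e0 := hall 0
    have e1 := hall 1
    have e2 := hall 2
    rw [List.count_append, List.count_append, hw 0] at e0
    rw [List.count_append, List.count_append, hw 1] at e1
    rw [List.count_append, List.count_append, hw 2] at e2
    have f0 : (![p - 1, p - 1, s] : Fin 3 → ℕ) 0 = p - 1 := rfl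
    have f1 : (![p - 1, p - 1, s] : Fin 3 → ℕ) 1 = p - 1 := rfl
    have f2 : (![p - 1, p - 1, s] : Fin 3 → ℕ) 2 = s := rfl
    rw [f0] at e0
    rw [f1] at e1
    rw [f2] at e2
    refine ⟨by omega, by omega, by omega⟩

/-- all sorted lists of integers `≥ lo` with sum at most `n` (`fuel` at least `n`) -/
def partsLe : ℕ → ℕ → ℕ → List (List ℕ)
  | 0, _, _ => [[]]
  | fuel + 1, lo, n =>
    [] :: (((List.range (n + 1)).filter (fun a => decide (lo ≤ a))).map
      (fun a => (partsLe fuel a (n - a)).map (a :: ·))).flatten

theorem mem_partsLe (fuel lo n : ℕ) (hlo : 1 ≤ lo) (hn : n ≤ fuel) (as : List ℕ)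
    (h1 : ∀ a ∈ as, lo ≤ a) (h2 : as.Pairwise (· ≤ ·)) (h3 : as.sum ≤ n) :
    as ∈ partsLe fuel lo n := by
  induction fuel generalizing lo n as with
  | zero =>
    cases as with
    | nil => simp [partsLe]
    | cons a as =>
      have := h1 a (by simp)
      rw [List.sum_cons] at h3
      omega
  | succ fuel ih =>
    cases as with
    | nil => simp [partsLe]
    | cons a as =>
      have ha := h1 a (by simp)
      rw [List.sum_cons] at h3
      rw [List.pairwise_cons] at h2
      simp only [partsLe, List.mem_cons, List.mem_flatten, List.mem_map]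
      right
      refine ⟨_, ⟨a, ?_, rfl⟩, ?_⟩
      · rw [List.mem_filter, List.mem_range]
        exact ⟨by omega, by simpa using ha⟩
      · exact List.mem_map_of_mem (ih a (n - a) (by omega) (by omega) as h2.1 h2.2 (by omega))

/-- the list of operators of the first kind -/
def zs1 (p : ℕ) (as : List ℕ) : List (Module.End (ZMod p) (Fn p)) :=
  (lB1 p as.length).map (Xop p) ++ as.map (zy p)

/-- the list of operators of the second kind -/
def zs2 (p s : ℕ) : List (Module.End (ZMod p) (Fn p)) := (lB2 p s).map (Xop p)

omit [Fact p.Prime] in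
theorem count_lB1 (r : ℕ) : (lB1 p r).count 0 = p - 1 ∧ (lB1 p r).count 1 = p - 1 - r ∧
    (lB1 p r).count 2 = 0 := by
  unfold lB1
  simp [List.count_replicate]

omit [Fact p.Prime] in
theorem count_lB2 (s : ℕ) : (lB2 p s).count 0 = p - 1 ∧ (lB2 p s).count 1 = p - 1 ∧
    (lB2 p s).count 2 = s := by
  unfold lB2
  simp [List.count_replicate]

theorem Ph_zs1_content (as : List ℕ) (h : as.length ≤ p - 1) :
    Ph p (zs1 p as) ∈ spanW (ZMod p) (Xop p) (exC ![p - 1, p - 1, as.sum]) := by
  have h1 := Ph_mem_spanW (F := ZMod p) (X := Xop p) exC exC_zero exC_append p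
    (forall₂_append' (letters_ex (Xop p) (lB1 p as.length)) (zys_ex (Xop p) as))
  have h2 : ((lB1 p as.length).map (fun j => (Pi.single j 1 : Fin 3 → ℕ)) ++ as.map cZY).sum
      = ![p - 1, p - 1, as.sum] := by
    funext i
    rw [List.sum_append, Pi.add_apply, letters_ex_sum, cZY_sum]
    obtain ⟨c0, c1, c2⟩ := count_lB1 (p := p) as.length
    fin_cases i
    · change (lB1 p as.length).count 0 + 0 = p - 1
      rw [c0, add_zero]
    · change (lB1 p as.length).count 1 + as.length = p - 1
      rw [c1]
      omega
    · change (lB1 p as.length).count 2 + as.sum = as.sum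
      rw [c2, zero_add]
  rw [h2] at h1
  exact h1

theorem Ph_zs2_content (s : ℕ) :
    Ph p (zs2 p s) ∈ spanW (ZMod p) (Xop p) (exC ![p - 1, p - 1, s]) := by
  have h1 := Ph_mem_spanW (F := ZMod p) (X := Xop p) exC exC_zero exC_append p
    (letters_ex (Xop p) (lB2 p s))
  have h2 : ((lB2 p s).map (fun j => (Pi.single j 1 : Fin 3 → ℕ))).sum = ![p - 1, p - 1, s] := by
    funext i
    rw [letters_ex_sum]
    obtain ⟨c0, c1, c2⟩ := count_lB2 (p := p) s
    fin_cases i
    · exact c0
    · exact c1
    · exact c2
  rw [h2] at h1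
  exact h1

/-- **Assembly with scalar checks.** -/
theorem goal_of_scalars (F : Fn p)
    (hcont : ∀ v : List (Fin 3), (¬ ∀ i, v.count i = p - 1) → F v = 0)
    (hE : ∀ i j, i ≠ j → Eop p i j F = 0)
    (hpow : ∀ z ∈ lieSum (LieD (ZMod p) (Xop p)), z ^ (p - 1) ∈ IF F)
    (h22l : ∀ w, F (2 :: 2 :: w) = 0) (h22r : ∀ w, F (w ++ [2, 2]) = 0)
    (hS1 : ∀ as ∈ partsLe (p - 1) 1 (p - 1), ∀ i j, i ≤ 1 → j ≤ 1 → i + j + as.sum = p - 1 →
      (cop p (((List.replicate j (2 : Fin 3)).map (Xop p)).prod F) (zs1 p as))
        (List.replicate i 2) = 0)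
    (hS2 : ∀ s, 1 ≤ s → s < p - 1 → ∀ i j, i ≤ 1 → j ≤ 1 → i + j + s = p - 1 →
      (cop p (((List.replicate j (2 : Fin 3)).map (Xop p)).prod F) (zs2 p s))
        (List.replicate i 2) = 0)
    (hT : cop p F ((top3 p).map (Xop p)) [] ≠ 0) : Goal := by
  refine goal_of_blocks F hcont hE hpow ?_ ?_ hT
  · intro as h1 h2 h3
    have hlen : as.length ≤ as.sum := by
      have : ∀ as : List ℕ, (∀ a ∈ as, 1 ≤ a) → as.length ≤ as.sum := by
        intro as
        induction as with
        | nil => intro _; simp
        | cons a as ih =>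
          intro h
          rw [List.length_cons, List.sum_cons]
          have := ih (fun e he => h e (by simp [he]))
          have := h a (by simp)
          omega
      exact this as h1
    refine IF_of_scalars F hcont h22l h22r as.sum _ (Ph_zs1_content as (by omega)) ?_
    intro i j hi hj hij
    have := hS1 as (mem_partsLe (p - 1) 1 (p - 1) (le_refl 1) (le_refl _) as h1 h2 h3) i j hi hj hij
    rw [← Ph_smul] at this
    exact this
  · intro s h1 h2
    refine IF_of_scalars F hcont h22l h22r s _ (Ph_zs2_content s) ?_
    intro i j hi hj hij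
    have := hS2 s h1 h2 i j hi hj hij
    rw [← Ph_smul] at this
    exact this

end scalars

section natural

variable {A A' W W' : Type*} [Ring A] [AddCommGroup W] [Module A W] [Ring A'] [AddCommGroup W']
  [Module A' W'] (φ : W →+ W')

/-- the dynamic programming form is compatible with intertwining maps -/
theorem iterT_natural {bs : List A} {bs' : List A'}
    (h : List.Forall₂ (fun b b' => ∀ x, φ (b • x) = b' • φ x) bs bs') (V : List ℕ → W) (ms : List ℕ) :
    φ (iterT bs V ms) = iterT bs' (fun ms => φ (V ms)) ms := by
  induction h generalizing V ms with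
  | nil => rfl
  | @cons b b' bs bs' h1 _ ih =>
    cases ms with
    | nil => simp [iterT]
    | cons m ms =>
      have hp : ∀ (t : ℕ) (x : W), φ (b ^ t • x) = b' ^ t • φ x := by
        intro t
        induction t with
        | zero => intro x; simp
        | succ t ih2 =>
          intro x
          rw [pow_succ, pow_succ, mul_smul, mul_smul, ih2, h1]
      simp only [iterT, map_sum, map_nsmul, hp, ih]

theorem VV_natural {bs : List A} {bs' : List A'}
    (h : List.Forall₂ (fun b b' => ∀ x, φ (b • x) = b' • φ x) bs bs') (w : W) (j : ℕ)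
    (ms : List ℕ) : φ (VV bs w j ms) = VV bs' (φ w) j ms := by
  induction j generalizing ms with
  | zero =>
    simp only [VV]
    split_ifs
    · rfl
    · exact map_zero φ
  | succ j ih =>
    simp only [VV]
    rw [iterT_natural φ h]
    congr 1
    funext ms
    exact ih ms

end natural

end Pool.Agent.Work.MP_bde882_al.Red
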