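import Pool.Agent.Work.MP_bde882_al_h64.Scalars
import Pool.Agent.Work.MP_bde882_al_h62.Prog
import Pool.Agent.Work.MP_bde882_al_h87.Widen
import Pool.Agent.Work.MP_bde882_al_tab.Tab1a
import Pool.Agent.Work.MP_bde882_al_tab.Tab1b
import Pool.Agent.Work.MP_bde882_al_tab.Tab1c
import Pool.Agent.Work.MP_bde882_al_tab.Tab2b
import Pool.Agent.Work.MP_bde882_al_tab.Tab3c
import Pool.Agent.Work.MP_bde882_al_tab.Tab4b
import Pool.Agent.Work.MP_bde882_al_tab.Tab5c
import Pool.Agent.Work.MP_bde882_al_tab.Tab6c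
import Pool.Agent.Work.MP_bde882_al_tab.Tab7e

/-!
The programs for the scalar checks of the long lists.
-/

set_option autoImplicit false

namespace Pool.Agent.Work.MP_bde882_al.Chk64

open Pool.Agent.Work.MP_bde882_al.Tab

/-- the tables of the operators: letters `0, 1, 2`, then `2^a 1` -/
noncomputable def tb (n : ℕ) : Pg62.Op :=
  [T1_0, T1_1, T1_2, T2_6, T3_26, T4_106, T5_426, T6_1706, T7_6826].getD n
    (Pg62.Op.mk 0 Pg62.Tr.lf)

/-- block shift -/
noncomputable def sh (n : ℕ) : ℕ := Pg62.shO (tb n)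

/-- application, the block being evaluated first -/
noncomputable def ap (n s y : ℕ) : ℕ := Pg62.frc (fun b => Pg62.app H87.wcut 30 (tb n) b y) s

/-- the check of an entry -/
noncomputable def chk (e : DP.Ent) : Bool := DP.chkE sh Pg62.fd ap id e

end Pool.Agent.Work.MP_bde882_al.Chk64
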