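import Pool.Agent.Work.MP_bde882_al_h64.Multi

/-!
Dynamic programming over the sub-multisets of a multiset, with nested tables: a table lists the
values of a function on the multiplicity vectors below a given one.
-/

set_option autoImplicit false

namespace Pool.Agent.Work.MP_bde882_al.DP

open Finset
open Pool.Agent.Work.MP_bde882_al.Red

section sem

variable {A W : Type*} [Ring A] [AddCommGroup W] [Module A W]

theorem selD_congr {I R : Type*} [AddCommMonoid R] (bs : List I) (ms : List ℕ)
    (G G' : I → List ℕ → R)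
    (h : ∀ x ms', ms'.length = ms.length → ms'.sum + 1 = ms.sum → G x ms' = G' x ms') :
    selD bs ms G = selD bs ms G' := by
  induction bs generalizing ms G G' with
  | nil => rfl
  | cons b bs ih =>
    cases ms with
    | nil => rfl
    | cons m ms =>
      simp only [selD]
      congr 1
      · cases m with
        | zero => rfl
        | succ m =>
          rw [if_neg (Nat.succ_ne_zero m), if_neg (Nat.succ_ne_zero m), Nat.add_sub_cancel]
          refine h _ _ (by simp) ?_
          rw [List.sum_cons, List.sum_cons]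
          omega
      · refine ih ms _ _ (fun x ms' h1 h2 => h _ _ (by simp [h1]) ?_)
        rw [List.sum_cons, List.sum_cons]
        omega

/-- the solution of `s = r + ∑ bᵢ s(· - eᵢ)` -/
def solve : List A → (List ℕ → W) → List ℕ → W
  | [], r, ms => r ms
  | _ :: _, r, [] => r []
  | b :: bs, r, t :: ms =>
    Nat.rec (motive := fun _ => List ℕ → W) (solve bs (fun ms => r (0 :: ms)))
      (fun t S => solve bs (fun ms => r ((t + 1) :: ms) + b • S ms)) t ms

theorem solve_zero (b : A) (bs : List A) (r : List ℕ → W) (ms : List ℕ) :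
    solve (b :: bs) r (0 :: ms) = solve bs (fun ms => r (0 :: ms)) ms := rfl

theorem solve_succ (b : A) (bs : List A) (r : List ℕ → W) (t : ℕ) (ms : List ℕ) :
    solve (b :: bs) r ((t + 1) :: ms)
      = solve bs (fun ms => r ((t + 1) :: ms) + b • solve (b :: bs) r (t :: ms)) ms := rfl

theorem solve_spec (bs : List A) (r : List ℕ → W) (ms : List ℕ) (h : ms.length = bs.length) :
    solve bs r ms = r ms + selD bs ms (fun x ms' => x • solve bs r ms') := by
  induction bs generalizing r ms with
  | nil =>
    cases ms with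
    | nil => simp [solve, selD]
    | cons m ms => simp at h
  | cons b bs ih =>
    cases ms with
    | nil => simp at h
    | cons t ms =>
      have h' : ms.length = bs.length := by simpa using h
      cases t with
      | zero =>
        rw [solve_zero, ih _ _ h']
        simp only [selD, if_true, zero_add]
        rfl
      | succ t =>
        rw [solve_succ, ih _ _ h']
        simp only [selD, if_neg (Nat.succ_ne_zero t), Nat.add_sub_cancel]
        rw [add_assoc]
        rfl

/-- uniqueness of the solution -/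
theorem solve_unique (bs : List A) (r s : List ℕ → W)
    (hs : ∀ ms, ms.length = bs.length → s ms = r ms + selD bs ms (fun x ms' => x • s ms'))
    (ms : List ℕ) (h : ms.length = bs.length) : s ms = solve bs r ms := by
  obtain ⟨n, hn⟩ : ∃ n, n = ms.sum := ⟨_, rfl⟩
  induction n using Nat.strong_induction_on generalizing ms with
  | _ n ih =>
    rw [hs ms h, solve_spec bs r ms h]
    congr 1
    refine selD_congr _ _ _ _ (fun x ms' h1 h2 => ?_)
    rw [ih ms'.sum (by omega) ms' (by omega) rfl]

theorem solve_congr (bs : List A) (r r' : List ℕ → W) (ms : List ℕ) (h : ms.length = bs.length)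
    (hr : ∀ ms', ms'.length = bs.length → r ms' = r' ms') : solve bs r ms = solve bs r' ms := by
  refine solve_unique bs r' (solve bs r) (fun ms' h' => ?_) ms h
  rw [solve_spec bs r ms' h', hr ms' h']

/-- the sum over the distinct orders of the list with multiplicities `ms` -/
def yv (bs : List A) (w : W) (ms : List ℕ) : W := yy bs w ms.sum ms

theorem yv_zero (bs : List A) (w : W) (ms : List ℕ) (h : ms.sum = 0) : yv bs w ms = w := by
  unfold yv
  rw [h]
  rfl

theorem yv_pos (bs : List A) (w : W) (ms : List ℕ) (h : 0 < ms.sum) :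
    yv bs w ms = selD bs ms (fun x ms' => x • yv bs w ms') := by
  unfold yv
  obtain ⟨n, hn⟩ : ∃ n, ms.sum = n + 1 := ⟨ms.sum - 1, by omega⟩
  rw [hn]
  simp only [yy]
  refine selD_congr _ _ _ _ (fun x ms' h1 h2 => ?_)
  rw [show ms'.sum = n by omega]

/-- no factor `b` -/
theorem yv_cons_zero (b : A) (bs : List A) (w : W) (ms : List ℕ) (h : ms.length = bs.length) :
    yv (b :: bs) w (0 :: ms) = yv bs w ms := by
  obtain ⟨n, hn⟩ : ∃ n, n = ms.sum := ⟨_, rfl⟩
  induction n using Nat.strong_induction_on generalizing ms with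
  | _ n ih =>
    rcases Nat.eq_zero_or_pos ms.sum with h0 | h0
    · rw [yv_zero _ _ _ h0, yv_zero _ _ _ (by simpa using h0)]
    · rw [yv_pos _ _ _ h0, yv_pos _ _ _ (by simpa using h0)]
      simp only [selD, if_true, zero_add]
      refine selD_congr _ _ _ _ (fun x ms' h1 h2 => ?_)
      rw [ih ms'.sum (by omega) ms' (by omega) rfl]

/-- one more factor `b` -/
theorem yv_cons_succ (b : A) (bs : List A) (w : W) (t : ℕ) (ms : List ℕ)
    (h : ms.length = bs.length) :
    yv (b :: bs) w ((t + 1) :: ms)
      = solve bs (fun ms => b • yv (b :: bs) w (t :: ms)) ms := by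
  refine solve_unique bs _ (fun ms => yv (b :: bs) w ((t + 1) :: ms)) ?_ ms h
  intro ms _
  rw [yv_pos _ _ _ (by rw [List.sum_cons]; omega)]
  simp only [selD, if_neg (Nat.succ_ne_zero t), Nat.add_sub_cancel]

end sem

/-! ### Programs -/

/-- nested tables -/
inductive Tb : Type
  | leaf (v : ℕ) : Tb
  | nil : Tb
  | cons (hd tl : Tb) : Tb

section prog

variable {Op : Type} (w : Op → ℕ) (fd : ℕ → ℕ)

/-- apply an operator to all entries; `s` is the block of the first entry -/
noncomputable def apT (f : ℕ → ℕ → ℕ) (T : Tb) : List Op → ℕ → Tb :=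
  Tb.rec (motive := fun _ => List Op → ℕ → Tb)
    (fun v _ s => Tb.leaf (f s v))
    (fun _ _ => Tb.nil)
    (fun _ _ ihS ihSs P s =>
      List.rec (motive := fun _ => Tb) Tb.nil
        (fun p P' _ => Tb.cons (ihS P' s) (ihSs P (Nat.sub s (w p)))) P)
    T

/-- apply an operator to all entries of `T` and add the entries of `R` -/
noncomputable def apA (f : ℕ → ℕ → ℕ) (T : Tb) : Tb → List Op → ℕ → Tb :=
  Tb.rec (motive := fun _ => Tb → List Op → ℕ → Tb)
    (fun v R _ s => Tb.rec (motive := fun _ => Tb)
        (fun v' => Tb.leaf (Nat.add v' (f s v))) Tb.nil (fun _ _ _ _ => Tb.nil) R)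
    (fun _ _ _ => Tb.nil)
    (fun _ _ ihS ihSs R P s =>
      List.rec (motive := fun _ => Tb) Tb.nil
        (fun p P' _ => Tb.rec (motive := fun _ => Tb) (fun _ => Tb.nil) Tb.nil
          (fun R' Rs _ _ => Tb.cons (ihS R' P' s) (ihSs Rs P (Nat.sub s (w p)))) R) P)
    T

/-- reduction of a leaf -/
noncomputable def foldT (T : Tb) : Tb :=
  Tb.rec (motive := fun _ => Tb) (fun v => Tb.leaf (fd v)) Tb.nil (fun _ _ _ _ => Tb.nil) T

/-- solution of the recursion; `s` is the block of the first entry -/
noncomputable def lay (f : Op → ℕ → ℕ → ℕ) (P : List Op) : ℕ → Tb → Tb :=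
  List.rec (motive := fun _ => ℕ → Tb → Tb)
    (fun _ T => foldT fd T)
    (fun p P' ih s T =>
      Tb.rec (motive := fun _ => ℕ → Tb) (fun _ _ => Tb.nil) (fun _ => Tb.nil)
        (fun R _ _ ihRs s =>
          (fun rest => Tb.rec (motive := fun _ => Tb) (fun _ => Tb.nil)
              (Tb.cons (ih s R) Tb.nil)
              (fun S _ _ _ => Tb.cons (ih s (apA w (f p) S R P' (Nat.sub s (w p)))) rest) rest)
            (ihRs (Nat.sub s (w p)))) T s)
    P

theorem apT_leaf (f : ℕ → ℕ → ℕ) (v : ℕ) (P : List Op) (s : ℕ) :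
    apT w f (Tb.leaf v) P s = Tb.leaf (f s v) := rfl

theorem apT_nil (f : ℕ → ℕ → ℕ) (P : List Op) (s : ℕ) : apT w f Tb.nil P s = Tb.nil := rfl

theorem apT_cons (f : ℕ → ℕ → ℕ) (S Ss : Tb) (p : Op) (P : List Op) (s : ℕ) :
    apT w f (Tb.cons S Ss) (p :: P) s = Tb.cons (apT w f S P s) (apT w f Ss (p :: P) (s - w p)) := rfl

theorem apA_leaf (f : ℕ → ℕ → ℕ) (v v' : ℕ) (P : List Op) (s : ℕ) :
    apA w f (Tb.leaf v) (Tb.leaf v') P s = Tb.leaf (v' + f s v) := rfl

theorem apA_nil (f : ℕ → ℕ → ℕ) (R : Tb) (P : List Op) (s : ℕ) :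
    apA w f Tb.nil R P s = Tb.nil := rfl

theorem apA_cons (f : ℕ → ℕ → ℕ) (S Ss R Rs : Tb) (p : Op) (P : List Op) (s : ℕ) :
    apA w f (Tb.cons S Ss) (Tb.cons R Rs) (p :: P) s
      = Tb.cons (apA w f S R P s) (apA w f Ss Rs (p :: P) (s - w p)) := rfl

theorem lay_nil (f : Op → ℕ → ℕ → ℕ) (s v : ℕ) :
    lay w fd f [] s (Tb.leaf v) = Tb.leaf (fd v) := rfl

theorem lay_cons_nil (f : Op → ℕ → ℕ → ℕ) (p : Op) (P : List Op) (s : ℕ) :
    lay w fd f (p :: P) s Tb.nil = Tb.nil := rfl

theorem lay_cons_cons (f : Op → ℕ → ℕ → ℕ) (p : Op) (P : List Op) (s : ℕ) (R Rs : Tb) :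
    lay w fd f (p :: P) s (Tb.cons R Rs)
      = Tb.rec (motive := fun _ => Tb) (fun _ => Tb.nil)
          (Tb.cons (lay w fd f P s R) Tb.nil)
          (fun S _ _ _ => Tb.cons (lay w fd f P s (apA w (f p) S R P (s - w p)))
            (lay w fd f (p :: P) (s - w p) Rs)) (lay w fd f (p :: P) (s - w p) Rs) := rfl

end prog

/-! ### Soundness -/

section sound

/-- the code of a content -/
def cod (κ : Fin 3 → ℕ) : ℕ := 49 * κ 0 + 7 * κ 1 + κ 2

theorem cod_add (κ κ' : Fin 3 → ℕ) : cod (κ + κ') = cod κ + cod κ' := by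
  unfold cod
  simp only [Pi.add_apply]
  ring

theorem cod_smul (n : ℕ) (κ : Fin 3 → ℕ) : cod (n • κ) = n * cod κ := by
  unfold cod
  simp only [Pi.smul_apply, smul_eq_mul]
  ring

variable {A W : Type*} [Ring A] [AddCommGroup W] [Module A W]
variable {Op : Type} (wt : Op → Fin 3 → ℕ) (sem : Op → A)

/-- total content -/
def tot : List Op → List ℕ → Fin 3 → ℕ
  | p :: P, m :: ms => m • wt p + tot P ms
  | _, _ => 0

theorem tot_succ_sub (p : Op) (P : List Op) (m : ℕ) (ms : List ℕ) (κ : Fin 3 → ℕ) :
    cod (κ + tot wt (p :: P) (m :: ms)) = cod (κ + tot wt (p :: P) ((m + 1) :: ms)) - cod (wt p) := by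
  simp only [tot]
  rw [succ_nsmul]
  have : κ + (m • wt p + wt p + tot wt P ms) = (κ + (m • wt p + tot wt P ms)) + wt p := by
    abel
  rw [this, cod_add _ (wt p), Nat.add_sub_cancel]

/-- layers `m, m - 1, …, 0` -/
def RL (Q : ℕ → Tb → Prop) : ℕ → Tb → Prop
  | 0, T => ∃ S, T = Tb.cons S Tb.nil ∧ Q 0 S
  | m + 1, T => ∃ S Ss, T = Tb.cons S Ss ∧ Q (m + 1) S ∧ RL Q m Ss

/-- the table `T` lists the values of `f` (in the sense of `R`) -/
def RT (R : (Fin 3 → ℕ) → ℕ → W → Prop) : List Op → List ℕ → (Fin 3 → ℕ) → Tb → (List ℕ → W) →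
    Prop
  | [], [], κ, T, f => ∃ v, T = Tb.leaf v ∧ R κ v (f [])
  | p :: P, m :: ms, κ, T, f =>
    RL (fun t S => RT R P ms (κ + t • wt p) S (fun ms' => f (t :: ms'))) m T
  | [], _ :: _, _, _, _ => False
  | _ :: _, [], _, _, _ => False

theorem RL_mono {Q Q' : ℕ → Tb → Prop} (h : ∀ t S, Q t S → Q' t S) (m : ℕ) (T : Tb)
    (hT : RL Q m T) : RL Q' m T := by
  induction m generalizing T with
  | zero =>
    obtain ⟨S, h1, h2⟩ := hT
    exact ⟨S, h1, h _ _ h2⟩
  | succ m ih =>
    obtain ⟨S, Ss, h1, h2, h3⟩ := hT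
    exact ⟨S, Ss, h1, h _ _ h2, ih _ h3⟩

omit [AddCommGroup W] in
theorem RT_congr (R : (Fin 3 → ℕ) → ℕ → W → Prop) (P : List Op) (ms : List ℕ) (κ : Fin 3 → ℕ)
    (T : Tb) (f g : List ℕ → W) (h : ∀ ms', ms'.length = P.length → f ms' = g ms')
    (hT : RT wt R P ms κ T f) : RT wt R P ms κ T g := by
  induction P generalizing ms κ T f g with
  | nil =>
    cases ms with
    | nil =>
      obtain ⟨v, h1, h2⟩ := hT
      exact ⟨v, h1, by rw [← h [] rfl]; exact h2⟩
    | cons m ms => exact hT
  | cons p P ih =>
    cases ms with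
    | nil => exact hT
    | cons m ms =>
      refine RL_mono (fun t S hS => ih _ _ _ _ _ (fun ms' hm => ?_) hS) m T hT
      exact h _ (by simp [hm])

variable (RF : (Fin 3 → ℕ) → ℕ → W → Prop) (RU : ℕ → (Fin 3 → ℕ) → ℕ → W → Prop)
variable (f : Op → ℕ → ℕ → ℕ) (fd : ℕ → ℕ)

/-- the hypotheses on the packed arithmetic -/
structure Sound : Prop where
  mv : ∀ (p : Op) (κ : Fin 3 → ℕ) (y : ℕ) (a : W), (∀ x, κ x + wt p x ≤ 6) → RF κ y a →
    RU 1 (κ + wt p) (f p (cod κ) y) (sem p • a)
  add : ∀ (j : ℕ) (κ : Fin 3 → ℕ) (y y' : ℕ) (a a' : W), RU j κ y a → RU 1 κ y' a' →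
    RU (j + 1) κ (y + y') (a + a')
  fold : ∀ (j : ℕ) (κ : Fin 3 → ℕ) (y : ℕ) (a : W), j ≤ 6 → RU j κ y a → RF κ (fd y) a

variable {wt sem RF RU f fd}

theorem apT_sound (H : Sound wt sem RF RU f fd) (q : Op) (P : List Op) (ms : List ℕ)
    (κ : Fin 3 → ℕ) (T : Tb) (g : List ℕ → W) (s : ℕ) (hs : s = cod (κ + tot wt P ms))
    (hv : ∀ x, κ x + tot wt P ms x + wt q x ≤ 6) (hT : RT wt RF P ms κ T g) :
    RT wt (RU 1) P ms (κ + wt q) (apT (fun p => cod (wt p)) (f q) T P s)
      (fun ms' => sem q • g ms') := by
  induction P generalizing ms κ T g s with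
  | nil =>
    cases ms with
    | nil =>
      obtain ⟨v, rfl, h2⟩ := hT
      refine ⟨_, apT_leaf _ _ _ _ _, ?_⟩
      have h3 : s = cod κ := by rw [hs]; rfl
      rw [h3]
      refine H.mv q κ v _ (fun x => ?_) h2
      exact hv x
    | cons m ms => exact hT
  | cons p P ih =>
    cases ms with
    | nil => exact hT
    | cons m ms =>
      -- one layer
      have key : ∀ (t s : ℕ) (S : Tb) (g : List ℕ → W), s = cod (κ + tot wt (p :: P) (t :: ms)) →
          (∀ x, κ x + tot wt (p :: P) (t :: ms) x + wt q x ≤ 6) →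
          RT wt RF P ms (κ + t • wt p) S g →
          RT wt (RU 1) P ms (κ + wt q + t • wt p) (apT (fun p => cod (wt p)) (f q) S P s)
            (fun ms' => sem q • g ms') := by
        intro t s S g hs hv h2
        rw [add_right_comm]
        refine ih ms _ S _ s ?_ ?_ h2
        · rw [hs]
          simp only [tot]
          rw [add_assoc]
        · intro x
          have := hv x
          simp only [tot, Pi.add_apply, Pi.smul_apply, smul_eq_mul] at this ⊢
          omega
      change RL _ m T at hT
      change RL _ m _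
      induction m generalizing T s with
      | zero =>
        obtain ⟨S, rfl, h2⟩ := hT
        exact ⟨_, by rw [apT_cons, apT_nil], key 0 s S _ hs hv h2⟩
      | succ m ihm =>
        obtain ⟨S, Ss, rfl, h2, h3⟩ := hT
        refine ⟨_, _, by rw [apT_cons], key (m + 1) s S _ hs hv h2, ?_⟩
        refine ihm _ _ ?_ ?_ h3
        · rw [hs, ← tot_succ_sub wt p P m ms κ]
        · intro x
          have := hv x
          simp only [tot, Pi.add_apply, Pi.smul_apply, smul_eq_mul] at this ⊢
          rw [add_mul] at this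
          omega

theorem apA_sound (H : Sound wt sem RF RU f fd) (q : Op) (j : ℕ) (P : List Op) (ms : List ℕ)
    (κ : Fin 3 → ℕ) (T R : Tb) (g r : List ℕ → W) (s : ℕ) (hs : s = cod (κ + tot wt P ms))
    (hv : ∀ x, κ x + tot wt P ms x + wt q x ≤ 6) (hT : RT wt RF P ms κ T g)
    (hR : RT wt (RU j) P ms (κ + wt q) R r) :
    RT wt (RU (j + 1)) P ms (κ + wt q) (apA (fun p => cod (wt p)) (f q) T R P s)
      (fun ms' => r ms' + sem q • g ms') := by
  induction P generalizing ms κ T R g r s with
  | nil =>
    cases ms with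
    | nil =>
      obtain ⟨v, rfl, h2⟩ := hT
      obtain ⟨v', rfl, h4⟩ := hR
      refine ⟨_, apA_leaf _ _ _ _ _ _, ?_⟩
      have h3 : s = cod κ := by rw [hs]; rfl
      rw [h3]
      exact H.add j _ _ _ _ _ h4 (H.mv q κ v _ (fun x => hv x) h2)
    | cons m ms => exact hT
  | cons p P ih =>
    cases ms with
    | nil => exact hT
    | cons m ms =>
      -- one layer
      have key : ∀ (t s : ℕ) (S R : Tb) (g r : List ℕ → W),
          s = cod (κ + tot wt (p :: P) (t :: ms)) →
          (∀ x, κ x + tot wt (p :: P) (t :: ms) x + wt q x ≤ 6) →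
          RT wt RF P ms (κ + t • wt p) S g →
          RT wt (RU j) P ms (κ + wt q + t • wt p) R r →
          RT wt (RU (j + 1)) P ms (κ + wt q + t • wt p) (apA (fun p => cod (wt p)) (f q) S R P s)
            (fun ms' => r ms' + sem q • g ms') := by
        intro t s S R g r hs hv h2 h4
        rw [add_right_comm] at h4 ⊢
        refine ih ms _ S R _ _ s ?_ ?_ h2 h4
        · rw [hs]
          simp only [tot]
          rw [add_assoc]
        · intro x
          have := hv x
          simp only [tot, Pi.add_apply, Pi.smul_apply, smul_eq_mul] at this ⊢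
          omega
      change RL _ m T at hT
      change RL _ m R at hR
      change RL _ m _
      induction m generalizing T R s with
      | zero =>
        obtain ⟨S, rfl, h2⟩ := hT
        obtain ⟨S', rfl, h4⟩ := hR
        exact ⟨_, by rw [apA_cons, apA_nil], key 0 s S S' _ _ hs hv h2 h4⟩
      | succ m ihm =>
        obtain ⟨S, Ss, rfl, h2, h3⟩ := hT
        obtain ⟨S', Ss', rfl, h4, h5⟩ := hR
        refine ⟨_, _, by rw [apA_cons], key (m + 1) s S S' _ _ hs hv h2 h4, ?_⟩
        refine ihm _ _ _ ?_ ?_ h3 h5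
        · rw [hs, ← tot_succ_sub wt p P m ms κ]
        · intro x
          have := hv x
          simp only [tot, Pi.add_apply, Pi.smul_apply, smul_eq_mul] at this ⊢
          rw [add_mul] at this
          omega

theorem lay_sound (H : Sound wt sem RF RU f fd) (P : List Op) (j : ℕ) (hj : j + P.length ≤ 6)
    (ms : List ℕ) (κ : Fin 3 → ℕ) (T : Tb) (r : List ℕ → W) (s : ℕ)
    (hs : s = cod (κ + tot wt P ms)) (hv : ∀ x, κ x + tot wt P ms x ≤ 6)
    (hT : RT wt (RU j) P ms κ T r) :
    RT wt RF P ms κ (lay (fun p => cod (wt p)) fd f P s T) (solve (P.map sem) r) := by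
  induction P generalizing j ms κ T r s with
  | nil =>
    cases ms with
    | nil =>
      obtain ⟨v, rfl, h2⟩ := hT
      exact ⟨_, lay_nil _ _ _ _ _, H.fold j κ v _ (by simpa using hj) h2⟩
    | cons m ms => exact hT
  | cons p P ih =>
    cases ms with
    | nil => exact hT
    | cons m ms =>
      rw [List.length_cons] at hj
      change RL _ m T at hT
      change RL _ m _
      -- the lowest and the other layers
      have hv' : ∀ t ≤ m, ∀ x, (κ + t • wt p) x + tot wt P ms x ≤ 6 := by
        intro t ht x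
        have h1 := hv x
        simp only [tot, Pi.add_apply, Pi.smul_apply, smul_eq_mul] at h1 ⊢
        have h2 : t * wt p x ≤ m * wt p x := Nat.mul_le_mul_right _ ht
        omega
      have main : ∀ (m' : ℕ), m' ≤ m → ∀ (T : Tb) (s : ℕ),
          s = cod (κ + tot wt (p :: P) (m' :: ms)) →
          RL (fun t S => RT wt (RU j) P ms (κ + t • wt p) S (fun ms' => r (t :: ms'))) m' T →
          RL (fun t S => RT wt RF P ms (κ + t • wt p) S
            (fun ms' => solve ((p :: P).map sem) r (t :: ms'))) m'
            (lay (fun p => cod (wt p)) fd f (p :: P) s T) := by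
        intro m'
        induction m' with
        | zero =>
          intro _ T s hs hT
          obtain ⟨S, rfl, h2⟩ := hT
          refine ⟨_, by rw [lay_cons_cons, lay_cons_nil], ?_⟩
          refine ih j (by omega) ms _ S _ s ?_ (hv' 0 (Nat.zero_le _)) h2
          rw [hs]
          simp only [tot]
          rw [add_assoc]
        | succ m' ihm =>
          intro hm T s hs hT
          obtain ⟨R, Rs, rfl, h2, h3⟩ := hT
          have h4 := ihm (by omega) Rs (s - cod (wt p))
            (by rw [hs, ← tot_succ_sub wt p P m' ms κ]) h3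
          have h5 : ∃ S Ss, lay (fun p => cod (wt p)) fd f (p :: P) (s - cod (wt p)) Rs
              = Tb.cons S Ss ∧ RT wt RF P ms (κ + m' • wt p) S
                (fun ms' => solve ((p :: P).map sem) r (m' :: ms')) := by
            cases m' with
            | zero =>
              obtain ⟨S, e1, e2⟩ := h4
              exact ⟨S, _, e1, e2⟩
            | succ k =>
              obtain ⟨S, Ss, e1, e2, -⟩ := h4
              exact ⟨S, Ss, e1, e2⟩
          obtain ⟨S, Ss, e1, e2⟩ := h5
          refine ⟨_, Tb.cons S Ss, by rw [lay_cons_cons, e1], ?_, by rw [← e1]; exact h4⟩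
          have h6 := apA_sound H p j P ms (κ + m' • wt p) S R _ (fun ms' => r ((m' + 1) :: ms'))
            (s - cod (wt p)) ?_ ?_ e2 ?_
          · have h7 := ih (j + 1) (by omega) ms (κ + m' • wt p + wt p) _ _ s ?_ ?_ h6
            · beta_reduce
              rw [succ_nsmul, ← add_assoc]
              exact h7
            · rw [hs]
              simp only [tot]
              rw [succ_nsmul]
              congr 1
              abel
            · intro x
              have := hv' (m' + 1) hm x
              simp only [Pi.add_apply, Pi.smul_apply, smul_eq_mul, add_mul, one_mul] at this ⊢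
              omega
          · rw [hs, ← tot_succ_sub wt p P m' ms κ]
            simp only [tot]
            rw [add_assoc]
          · intro x
            have := hv' (m' + 1) hm x
            simp only [Pi.add_apply, Pi.smul_apply, smul_eq_mul, add_mul, one_mul] at this ⊢
            omega
          · rw [add_assoc, ← succ_nsmul]
            exact h2
      exact main m le_rfl T s hs hT

end sound

/-! ### States -/

/-- states of the walk over sorted lists -/
structure St (Op : Type) : Type where
  /-- distinct operators, latest first -/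
  P : List Op
  /-- table -/
  T : Tb
  /-- code of the block of the first entry -/
  s : ℕ

section state

variable {Op : Type} (w : Op → ℕ) (fd : ℕ → ℕ) (f : Op → ℕ → ℕ → ℕ) (eqb : Op → Op → Bool)

/-- a new operator -/
noncomputable def push (q : Op) (st : St Op) : St Op :=
  ⟨q :: st.P, Tb.cons (lay w fd f st.P (Nat.add st.s (w q)) (apT w (f q) st.T st.P st.s))
    (Tb.cons st.T Tb.nil), Nat.add st.s (w q)⟩

/-- the latest operator `p` again -/
noncomputable def bump (p : Op) (P' : List Op) (st : St Op) : St Op :=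
  ⟨st.P, Tb.rec (motive := fun _ => Tb) (fun _ => Tb.nil) Tb.nil
    (fun S _ _ _ => Tb.cons (lay w fd f P' (Nat.add st.s (w p)) (apT w (f p) S P' st.s)) st.T) st.T,
    Nat.add st.s (w p)⟩

/-- extension of the list by one operator -/
noncomputable def ext (q : Op) (st : St Op) : St Op :=
  List.rec (motive := fun _ => St Op) (push w fd f q st)
    (fun p P' _ => Bool.rec (motive := fun _ => St Op) (push w fd f q st) (bump w fd f p P' st)
      (eqb p q)) st.P

/-- the value of the full multiset -/
noncomputable def headT (T : Tb) : ℕ :=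
  Tb.rec (motive := fun _ => ℕ) (fun v => v) 0 (fun _ _ ih _ => ih) T

theorem headT_leaf (v : ℕ) : headT (Tb.leaf v) = v := rfl

theorem headT_cons (S Ss : Tb) : headT (Tb.cons S Ss) = headT S := rfl

end state

section inv

variable {A W : Type*} [Ring A] [AddCommGroup W] [Module A W]
variable {Op : Type} {wt : Op → Fin 3 → ℕ} {sem : Op → A}
variable {RF : (Fin 3 → ℕ) → ℕ → W → Prop} {RU : ℕ → (Fin 3 → ℕ) → ℕ → W → Prop}
variable {f : Op → ℕ → ℕ → ℕ} {fd : ℕ → ℕ} {eqb : Op → Op → Bool}

/-- the content of a list -/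
def cont (wt : Op → Fin 3 → ℕ) (l : List Op) : Fin 3 → ℕ := (l.map wt).sum

theorem cont_cons (p : Op) (l : List Op) : cont wt (p :: l) = wt p + cont wt l := by
  unfold cont
  rw [List.map_cons, List.sum_cons]

theorem cont_append (l l' : List Op) : cont wt (l ++ l') = cont wt l + cont wt l' := by
  unfold cont
  rw [List.map_append, List.sum_append]

theorem cont_reverse (l : List Op) : cont wt l.reverse = cont wt l := by
  unfold cont
  rw [List.map_reverse, List.sum_reverse]

theorem tot_eq (P : List Op) (ms : List ℕ) (h : ms.length = P.length) :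
    tot wt P ms = cont wt (flatM P ms) := by
  induction P generalizing ms with
  | nil =>
    cases ms with
    | nil => rfl
    | cons m ms => simp at h
  | cons p P ih =>
    cases ms with
    | nil => simp at h
    | cons m ms =>
      simp only [tot, flatM]
      rw [cont_append, ← ih ms (by simpa using h)]
      congr 1
      unfold cont
      rw [List.map_replicate, List.sum_replicate]

theorem flatM_length_ge {I : Type*} (bs : List I) (ms : List ℕ) (h : ms.length = bs.length)
    (hpos : ∀ m ∈ ms, 0 < m) : bs.length ≤ (flatM bs ms).length := by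
  rw [flatM_length bs ms h, ← h]
  clear h
  induction ms with
  | nil => simp
  | cons m ms ih =>
    rw [List.length_cons, List.sum_cons]
    have h1 := hpos m (by simp)
    have h2 := ih (fun m' hm => hpos m' (by simp [hm]))
    omega

variable (wt sem RF) in
/-- the state describes the list `l`, with start vector `a0` in the block `κ0` -/
def Inv (κ0 : Fin 3 → ℕ) (a0 : W) (st : St Op) (l : List Op) : Prop :=
  ∃ ms : List ℕ, ms.length = st.P.length ∧ l.reverse = flatM st.P ms ∧ (∀ m ∈ ms, 0 < m) ∧
    st.s = cod (κ0 + tot wt st.P ms) ∧ RT wt RF st.P ms κ0 st.T (yv (st.P.map sem) a0)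

theorem inv_init (κ0 : Fin 3 → ℕ) (a0 : W) (y : ℕ) (h : RF κ0 y a0) :
    Inv wt sem RF κ0 a0 ⟨[], Tb.leaf y, cod κ0⟩ [] := by
  refine ⟨[], rfl, rfl, by simp, rfl, y, rfl, ?_⟩
  rw [yv_zero _ _ _ rfl]
  exact h

theorem inv_push (H : Sound wt sem RF RU f fd) (κ0 : Fin 3 → ℕ) (a0 : W) (st : St Op)
    (l : List Op) (q : Op) (hl : l.length < 6) (hv : ∀ x, κ0 x + cont wt (l ++ [q]) x ≤ 6)
    (h : Inv wt sem RF κ0 a0 st l) :
    Inv wt sem RF κ0 a0 (push (fun p => cod (wt p)) fd f q st) (l ++ [q]) := by
  obtain ⟨ms, h1, h2, h3, h4, h5⟩ := h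
  have hlen : st.P.length ≤ 5 := by
    have := flatM_length_ge st.P ms h1 h3
    rw [← h2, List.length_reverse] at this
    omega
  have hcont : tot wt st.P ms = cont wt l := by
    rw [tot_eq _ _ h1, ← h2, cont_reverse]
  have hv' : ∀ x, κ0 x + tot wt st.P ms x + wt q x ≤ 6 := by
    intro x
    have := hv x
    rw [cont_append, cont_cons, hcont.symm] at this
    simp only [Pi.add_apply] at this
    omega
  refine ⟨1 :: ms, by simp [push, h1], ?_, ?_, ?_, ?_⟩
  · rw [List.reverse_append, h2]
    rfl
  · intro m hm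
    rcases List.mem_cons.1 hm with rfl | hm
    · exact Nat.one_pos
    · exact h3 m hm
  · change st.s + cod (wt q) = _
    rw [h4, ← cod_add]
    congr 1
    change _ = κ0 + (1 • wt q + tot wt st.P ms)
    rw [one_nsmul]
    abel
  · refine ⟨_, _, rfl, ?_, _, rfl, ?_⟩
    · have h6 := apT_sound H q st.P ms κ0 st.T _ st.s h4 hv' h5
      have h7 := lay_sound H st.P 1 (by omega) ms (κ0 + wt q) _ _ (st.s + cod (wt q)) ?_ ?_ h6
      · change RT wt RF st.P ms (κ0 + (0 + 1) • wt q) _ _
        rw [zero_add, one_nsmul]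
        refine RT_congr wt RF _ _ _ _ _ _ (fun ms' hm => ?_) h7
        change _ = yv (sem q :: st.P.map sem) a0 ((0 + 1) :: ms')
        rw [yv_cons_succ _ _ _ _ _ (by rw [hm, List.length_map])]
        refine solve_congr _ _ _ _ (by rw [hm, List.length_map]) (fun ms'' hm' => ?_)
        rw [yv_cons_zero _ _ _ _ hm']
      · rw [h4, ← cod_add]
        congr 1
        abel
      · intro x
        have := hv' x
        simp only [Pi.add_apply]
        omega
    · change RT wt RF st.P ms (κ0 + 0 • wt q) _ _
      rw [zero_nsmul, add_zero]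
      refine RT_congr wt RF _ _ _ _ _ _ (fun ms' hm => ?_) h5
      exact (yv_cons_zero _ _ _ _ (by rw [hm, List.length_map])).symm

theorem inv_bump (H : Sound wt sem RF RU f fd) (κ0 : Fin 3 → ℕ) (a0 : W) (st : St Op)
    (l : List Op) (p : Op) (P' : List Op) (hP : st.P = p :: P') (hl : l.length < 6)
    (hv : ∀ x, κ0 x + cont wt (l ++ [p]) x ≤ 6) (h : Inv wt sem RF κ0 a0 st l) :
    Inv wt sem RF κ0 a0 (bump (fun p => cod (wt p)) fd f p P' st) (l ++ [p]) := by
  obtain ⟨ms, h1, h2, h3, h4, h5⟩ := h
  have hlen : st.P.length ≤ 5 := by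
    have := flatM_length_ge st.P ms h1 h3
    rw [← h2, List.length_reverse] at this
    omega
  have hcont : tot wt st.P ms = cont wt l := by
    rw [tot_eq _ _ h1, ← h2, cont_reverse]
  obtain ⟨P, T, s⟩ := st
  simp only at hP h1 h2 h4 h5 hlen hcont
  subst hP
  cases ms with
  | nil => simp at h1
  | cons m ms =>
    have h1' : ms.length = P'.length := by simpa using h1
    have hv' : ∀ x, (κ0 + m • wt p) x + tot wt P' ms x + wt p x ≤ 6 := by
      intro x
      have := hv x
      rw [cont_append, cont_cons, hcont.symm] at this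
      simp only [tot, Pi.add_apply, Pi.smul_apply, smul_eq_mul] at this ⊢
      omega
    have hs : s = cod ((κ0 + m • wt p) + tot wt P' ms) := by
      rw [h4]
      simp only [tot]
      rw [add_assoc]
    refine ⟨(m + 1) :: ms, congrArg (· + 1) h1', ?_, ?_, ?_, ?_⟩
    · rw [List.reverse_append, h2]
      rfl
    · intro m' hm
      rcases List.mem_cons.1 hm with rfl | hm
      · exact Nat.succ_pos _
      · exact h3 m' (by simp [hm])
    · change s + cod (wt p) = _
      rw [hs, ← cod_add]
      congr 1
      change _ = κ0 + ((m + 1) • wt p + tot wt P' ms)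
      rw [succ_nsmul]
      abel
    · change RL _ m T at h5
      have h6 : ∃ S Ss, T = Tb.cons S Ss ∧ RT wt RF P' ms (κ0 + m • wt p) S
          (fun ms' => yv ((p :: P').map sem) a0 (m :: ms')) := by
        cases m with
        | zero =>
          obtain ⟨S, e1, e2⟩ := h5
          exact ⟨S, _, e1, e2⟩
        | succ k =>
          obtain ⟨S, Ss, e1, e2, -⟩ := h5
          exact ⟨S, Ss, e1, e2⟩
      obtain ⟨S, Ss, rfl, h7⟩ := h6
      refine ⟨_, _, rfl, ?_, h5⟩
      have h8 := apT_sound H p P' ms (κ0 + m • wt p) S _ s hs hv' h7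
      have h9 := lay_sound H P' 1 (by simp at hlen; omega) ms (κ0 + m • wt p + wt p) _ _
        (s + cod (wt p)) ?_ ?_ h8
      · beta_reduce
        rw [succ_nsmul, ← add_assoc]
        refine RT_congr wt RF _ _ _ _ _ _ (fun ms' hm => ?_) h9
        exact (yv_cons_succ _ _ _ _ _ (by rw [hm, List.length_map])).symm
      · rw [hs, ← cod_add]
        congr 1
        abel
      · intro x
        have := hv' x
        simp only [Pi.add_apply] at this ⊢
        omega

theorem inv_ext (H : Sound wt sem RF RU f fd) (heq : ∀ p q, eqb p q = true → p = q)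
    (κ0 : Fin 3 → ℕ) (a0 : W) (st : St Op)
    (l : List Op) (q : Op) (hl : l.length < 6)
    (hv : ∀ x, κ0 x + cont wt (l ++ [q]) x ≤ 6) (h : Inv wt sem RF κ0 a0 st l) :
    Inv wt sem RF κ0 a0 (ext (fun p => cod (wt p)) fd f eqb q st) (l ++ [q]) := by
  have h1 := inv_push H κ0 a0 st l q hl hv h
  cases hP : st.P with
  | nil =>
    have : ext (fun p => cod (wt p)) fd f eqb q st = push (fun p => cod (wt p)) fd f q st := by
      unfold ext
      rw [hP]
    rw [this]
    exact h1
  | cons p P' =>
    cases hb : eqb p q with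
    | false =>
      have : ext (fun p => cod (wt p)) fd f eqb q st = push (fun p => cod (wt p)) fd f q st := by
        unfold ext
        rw [hP]
        simp only [hb]
      rw [this]
      exact h1
    | true =>
      have : ext (fun p => cod (wt p)) fd f eqb q st
          = bump (fun p => cod (wt p)) fd f p P' st := by
        unfold ext
        rw [hP]
        simp only [hb]
      rw [this]
      have hpq := heq p q hb
      subst hpq
      exact inv_bump H κ0 a0 st l p P' hP hl hv h

omit [AddCommGroup W] in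
theorem head_sound (P : List Op) (ms : List ℕ) (κ : Fin 3 → ℕ) (T : Tb) (g : List ℕ → W)
    (h : RT wt RF P ms κ T g) : RF (κ + tot wt P ms) (headT T) (g ms) := by
  induction P generalizing ms κ T g with
  | nil =>
    cases ms with
    | nil =>
      obtain ⟨v, rfl, h2⟩ := h
      exact h2
    | cons m ms => exact absurd h (fun h => h)
  | cons p P ih =>
    cases ms with
    | nil => exact absurd h (fun h => h)
    | cons m ms =>
      change RL _ m T at h
      have h6 : ∃ S Ss, T = Tb.cons S Ss ∧ RT wt RF P ms (κ + m • wt p) S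
          (fun ms' => g (m :: ms')) := by
        cases m with
        | zero =>
          obtain ⟨S, e1, e2⟩ := h
          exact ⟨S, _, e1, e2⟩
        | succ k =>
          obtain ⟨S, Ss, e1, e2, -⟩ := h
          exact ⟨S, Ss, e1, e2⟩
      obtain ⟨S, Ss, rfl, h7⟩ := h6
      rw [headT_cons]
      have := ih ms _ S _ h7
      simp only [tot]
      rw [← add_assoc]
      exact this

theorem sel_map' {I J R : Type*} [AddCommMonoid R] (g : I → J) (l : List I)
    (F : J → List J → R) : sel (l.map g) F = sel l (fun x l' => F (g x) (l'.map g)) := by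
  induction l generalizing F with
  | nil => rfl
  | cons a l ih =>
    simp only [List.map_cons, sel]
    rw [ih]

theorem syn_map' {I : Type*} (b : I → A) (w : W) (n : ℕ) (l : List I) :
    syn id w n (l.map b) = syn b w n l := by
  induction n generalizing l with
  | zero => rfl
  | succ n ih =>
    simp only [syn]
    rw [sel_map']
    simp only [ih, id_eq]

/-- **Soundness of the table.** -/
theorem inv_head (κ0 : Fin 3 → ℕ) (a0 : W) (st : St Op) (l : List Op)
    (h : Inv wt sem RF κ0 a0 st l) :
    ∃ (a : W) (c : ℕ), RF (κ0 + cont wt l) (headT st.T) a ∧ syn sem a0 l.length l = c • a := by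
  obtain ⟨ms, h1, h2, h3, h4, h5⟩ := h
  have hcont : tot wt st.P ms = cont wt l := by
    rw [tot_eq _ _ h1, ← h2, cont_reverse]
  refine ⟨_, facs ms, by rw [← hcont]; exact head_sound _ _ _ _ _ h5, ?_⟩
  have h6 : ms.sum = l.length := by
    rw [← flatM_length st.P ms h1, ← h2, List.length_reverse]
  have h7 : syn sem a0 l.length l = syn sem a0 l.length (flatM st.P ms) := by
    refine syn_perm _ _ _ ?_
    rw [← h2]
    exact (List.reverse_perm l).symm
  rw [h7, ← syn_map', flatM_map, syn_flatM _ _ _ _ (by simpa using h1) h6]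
  unfold yv
  rw [h6]

end inv

end Pool.Agent.Work.MP_bde882_al.DP
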