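import Pool.Agent.Work.MP_bde882_al_red.Lie
import Pool.Agent.Work.MP_bde882_al_red.Module

/-!
Derivations and rearrangement sums.
-/

set_option autoImplicit false

namespace Pool.Agent.Work.MP_bde882_al.Red

open Finset

section derL

variable {I W : Type*} [AddCommMonoid W]

/-- sum over the entries of the list, with one entry replaced by its image -/
def derL (δ : I → I) : List I → (List I → W) → W
  | [], _ => 0
  | a :: l, Φ => Φ (δ a :: l) + derL δ l (fun r => Φ (a :: r))

variable (δ : I → I)

theorem derL_append (l l' : List I) (Φ : List I → W) :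
    derL δ (l ++ l') Φ = derL δ l (fun r => Φ (r ++ l')) + derL δ l' (fun r => Φ (l ++ r)) := by
  induction l generalizing Φ with
  | nil => simp [derL]
  | cons a l ih =>
    simp only [List.cons_append, derL, ih, add_assoc]

theorem derL_zero (l : List I) : derL δ l (fun _ => (0 : W)) = 0 := by
  induction l with
  | nil => rfl
  | cons a l ih => simp only [derL, ih, add_zero]

theorem derL_add (l : List I) (Φ Ψ : List I → W) :
    derL δ l (fun r => Φ r + Ψ r) = derL δ l Φ + derL δ l Ψ := by
  induction l generalizing Φ Ψ with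
  | nil => simp [derL]
  | cons a l ih =>
    simp only [derL, ih]
    abel

theorem derL_sum {ι : Type*} (T : Finset ι) (l : List I) (Φ : ι → List I → W) :
    derL δ l (fun r => ∑ i ∈ T, Φ i r) = ∑ i ∈ T, derL δ l (Φ i) := by
  classical
  induction T using Finset.induction_on with
  | empty => simp [derL_zero]
  | insert i T hi ih => simp only [Finset.sum_insert hi, derL_add, ih]

theorem derL_hom {W' : Type*} [AddCommMonoid W'] (φ : W →+ W') (l : List I) (Φ : List I → W) :
    φ (derL δ l Φ) = derL δ l (fun r => φ (Φ r)) := by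
  induction l generalizing Φ with
  | nil => exact map_zero φ
  | cons a l ih =>
    simp only [derL, map_add]
    rw [ih]

theorem derL_splitS (L : List I) (G : List I → List I → W) :
    derL δ L (fun L' => splitS L' G)
      = splitS L (fun s t => derL δ s (fun s' => G s' t) + derL δ t (fun t' => G s t')) := by
  induction L generalizing G with
  | nil => simp [derL, splitS]
  | cons a L ih =>
    simp only [derL, splitS, derL_add]
    rw [ih, ih]
    simp only [splitS_add]
    abel

theorem derL_arr_comm (j : ℕ) (s t : List I) (H : List I → List I → W) :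
    derL δ s (fun s' => arr j t (fun r => H s' r)) = arr j t (fun r => derL δ s (fun s' => H s' r)) := by
  induction s generalizing H with
  | nil =>
    simp only [derL]
    exact (arr_eq_zero _ _ _ (fun _ _ => rfl)).symm
  | cons a s ih =>
    simp only [derL]
    rw [ih, ← arr_add]

theorem derL_arr (j : ℕ) (t : List I) (Φ : List I → W) :
    derL δ t (fun t' => arr j t' Φ) = arr j t (fun r => derL δ r Φ) := by
  induction j generalizing t Φ with
  | zero =>
    cases t with
    | nil => rfl
    | cons a t =>
      simp only [derL, arr]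
      rw [derL_zero, add_zero]
  | succ j ih =>
    simp only [arr]
    rw [derL_splitS]
    refine splitS_congr' _ _ _ ?_
    intro s t'
    rw [derL_arr_comm, ih, ← arr_add]
    refine arr_congr _ _ _ _ ?_
    intro r _
    rw [derL_append]

theorem derL_csum (p : ℕ) (t : List I) (Φ : List I → W) :
    derL δ t (fun t' => csum p t' Φ) = csum p t (fun r => derL δ r Φ) := by
  unfold csum
  rw [derL_sum]
  exact sum_congr rfl (fun j _ => derL_arr δ j t Φ)

end derL

section ring

variable {R : Type*} [Ring R]

theorem der_one (δ : R →+ R) (hδ : ∀ a b, δ (a * b) = δ a * b + a * δ b) : δ 1 = 0 := by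
  have h := hδ 1 1
  rw [mul_one, mul_one, one_mul] at h
  exact left_eq_add.1 h

theorem der_prod (δ : R →+ R) (hδ : ∀ a b, δ (a * b) = δ a * b + a * δ b) (r : List R) :
    δ r.prod = derL δ r List.prod := by
  induction r with
  | nil => exact der_one δ hδ
  | cons a r ih =>
    rw [List.prod_cons, hδ, ih]
    simp only [derL, List.prod_cons]
    congr 1
    exact derL_hom (⇑δ) (AddMonoidHom.mulLeft a) r List.prod

/-- the rearrangement sum of a list of operators -/
def Ph (p : ℕ) (zs : List R) : R := csum p zs List.prod

theorem Ph_eq_cop (p : ℕ) (zs : List R) : Ph p zs = cop p (1 : R) zs := by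
  unfold Ph cop
  congr 1
  funext r
  rw [smul_eq_mul, mul_one]

theorem Ph_smul {W : Type*} [AddCommGroup W] [Module R W] (p : ℕ) (w : W) (zs : List R) :
    Ph p zs • w = cop p w zs := by
  unfold Ph cop
  exact csum_hom (smulA R w) p zs List.prod

theorem der_Ph (δ : R →+ R) (hδ : ∀ a b, δ (a * b) = δ a * b + a * δ b) (p : ℕ) (zs : List R) :
    δ (Ph p zs) = derL δ zs (Ph p) := by
  have h1 : derL δ zs (Ph p) = csum p zs (fun r => derL δ r List.prod) := derL_csum δ p zs _
  rw [h1]
  unfold Ph
  rw [csum_hom]
  congr 1
  funext r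
  exact der_prod δ hδ r

theorem Ph_swap (p : ℕ) (l₁ l₂ : List R) (x y : R) :
    Ph p (l₁ ++ x :: y :: l₂)
      = Ph p (l₁ ++ y :: x :: l₂) + Ph p (l₁ ++ (x * y - y * x) :: l₂) := by
  rw [Ph_eq_cop, Ph_eq_cop, Ph_eq_cop, cop_swap]

/-- `Ph` as an additive map in one entry -/
def PhHom (p : ℕ) (l₁ l₂ : List R) : R →+ R where
  toFun x := Ph p (l₁ ++ x :: l₂)
  map_zero' := by
    rw [Ph_eq_cop, ← copHom_apply, map_zero]
  map_add' x y := by
    rw [Ph_eq_cop, Ph_eq_cop, Ph_eq_cop, ← copHom_apply, ← copHom_apply, ← copHom_apply, map_add]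

theorem PhHom_apply (p : ℕ) (l₁ l₂ : List R) (x : R) : PhHom p l₁ l₂ x = Ph p (l₁ ++ x :: l₂) := rfl

end ring

end Pool.Agent.Work.MP_bde882_al.Red
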