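import Pool.Agent.Work.MP_bde882_al_h64.Out

/-!
The operators `E_ij` on functions on words, the derivations `D_ij` of the ring of operators, the
subspace `IF F` of operators killing all translates of `F`, and the Lie ring generated by the
letters.
-/

set_option autoImplicit false

namespace Pool.Agent.Work.MP_bde882_al.Red

open Finset

section dsum

variable {R : Type*} [AddCommMonoid R]

/-- sum over all positions with letter `j` of the value at the word with this letter replaced by
`i` -/
def dsum (i j : Fin 3) : List (Fin 3) → (List (Fin 3) → R) → R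
  | [], _ => 0
  | a :: l, Φ => (if a = j then Φ (i :: l) else 0) + dsum i j l (fun r => Φ (a :: r))

theorem dsum_append (i j : Fin 3) (u v : List (Fin 3)) (Φ : List (Fin 3) → R) :
    dsum i j (u ++ v) Φ = dsum i j u (fun r => Φ (r ++ v)) + dsum i j v (fun r => Φ (u ++ r)) := by
  induction u generalizing Φ with
  | nil => simp [dsum]
  | cons a u ih =>
    rw [List.cons_append]
    simp only [dsum]
    rw [ih, add_assoc]
    rfl

theorem dsum_add (i j : Fin 3) (u : List (Fin 3)) (Φ Ψ : List (Fin 3) → R) :
    dsum i j u (fun r => Φ r + Ψ r) = dsum i j u Φ + dsum i j u Ψ := by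
  induction u generalizing Φ Ψ with
  | nil => simp [dsum]
  | cons a u ih =>
    simp only [dsum, ih]
    split_ifs
    · abel
    · simp

end dsum

section ops

variable {p : ℕ}

theorem dsum_mul (i j : Fin 3) (u : List (Fin 3)) (c : ZMod p) (Φ : List (Fin 3) → ZMod p) :
    dsum i j u (fun r => c * Φ r) = c * dsum i j u Φ := by
  induction u generalizing Φ with
  | nil => simp [dsum]
  | cons a u ih =>
    simp only [dsum, ih]
    split_ifs
    · ring
    · ring

/-- `(E_ij g) u`: sum over the positions of `u` with letter `j`, replaced by `i` -/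
def Eop (p : ℕ) (i j : Fin 3) : Module.End (ZMod p) (Fn p) where
  toFun g := fun u => dsum i j u g
  map_add' g h := by
    funext u
    exact dsum_add i j u g h
  map_smul' c g := by
    funext u
    exact dsum_mul i j u c g

theorem Eop_apply (i j : Fin 3) (g : Fn p) (u : List (Fin 3)) : Eop p i j g u = dsum i j u g := rfl

/-- the derivation `D_ij r = r E_ij - E_ij r` of the ring of operators -/
def Dop (p : ℕ) (i j : Fin 3) :
    Module.End (ZMod p) (Fn p) →ₗ[ZMod p] Module.End (ZMod p) (Fn p) :=
  LinearMap.mulRight (ZMod p) (Eop p i j) - LinearMap.mulLeft (ZMod p) (Eop p i j)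

theorem Dop_apply (i j : Fin 3) (r : Module.End (ZMod p) (Fn p)) :
    Dop p i j r = r * Eop p i j - Eop p i j * r := rfl

theorem Dop_mul (i j : Fin 3) (a b : Module.End (ZMod p) (Fn p)) :
    Dop p i j (a * b) = Dop p i j a * b + a * Dop p i j b := by
  rw [Dop_apply, Dop_apply, Dop_apply]
  simp only [mul_assoc, sub_mul, mul_sub]
  abel

theorem Dop_X (i j k : Fin 3) : Dop p i j (Xop p k) = if k = j then Xop p i else 0 := by
  apply LinearMap.ext
  intro g
  funext u
  rw [Dop_apply, LinearMap.sub_apply, Module.End.mul_apply, Module.End.mul_apply, Pi.sub_apply,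
    Xop_apply, Eop_apply, Eop_apply, dsum_append]
  have h1 : dsum i j u (Xop p k g) = dsum i j u (fun r => g (r ++ [k])) := rfl
  rw [h1, add_sub_cancel_left]
  simp only [dsum, add_zero]
  split_ifs
  · rfl
  · rfl

/-- the operators which kill all translates `g (· ++ b)` of `F` -/
def IF (F : Fn p) : Submodule (ZMod p) (Module.End (ZMod p) (Fn p)) where
  carrier := {r | ∀ b : List (Fin 3), r ((b.map (Xop p)).prod F) = 0}
  add_mem' := by
    intro x y hx hy b
    rw [LinearMap.add_apply, hx b, hy b, add_zero]
  zero_mem' := by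
    intro b
    rfl
  smul_mem' := by
    intro c x hx b
    rw [LinearMap.smul_apply, hx b, smul_zero]

theorem mem_IF {F : Fn p} {r : Module.End (ZMod p) (Fn p)} :
    r ∈ IF F ↔ ∀ b : List (Fin 3), r ((b.map (Xop p)).prod F) = 0 := Iff.rfl

theorem IF_mul_left {F : Fn p} {r : Module.End (ZMod p) (Fn p)} (a : Module.End (ZMod p) (Fn p))
    (h : r ∈ IF F) : a * r ∈ IF F := by
  intro b
  rw [Module.End.mul_apply, h b, map_zero]

theorem IF_mul_X {F : Fn p} {r : Module.End (ZMod p) (Fn p)} (k : Fin 3)
    (h : r ∈ IF F) : r * Xop p k ∈ IF F := by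
  intro b
  have := h (k :: b)
  rw [List.map_cons, List.prod_cons] at this
  exact this

theorem IF_ad {F : Fn p} {r : Module.End (ZMod p) (Fn p)} (k : Fin 3)
    (h : r ∈ IF F) : Xop p k * r - r * Xop p k ∈ IF F :=
  Submodule.sub_mem _ (IF_mul_left _ h) (IF_mul_X k h)

/-- `E_ij` applied to a translate of `F` -/
theorem Eop_translate {F : Fn p} (i j : Fin 3) (hE : Eop p i j F = 0)
    (r : Module.End (ZMod p) (Fn p)) (hr : r ∈ IF F) (b : List (Fin 3)) :
    r (Eop p i j ((b.map (Xop p)).prod F)) = 0 := by
  induction b generalizing r with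
  | nil =>
    rw [List.map_nil, List.prod_nil, Module.End.one_apply, hE, map_zero]
  | cons k b ih =>
    rw [List.map_cons, List.prod_cons, Module.End.mul_apply]
    have h1 : Eop p i j (Xop p k ((b.map (Xop p)).prod F))
        = Xop p k (Eop p i j ((b.map (Xop p)).prod F))
          - (Dop p i j (Xop p k)) ((b.map (Xop p)).prod F) := by
      rw [Dop_apply, LinearMap.sub_apply, Module.End.mul_apply, Module.End.mul_apply]
      abel
    rw [h1, map_sub]
    have h2 := ih (r * Xop p k) (IF_mul_X k hr)
    rw [Module.End.mul_apply] at h2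
    rw [h2, zero_sub, neg_eq_zero, Dop_X]
    split_ifs
    · have h3 := IF_mul_X i hr b
      rw [Module.End.mul_apply] at h3
      exact h3
    · rw [LinearMap.zero_apply, map_zero]

theorem IF_D {F : Fn p} (i j : Fin 3) (hE : Eop p i j F = 0)
    {r : Module.End (ZMod p) (Fn p)} (h : r ∈ IF F) : Dop p i j r ∈ IF F := by
  intro b
  rw [Dop_apply, LinearMap.sub_apply, Module.End.mul_apply, Module.End.mul_apply, h b, map_zero,
    sub_zero]
  exact Eop_translate i j hE r h b

theorem IF_apply {F : Fn p} {r : Module.End (ZMod p) (Fn p)} (h : r ∈ IF F) : r F = 0 := by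
  have := h []
  rwa [List.map_nil, List.prod_nil, Module.End.one_apply] at this

/-- membership in `IF F` for a linear combination of words -/
theorem mem_IF_iff {F : Fn p} {r : Module.End (ZMod p) (Fn p)} :
    r ∈ IF F ↔ ∀ u b : List (Fin 3), r ((b.map (Xop p)).prod F) u = 0 := by
  constructor
  · intro h u b
    rw [h b]
    rfl
  · intro h b
    funext u
    exact h u b

end ops

end Pool.Agent.Work.MP_bde882_al.Red
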