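import Pool.Agent.Work.MP_bde882_al_h64.Deriv
import Pool.Agent.Work.MP_bde882_al_h64.OpsE
import Pool.Agent.Work.MP_bde882_al_h93.RedSym

/-!
Gradings: spans of words.
-/

set_option autoImplicit false

namespace Pool.Agent.Work.MP_bde882_al.Red

open Finset
open Pool.Agent.Work.MP_bde882_al.H93 (LieD)

section grade

variable {F R : Type*} [Field F] [Ring R] [Algebra F R] (X : Fin 3 → R)

variable (F) in
/-- the span of the words of a set -/
def spanW (S : Set (List (Fin 3))) : Submodule F R :=
  Submodule.span F ((fun w : List (Fin 3) => (w.map X).prod) '' S)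

variable {X}

theorem word_mem_spanW {S : Set (List (Fin 3))} {w : List (Fin 3)} (hw : w ∈ S) :
    (w.map X).prod ∈ spanW F X S := Submodule.subset_span ⟨w, hw, rfl⟩

theorem spanW_mono {S T : Set (List (Fin 3))} (h : S ⊆ T) : spanW F X S ≤ spanW F X T :=
  Submodule.span_mono (Set.image_mono h)

theorem spanW_mul {S T U : Set (List (Fin 3))} (h : ∀ s ∈ S, ∀ t ∈ T, s ++ t ∈ U) {x y : R}
    (hx : x ∈ spanW F X S) (hy : y ∈ spanW F X T) : x * y ∈ spanW F X U := by
  unfold spanW at hx hy
  induction hx using Submodule.span_induction with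
  | mem x hx =>
    obtain ⟨s, hs, rfl⟩ := hx
    induction hy using Submodule.span_induction with
    | mem y hy =>
      obtain ⟨t, ht, rfl⟩ := hy
      have : (s.map X).prod * (t.map X).prod = ((s ++ t).map X).prod := by
        rw [List.map_append, List.prod_append]
      simp only [this]
      exact word_mem_spanW (h s hs t ht)
    | zero => rw [mul_zero]; exact Submodule.zero_mem _
    | add y y' _ _ h1 h2 => rw [mul_add]; exact Submodule.add_mem _ h1 h2
    | smul c y _ h1 => rw [mul_smul_comm]; exact Submodule.smul_mem _ _ h1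
  | zero => rw [zero_mul]; exact Submodule.zero_mem _
  | add x x' _ _ h1 h2 => rw [add_mul]; exact Submodule.add_mem _ h1 h2
  | smul c x _ h1 => rw [smul_mul_assoc]; exact Submodule.smul_mem _ _ h1

/-- bracket with a letter -/
theorem spanW_bracket {S U : Set (List (Fin 3))} (k : Fin 3) (h1 : ∀ s ∈ S, k :: s ∈ U)
    (h2 : ∀ s ∈ S, s ++ [k] ∈ U) {x : R} (hx : x ∈ spanW F X S) :
    X k * x - x * X k ∈ spanW F X U := by
  have hk : X k ∈ spanW F X {[k]} := by
    have := word_mem_spanW (F := F) (X := X) (S := {[k]}) (w := [k]) rfl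
    simpa using this
  refine Submodule.sub_mem _ ?_ ?_
  · refine spanW_mul ?_ hk hx
    rintro s rfl t ht
    exact h1 t ht
  · refine spanW_mul ?_ hx hk
    rintro s hs t rfl
    exact h2 s hs

variable {M : Type*} [AddCommMonoid M] (Sg : M → Set (List (Fin 3)))

theorem prod_mem_spanW (h0 : [] ∈ Sg 0) (hS : ∀ a b, ∀ s ∈ Sg a, ∀ t ∈ Sg b, s ++ t ∈ Sg (a + b))
    {ns : List M} {zs : List R} (h : List.Forall₂ (fun n z => z ∈ spanW F X (Sg n)) ns zs) :
    zs.prod ∈ spanW F X (Sg ns.sum) := by
  induction h with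
  | nil =>
    have := word_mem_spanW (F := F) (X := X) h0
    simpa using this
  | cons h1 _ ih =>
    rw [List.prod_cons, List.sum_cons]
    exact spanW_mul (hS _ _) h1 ih

omit [Ring R] [Algebra F R] in
theorem csum_mem {W : Type*} [AddCommGroup W] [Module F W] (N : Submodule F W) (p : ℕ)
    (t : List R) (Φ : List R → W) (h : ∀ r, r.Perm t → Φ r ∈ N) : csum p t Φ ∈ N := by
  rw [← Submodule.Quotient.mk_eq_zero]
  have h1 := csum_hom (N.mkQ.toAddMonoidHom) p t Φ
  change N.mkQ (csum p t Φ) = csum p t (fun r => N.mkQ (Φ r)) at h1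
  change N.mkQ (csum p t Φ) = 0
  rw [h1]
  unfold csum
  refine sum_eq_zero ?_
  intro m _
  refine arr_eq_zero m t _ ?_
  intro r hr
  exact (Submodule.Quotient.mk_eq_zero N).2 (h r hr)

/-- the rearrangement sums are homogeneous -/
theorem Ph_mem_spanW (h0 : [] ∈ Sg 0)
    (hS : ∀ a b, ∀ s ∈ Sg a, ∀ t ∈ Sg b, s ++ t ∈ Sg (a + b)) (p : ℕ)
    {ns : List M} {zs : List R} (h : List.Forall₂ (fun n z => z ∈ spanW F X (Sg n)) ns zs) :
    Ph p zs ∈ spanW F X (Sg ns.sum) := by
  unfold Ph
  refine csum_mem _ p zs _ ?_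
  intro r hr
  have h1 : Relation.Comp (List.Forall₂ (fun n z => z ∈ spanW F X (Sg n))) List.Perm ns r :=
    ⟨zs, h, hr.symm⟩
  rw [List.forall₂_comp_perm_eq_perm_comp_forall₂] at h1
  obtain ⟨ns', h2, h3⟩ := h1
  rw [h2.sum_eq]
  exact prod_mem_spanW Sg h0 hS h3

/-- the Lie elements of degree `d` are in the span of the words in `Sg d`, if letters are in
`Sg 1` -/
theorem LieD_le_spanW (S : ℕ → Set (List (Fin 3))) (h1 : ∀ k, [k] ∈ S 1)
    (h2 : ∀ d, ∀ k, ∀ s ∈ S d, k :: s ∈ S (d + 1) ∧ s ++ [k] ∈ S (d + 1)) (d : ℕ) (hd : 1 ≤ d) :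
    LieD F X d ≤ spanW F X (S d) := by
  induction d, hd using Nat.le_induction with
  | base =>
    rw [H93.LieD_one, Submodule.span_le]
    rintro _ ⟨k, rfl⟩
    have := word_mem_spanW (F := F) (X := X) (h1 k)
    simpa using this
  | succ d hd ih =>
    rw [H93.LieD_succ X d hd, Submodule.span_le]
    rintro _ ⟨k, l, hl, rfl⟩
    exact spanW_bracket k (fun s hs => (h2 d k s hs).1) (fun s hs => (h2 d k s hs).2) (ih hl)

/-- words with at least `n` letters `i` -/
def cntGe (i : Fin 3) (n : ℕ) : Set (List (Fin 3)) := {w | n ≤ w.count i}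

/-- words of length `n` -/
def lenEq (n : ℕ) : Set (List (Fin 3)) := {w | w.length = n}

theorem cntGe_append (i : Fin 3) (a b : ℕ) (s : List (Fin 3)) (hs : s ∈ cntGe i a)
    (t : List (Fin 3)) (ht : t ∈ cntGe i b) : s ++ t ∈ cntGe i (a + b) := by
  change a + b ≤ (s ++ t).count i
  rw [List.count_append]
  exact Nat.add_le_add hs ht

theorem lenEq_append (a b : ℕ) (s : List (Fin 3)) (hs : s ∈ lenEq a)
    (t : List (Fin 3)) (ht : t ∈ lenEq b) : s ++ t ∈ lenEq (a + b) := by
  change (s ++ t).length = a + b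
  rw [List.length_append]
  exact congrArg₂ (· + ·) hs ht

theorem LieD_le_len (d : ℕ) (hd : 1 ≤ d) : LieD F X d ≤ spanW F X (lenEq d) := by
  refine LieD_le_spanW lenEq (fun k => rfl) ?_ d hd
  intro d k s hs
  have hs' : s.length = d := hs
  refine ⟨?_, ?_⟩
  · change (k :: s).length = d + 1
    rw [List.length_cons, hs']
  · change (s ++ [k]).length = d + 1
    rw [List.length_append, hs']
    rfl

theorem LieD_le_all (d : ℕ) (hd : 1 ≤ d) : LieD F X d ≤ spanW F X Set.univ :=
  (LieD_le_len d hd).trans (spanW_mono (Set.subset_univ _))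

/-- the operator `ad(X 2) ^ a (X 1)` -/
def adZY (X : Fin 3 → R) : ℕ → R
  | 0 => X 1
  | a + 1 => X 2 * adZY X a - adZY X a * X 2

/-- modulo words with a letter `0` and words with two letters `1`, the Lie elements of degree `d`
are the multiples of `ad(X 2) ^ (d - 1) (X 1)` -/
theorem LieD_le_adZY (d : ℕ) (hd : 2 ≤ d) :
    LieD F X d ≤ Submodule.span F {adZY X (d - 1)} ⊔ spanW F X (cntGe 0 1)
      ⊔ spanW F X (cntGe 1 2) := by
  -- stability of the two ideals
  have hI : ∀ (i : Fin 3) (n : ℕ) (k : Fin 3), ∀ x ∈ spanW F X (cntGe i n),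
      X k * x - x * X k ∈ spanW F X (cntGe i n) := by
    intro i n k x hx
    refine spanW_bracket k ?_ ?_ hx
    · intro s hs
      have hs' : n ≤ s.count i := hs
      change n ≤ (k :: s).count i
      rw [List.count_cons]
      omega
    · intro s hs
      have hs' : n ≤ s.count i := hs
      change n ≤ (s ++ [k]).count i
      rw [List.count_append]
      omega
  have hmul : ∀ a : ℕ, adZY X a ∈ spanW F X (cntGe 1 1) := by
    intro a
    induction a with
    | zero =>
      have := word_mem_spanW (F := F) (X := X) (S := cntGe 1 1) (w := [1]) (by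
        change 1 ≤ [1].count 1
        decide)
      simpa [adZY] using this
    | succ a ih => exact hI 1 1 2 _ ih
  have hall : ∀ a : ℕ, adZY X a ∈ spanW F X Set.univ := fun a => spanW_mono (Set.subset_univ _) (hmul a)
  have h0 : ∀ x ∈ spanW F X Set.univ, X 0 * x - x * X 0 ∈ spanW F X (cntGe 0 1) := by
    intro x hx
    refine spanW_bracket 0 ?_ ?_ hx
    · intro s _
      change 1 ≤ (0 :: s).count 0
      rw [List.count_cons_self]
      omega
    · intro s _
      change 1 ≤ (s ++ [0]).count 0
      rw [List.count_append]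
      simp
  have h1 : ∀ x ∈ spanW F X (cntGe 1 1), X 1 * x - x * X 1 ∈ spanW F X (cntGe 1 2) := by
    intro x hx
    refine spanW_bracket 1 ?_ ?_ hx
    · intro s hs
      have hs' : 1 ≤ s.count 1 := hs
      change 2 ≤ (1 :: s).count 1
      rw [List.count_cons_self]
      omega
    · intro s hs
      have hs' : 1 ≤ s.count 1 := hs
      change 2 ≤ (s ++ [1]).count 1
      rw [List.count_append, List.count_singleton_self]
      omega
  -- one more bracket
  have hA : ∀ a : ℕ, ∀ x ∈ Submodule.span F {adZY X a}, x ∈ Submodule.span F {adZY X a}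
      ⊔ spanW F X (cntGe 0 1) ⊔ spanW F X (cntGe 1 2) := fun a x hx =>
    Submodule.mem_sup_left (Submodule.mem_sup_left hx)
  have hB : ∀ a : ℕ, ∀ x ∈ spanW F X (cntGe 0 1), x ∈ Submodule.span F {adZY X a}
      ⊔ spanW F X (cntGe 0 1) ⊔ spanW F X (cntGe 1 2) := fun a x hx =>
    Submodule.mem_sup_left (Submodule.mem_sup_right hx)
  have hC : ∀ a : ℕ, ∀ x ∈ spanW F X (cntGe 1 2), x ∈ Submodule.span F {adZY X a}
      ⊔ spanW F X (cntGe 0 1) ⊔ spanW F X (cntGe 1 2) := fun a x hx =>
    Submodule.mem_sup_right hx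
  have step : ∀ a : ℕ, ∀ k : Fin 3, ∀ x ∈ Submodule.span F {adZY X a} ⊔ spanW F X (cntGe 0 1)
      ⊔ spanW F X (cntGe 1 2), X k * x - x * X k ∈ Submodule.span F {adZY X (a + 1)}
        ⊔ spanW F X (cntGe 0 1) ⊔ spanW F X (cntGe 1 2) := by
    intro a k x hx
    rw [Submodule.mem_sup] at hx
    obtain ⟨y, hy, x2, hx2, rfl⟩ := hx
    rw [Submodule.mem_sup] at hy
    obtain ⟨y0, hy0, x1, hx1, rfl⟩ := hy
    rw [Submodule.mem_span_singleton] at hy0
    obtain ⟨c, rfl⟩ := hy0
    have e : X k * (c • adZY X a + x1 + x2) - (c • adZY X a + x1 + x2) * X k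
        = c • (X k * adZY X a - adZY X a * X k) + (X k * x1 - x1 * X k)
          + (X k * x2 - x2 * X k) := by
      rw [mul_add, mul_add, add_mul, add_mul, mul_smul_comm, smul_mul_assoc, smul_sub]
      abel
    rw [e]
    refine Submodule.add_mem _ (Submodule.add_mem _ ?_ (hB _ _ (hI 0 1 k x1 hx1)))
      (hC _ _ (hI 1 2 k x2 hx2))
    refine Submodule.smul_mem _ _ ?_
    fin_cases k
    · exact hB _ _ (h0 _ (hall a))
    · exact hC _ _ (h1 _ (hmul a))
    · exact hA _ _ (Submodule.mem_span_singleton_self _)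
  induction d, hd using Nat.le_induction with
  | base =>
    rw [H93.LieD_succ X 1 (le_refl 1), Submodule.span_le]
    rintro _ ⟨k, l, hl, rfl⟩
    rw [H93.LieD_one] at hl
    induction hl using Submodule.span_induction with
    | mem x hx =>
      obtain ⟨j, rfl⟩ := hx
      have hXall : ∀ j, X j ∈ spanW F X Set.univ := by
        intro j
        have := word_mem_spanW (F := F) (X := X) (S := Set.univ) (w := [j]) (Set.mem_univ _)
        simpa using this
      have hY : X 1 ∈ spanW F X (cntGe 1 1) := by simpa [adZY] using hmul 0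
      have hanti : ∀ k j, X k * X j - X j * X k = -(X j * X k - X k * X j) := by
        intro k j
        abel
      fin_cases k
      · exact hB _ _ (h0 _ (hXall j))
      · fin_cases j
        · exact hB _ _ (by
            have := Submodule.neg_mem _ (h0 _ (hXall 1))
            rwa [← hanti] at this)
        · exact hC _ _ (h1 _ hY)
        · exact hA _ _ (by
            have := Submodule.neg_mem _ (Submodule.mem_span_singleton_self (R := F) (adZY X 1))
            have e : -(adZY X 1) = X 1 * X 2 - X 2 * X 1 := by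
              simp only [adZY]
              abel
            rwa [e] at this)
      · fin_cases j
        · exact hB _ _ (by
            have := Submodule.neg_mem _ (h0 _ (hXall 2))
            rwa [← hanti] at this)
        · exact hA _ _ (Submodule.mem_span_singleton_self _)
        · change X 2 * X 2 - X 2 * X 2 ∈ _
          rw [sub_self]
          exact Submodule.zero_mem _
    | zero => simp
    | add x y _ _ hx hy =>
      have e : X k * (x + y) - (x + y) * X k = (X k * x - x * X k) + (X k * y - y * X k) := by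
        noncomm_ring
      rw [e]
      exact Submodule.add_mem _ hx hy
    | smul c x _ hx =>
      have e : X k * (c • x) - (c • x) * X k = c • (X k * x - x * X k) := by
        rw [smul_mul_assoc, mul_smul_comm, smul_sub]
      rw [e]
      exact Submodule.smul_mem _ _ hx
  | succ d hd ih =>
    rw [H93.LieD_succ X d (by omega), Submodule.span_le]
    rintro _ ⟨k, l, hl, rfl⟩
    have := step (d - 1) k l (ih hl)
    rwa [show d - 1 + 1 = d + 1 - 1 by omega] at this

end grade

end Pool.Agent.Work.MP_bde882_al.Red
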