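import Mathlib

/-!
The sum of the homogeneous parts of the Lie ring generated by `X i` is closed under brackets.
-/

set_option autoImplicit false

namespace Pool.Agent.Work.MP_bde882_al.Red

section lie

variable {F R κ : Type*} [Field F] [Ring R] [Algebra F R] (X : κ → R) (LD : ℕ → Submodule F R)

/-- brackets of homogeneous parts -/
theorem lie_mem_of (h1 : LD 1 = Submodule.span F (Set.range X))
    (h2 : ∀ d, 1 ≤ d → ∀ i, ∀ l ∈ LD d, X i * l - l * X i ∈ LD (d + 1))
    (h3 : ∀ d, 1 ≤ d → LD (d + 1) ≤ Submodule.span F {x | ∃ i, ∃ l ∈ LD d, x = X i * l - l * X i})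
    (a b : ℕ) (ha : 1 ≤ a) (hb : 1 ≤ b) (x y : R) (hx : x ∈ LD a) (hy : y ∈ LD b) :
    x * y - y * x ∈ LD (a + b) := by
  induction a, ha using Nat.le_induction generalizing b x y with
  | base =>
    rw [h1] at hx
    induction hx using Submodule.span_induction with
    | mem x hx =>
      obtain ⟨i, rfl⟩ := hx
      rw [add_comm]
      exact h2 b hb i y hy
    | zero => simp
    | add x x' _ _ hx hx' =>
      have : (x + x') * y - y * (x + x') = (x * y - y * x) + (x' * y - y * x') := by noncomm_ring
      rw [this]
      exact Submodule.add_mem _ hx hx'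
    | smul c x _ hx =>
      have : (c • x) * y - y * (c • x) = c • (x * y - y * x) := by
        rw [smul_mul_assoc, mul_smul_comm, smul_sub]
      rw [this]
      exact Submodule.smul_mem _ _ hx
  | succ a ha ih =>
    have hx' := h3 a ha hx
    clear hx
    induction hx' using Submodule.span_induction with
    | mem x hx =>
      obtain ⟨i, l, hl, rfl⟩ := hx
      have e : (X i * l - l * X i) * y - y * (X i * l - l * X i)
          = (X i * (l * y - y * l) - (l * y - y * l) * X i)
            - (l * (X i * y - y * X i) - (X i * y - y * X i) * l) := by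
        simp only [mul_sub, sub_mul, mul_assoc]
        abel
      rw [e]
      refine Submodule.sub_mem _ ?_ ?_
      · have := h2 (a + b) (by omega) i _ (ih b hb l y hl hy)
        rwa [show a + 1 + b = a + b + 1 by omega]
      · have := ih (b + 1) (by omega) l (X i * y - y * X i) hl (h2 b hb i y hy)
        rwa [show a + 1 + b = a + (b + 1) by omega]
    | zero => simp
    | add x x' _ _ hx hx' =>
      have : (x + x') * y - y * (x + x') = (x * y - y * x) + (x' * y - y * x') := by noncomm_ring
      rw [this]
      exact Submodule.add_mem _ hx hx'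
    | smul c x _ hx =>
      have : (c • x) * y - y * (c • x) = c • (x * y - y * x) := by
        rw [smul_mul_assoc, mul_smul_comm, smul_sub]
      rw [this]
      exact Submodule.smul_mem _ _ hx

/-- the Lie ring generated by the `X i` -/
def lieSum : Submodule F R := ⨆ d : ℕ, LD (d + 1)

theorem mem_lieSum (d : ℕ) (hd : 1 ≤ d) {x : R} (hx : x ∈ LD d) : x ∈ lieSum LD := by
  obtain ⟨e, rfl⟩ : ∃ e, d = e + 1 := ⟨d - 1, by omega⟩
  exact Submodule.mem_iSup_of_mem e hx

theorem lieSum_closed (h1 : LD 1 = Submodule.span F (Set.range X))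
    (h2 : ∀ d, 1 ≤ d → ∀ i, ∀ l ∈ LD d, X i * l - l * X i ∈ LD (d + 1))
    (h3 : ∀ d, 1 ≤ d → LD (d + 1) ≤ Submodule.span F {x | ∃ i, ∃ l ∈ LD d, x = X i * l - l * X i})
    (x : R) (hx : x ∈ lieSum LD) (y : R) (hy : y ∈ lieSum LD) :
    x * y - y * x ∈ lieSum LD := by
  unfold lieSum at hx hy
  induction hx using Submodule.iSup_induction' with
  | mem d x hx =>
    induction hy using Submodule.iSup_induction' with
    | mem e y hy =>
      exact mem_lieSum LD (d + 1 + (e + 1)) (by omega)
        (lie_mem_of X LD h1 h2 h3 (d + 1) (e + 1) (by omega) (by omega) x y hx hy)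
    | zero => simp
    | add y y' _ _ hy hy' =>
      have : x * (y + y') - (y + y') * x = (x * y - y * x) + (x * y' - y' * x) := by noncomm_ring
      rw [this]
      exact Submodule.add_mem _ hy hy'
  | zero => simp
  | add x x' _ _ hx hx' =>
    have : (x + x') * y - y * (x + x') = (x * y - y * x) + (x' * y - y * x') := by noncomm_ring
    rw [this]
    exact Submodule.add_mem _ hx hx'

end lie

end Pool.Agent.Work.MP_bde882_al.Red
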