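import Pool.Agent.Work.MP_bde882_al_h64.PV
import Pool.Agent.Work.MP_bde882_al_red.Final
import Pool.Agent.Work.MP_bde882_al_h62.Prog

/-!
The leaf test of the big check: if `lt6` is true, the symmetrised product of the six operators kills
the basis vector, on the target block.
-/

set_option autoImplicit false

namespace Pool.Agent.Work.MP_bde882_al.DP

open Finset
open Pool.Agent.Work.MP_bde882_al.Red
open Pool.Agent.Work.MP_bde882_al.H93
open Pool.Agent.Work.MP_bde882_al.H69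
open Pool.Agent.Work.MP_bde882_al.H87
open Pool.Agent.Work.MP_bde882_al.Fin8

theorem selS_eq (F : Pg62.Op → List Pg62.Op → ℕ) (l : List Pg62.Op) : Pg62.selS F l = sel l F := by
  induction l generalizing F with
  | nil => rfl
  | cons a l ih =>
    rw [Pg62.selS_cons, ih]
    rfl

variable {Ix : Type} {wt : Ix → Fin 3 → ℕ} {sem : Ix → Module.End (ZMod 7) HV}
variable {RF : (Fin 3 → ℕ) → ℕ → HV → Prop} {RU : ℕ → (Fin 3 → ℕ) → ℕ → HV → Prop}
variable {tb : Ix → Pg62.Op} {wc : ℕ → List ℕ → ℕ → ℕ → ℕ}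

/-- **Soundness of `Pg62.pv`** for operators given by an index. -/
theorem pv62_sound
    (HS : Sound wt sem RF RU (fun p s y => Pg62.app wc 30 (tb p) s y) Pg62.fd)
    (hz : ∀ κ, RU 0 κ 0 0) (hsh : ∀ p, Pg62.shO (tb p) = cod (wt p))
    (κ0 : Fin 3 → ℕ) (a0 : HV) (y0 : ℕ) (h : RF κ0 y0 a0) (n : ℕ) (l : List Ix)
    (hl : l.length = n) (hn : n ≤ 6) (hv : ∀ x, κ0 x + cont wt l x ≤ 6) :
    RF (κ0 + cont wt l) (Pg62.pv wc (cod κ0) y0 n (l.map tb)) (syn sem a0 n l) := by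
  refine pv_sound HS hz κ0 a0 y0 h (fun n l => Pg62.pv wc (cod κ0) y0 n (l.map tb))
    (fun l => rfl) (fun n l => ?_) n l hl hn hv
  rw [Pg62.pv_succ, selS_eq, sel_map']
  congr 1
  refine congrArg _ ?_
  funext x t
  rw [List.map_map]
  have : (t.map (Pg62.shO ∘ tb)) = t.map (fun p => cod (wt p)) :=
    List.map_congr_left (fun p _ => hsh p)
  rw [this]

/-- **The leaf test.** -/
theorem leaf_sound (H : HM)
    (HS : Sound wt sem RF RU (fun p s y => Pg62.app wc 30 (tb p) s y) Pg62.fd)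
    (hz : ∀ κ, RU 0 κ 0 0) (hsh : ∀ p, Pg62.shO (tb p) = cod (wt p))
    (hzt : ∀ κ y a, RF κ y a → Pg62.zt y = true → ∀ k < DH H (cod κ), a (cod κ) k = 0)
    (κ0 : Fin 3 → ℕ) (a0 : HV) (y0 : ℕ) (h : RF κ0 y0 a0) (c : Fin 6 → Ix)
    (hv : ∀ x, κ0 x + cont wt (List.ofFn c) x ≤ 6)
    (hlt : Pg62.lt6 wc (cod κ0) y0 ((List.ofFn c).map tb) = true) :
    ∀ k < DH H (cod (κ0 + cont wt (List.ofFn c))),
      (Sy 6 (fun i => sem (c i)) a0) (cod (κ0 + cont wt (List.ofFn c))) k = 0 := by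
  have h1 := pv62_sound HS hz hsh κ0 a0 y0 h 6 (List.ofFn c) (by simp) le_rfl hv
  rw [syn_ofFn] at h1
  exact hzt _ _ _ h1 hlt

end Pool.Agent.Work.MP_bde882_al.DP
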