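import Pool.Agent.Work.MP_bde882_al_h64.Deriv
import Pool.Agent.Work.MP_bde882_al_h64.LieClosed

/-!
Reduction of the long rearrangement sums to the lists whose letter part is `0…0 1…1 2…2` with as
many `0` as possible, then as many `1` as possible.
-/

set_option autoImplicit false

namespace Pool.Agent.Work.MP_bde882_al.Red

open Finset

section long

variable {F R : Type*} [Field F] [Ring R] [Algebra F R]

/-- scalars come out of `Ph` -/
theorem Ph_smul_entry (p : ℕ) (l₁ l₂ : List R) (c : F) (x : R) :
    Ph p (l₁ ++ (c • x) :: l₂) = c • Ph p (l₁ ++ x :: l₂) := by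
  -- `csum` is linear in each entry because the products are
  have key : ∀ (m : ℕ) (t : List R) (Φ : List R → R),
      (∀ a b, Φ (a ++ (c • x) :: b) = c • Φ (a ++ x :: b)) →
      ∀ l₁ l₂ : List R, arr m (l₁ ++ (c • x) :: l₂) Φ = c • arr m (l₁ ++ x :: l₂) Φ := by
    intro m
    induction m with
    | zero =>
      intro t Φ hΦ l₁ l₂
      cases l₁ with
      | nil => simp [arr]
      | cons a l₁ => simp [arr]
    | succ m ih =>
      intro t Φ hΦ l₁ l₂
      simp only [arr]
      have split : ∀ (G : List R → List R → R),
          (∀ a b t', G (a ++ (c • x) :: b) t' = c • G (a ++ x :: b) t') →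
          (∀ s a b, G s (a ++ (c • x) :: b) = c • G s (a ++ x :: b)) →
          ∀ l₁ : List R, splitS (l₁ ++ (c • x) :: l₂) G = c • splitS (l₁ ++ x :: l₂) G := by
        intro G h1 h2 l₁
        induction l₁ generalizing G with
        | nil =>
          simp only [List.nil_append, splitS]
          rw [smul_add, ← splitS_smul, ← splitS_smul]
          congr 1
          · refine splitS_congr' _ _ _ ?_
            intro s t'
            exact h1 [] s t'
          · refine splitS_congr' _ _ _ ?_
            intro s t'
            exact h2 s [] t'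
        | cons a l₁ ih' =>
          simp only [List.cons_append, splitS]
          rw [smul_add, ih' (fun s t => G (a :: s) t) (fun a' b t' => h1 (a :: a') b t')
            (fun s a' b => h2 (a :: s) a' b), ih' (fun s t => G s (a :: t))
            (fun a' b t' => h1 a' b (a :: t')) (fun s a' b => h2 s (a :: a') b)]
      refine split _ ?_ ?_ l₁
      · intro a b t'
        have h3 : (fun r => Φ (a ++ (c • x) :: b ++ r)) = fun r => c • Φ (a ++ x :: b ++ r) := by
          funext r
          have := hΦ a (b ++ r)
          simpa using this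
        rw [h3, arr_smul]
      · intro s a b
        refine ih t _ ?_ a b
        intro a' b'
        have := hΦ (s ++ a') b'
        simpa using this
  unfold Ph csum
  rw [smul_sum]
  refine sum_congr rfl ?_
  intro m _
  refine key m [] _ ?_ l₁ l₂
  intro a b
  simp [List.prod_append]

variable (X : Fin 3 → R) (LD : ℕ → Submodule F R) (I : Submodule F R) (p : ℕ)

/-- homogeneous elements of the Lie ring -/
def Lset : Set R := {z | ∃ d, 1 ≤ d ∧ z ∈ LD d}

theorem derL_mem (δ : R → R) (l : List R) (Φ : List R → R)
    (h : ∀ a w b, l = a ++ w :: b → Φ (a ++ δ w :: b) ∈ I) : derL δ l Φ ∈ I := by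
  induction l generalizing Φ with
  | nil => exact I.zero_mem
  | cons w l ih =>
    simp only [derL]
    refine I.add_mem (h [] w l rfl) (ih (fun r => Φ (w :: r)) ?_)
    intro a w' b hb
    exact h (w :: a) w' b (by rw [hb]; rfl)

variable {X LD I p}

/-- symmetry modulo `I` -/
theorem Ph_perm_sub (hbr : ∀ x ∈ Lset LD, ∀ y ∈ Lset LD, x * y - y * x ∈ Lset LD) (m : ℕ)
    (H : ∀ zs : List R, (∀ z ∈ zs, z ∈ Lset LD) → zs.length + 1 = m → Ph p zs ∈ I)
    (l l' : List R) (h : l.Perm l') : ∀ pre : List R, (pre ++ l).length = m →
      (∀ z ∈ pre ++ l, z ∈ Lset LD) → Ph p (pre ++ l) - Ph p (pre ++ l') ∈ I := by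
  induction h with
  | nil => intro pre _ _; rw [sub_self]; exact I.zero_mem
  | cons x _ ih =>
    intro pre hlen hmem
    have := ih (pre ++ [x]) (by simpa using hlen) (by simpa using hmem)
    simpa using this
  | swap x y l =>
    intro pre hlen hmem
    rw [Ph_swap, add_sub_cancel_left]
    refine H _ ?_ ?_
    · intro z hz'
      rw [List.mem_append, List.mem_cons] at hz'
      rcases hz' with h1 | rfl | h1
      · exact hmem z (List.mem_append_left _ h1)
      · exact hbr _ (hmem y (by simp)) _ (hmem x (by simp))
      · exact hmem z (by simp [h1])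
    · rw [List.length_append, List.length_cons, List.length_cons] at hlen
      rw [List.length_append, List.length_cons]
      omega
  | trans h1 _ ih1 ih2 =>
    intro pre hlen hmem
    have h2 := ih1 pre hlen hmem
    have h3 := ih2 pre (by
      rw [← hlen, List.length_append, List.length_append, h1.length_eq]) (by
      intro z hz'
      rw [List.mem_append] at hz'
      rcases hz' with h3 | h3
      · exact hmem z (List.mem_append_left _ h3)
      · exact hmem z (List.mem_append_right _ (h1.mem_iff.2 h3)))
    have := I.add_mem h2 h3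
    rwa [sub_add_sub_cancel] at this

theorem Ph_perm_mem (hbr : ∀ x ∈ Lset LD, ∀ y ∈ Lset LD, x * y - y * x ∈ Lset LD) (m : ℕ)
    (H : ∀ zs : List R, (∀ z ∈ zs, z ∈ Lset LD) → zs.length + 1 = m → Ph p zs ∈ I)
    (l l' : List R) (h : l.Perm l') (hlen : l.length = m) (hmem : ∀ z ∈ l, z ∈ Lset LD)
    (h1 : Ph p l ∈ I) : Ph p l' ∈ I := by
  have h2 := Ph_perm_sub hbr m H l l' h [] (by simpa using hlen) (by simpa using hmem)
  rw [List.nil_append, List.nil_append] at h2
  have := I.sub_mem h1 h2
  rwa [sub_sub_cancel] at this

variable (X LD I p) in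
/-- the letter list `ls` followed by elements of degrees `es` -/
def PP (es : List ℕ) (ls : List (Fin 3)) : Prop :=
  ∀ ws : List R, List.Forall₂ (fun e w => w ∈ LD e) es ws → Ph p (ls.map X ++ ws) ∈ I

theorem mem_Lset_of_forall₂ {es : List ℕ} (hes : ∀ e ∈ es, 1 ≤ e) {ws : List R}
    (h : List.Forall₂ (fun e w => w ∈ LD e) es ws) : ∀ w ∈ ws, w ∈ Lset LD := by
  induction h with
  | nil => intro w hw; simp at hw
  | cons h1 _ ih =>
    intro w hw
    rw [List.mem_cons] at hw
    rcases hw with rfl | hw
    · exact ⟨_, hes _ (by simp), h1⟩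
    · exact ih (fun e he => hes e (by simp [he])) w hw

theorem forall₂_update {es : List ℕ} {ws : List R}
    (h : List.Forall₂ (fun e w => w ∈ LD e) es ws) (δ : R → R)
    (hδ : ∀ e ∈ es, ∀ z ∈ LD e, δ z ∈ LD e) (a : List R) (w : R) (b : List R)
    (hw : ws = a ++ w :: b) : List.Forall₂ (fun e w => w ∈ LD e) es (a ++ δ w :: b) := by
  induction h generalizing a with
  | nil => simp at hw
  | @cons e w' es ws h1 h2 ih =>
    cases a with
    | nil =>
      rw [List.nil_append, List.cons.injEq] at hw
      obtain ⟨rfl, rfl⟩ := hw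
      exact List.Forall₂.cons (hδ e (by simp) _ h1) h2
    | cons c a =>
      rw [List.cons_append, List.cons.injEq] at hw
      obtain ⟨rfl, hw⟩ := hw
      exact List.Forall₂.cons h1 (ih (fun e he => hδ e (by simp [he])) a hw)

/-- **Moving one letter.** -/
theorem PP_step (hX : ∀ i, X i ∈ Lset LD)
    (hbr : ∀ x ∈ Lset LD, ∀ y ∈ Lset LD, x * y - y * x ∈ Lset LD) (m : ℕ)
    (H : ∀ zs : List R, (∀ z ∈ zs, z ∈ Lset LD) → zs.length + 1 = m → Ph p zs ∈ I)
    (δ : R →+ R) (hδ : ∀ a b, δ (a * b) = δ a * b + a * δ b) (hδI : ∀ r ∈ I, δ r ∈ I)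
    (i j : Fin 3) (hδX : ∀ k, δ (X k) = if k = i then X j else 0)
    (es : List ℕ) (hes : ∀ e ∈ es, 1 ≤ e) (hδL : ∀ e ∈ es, ∀ z ∈ LD e, δ z ∈ LD e)
    (ls : List (Fin 3)) (hlen : ls.length + 1 + es.length = m)
    (hc : ((((i :: ls).count i : ℕ)) : F) ≠ 0) (h : PP X LD I p es (i :: ls)) :
    PP X LD I p es (j :: ls) := by
  intro ws hws
  set T := Ph p ((j :: ls).map X ++ ws) with hT
  have hlw : ws.length = es.length := hws.length_eq.symm
  have hmemw := mem_Lset_of_forall₂ hes hws
  -- the derivative
  have h1 : δ (Ph p ((i :: ls).map X ++ ws)) ∈ I := hδI _ (h ws hws)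
  rw [der_Ph δ hδ, derL_append] at h1
  have h2 : derL δ ws (fun r => Ph p ((i :: ls).map X ++ r)) ∈ I := by
    refine derL_mem I δ ws _ ?_
    intro a w b hw
    exact h _ (forall₂_update hws δ hδL a w b hw)
  have h3 : derL δ ((i :: ls).map X) (fun r => Ph p (r ++ ws)) ∈ I := by
    have := I.sub_mem h1 h2
    rwa [add_sub_cancel_right] at this
  -- the letter part
  have key : ∀ (ks pre : List (Fin 3)), (pre ++ ks).Perm (i :: ls) →
      derL δ (ks.map X) (fun r => Ph p (pre.map X ++ r ++ ws)) - (ks.count i) • T ∈ I := by
    intro ks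
    induction ks with
    | nil =>
      intro pre _
      simp [derL]
    | cons k ks ih =>
      intro pre hpre
      simp only [List.map_cons, derL]
      have h4 := ih (pre ++ [k]) (by simpa using hpre)
      have h5 : (fun r => Ph p ((pre ++ [k]).map X ++ r ++ ws))
          = fun r => Ph p (pre.map X ++ X k :: r ++ ws) := by
        funext r
        simp
      rw [h5] at h4
      by_cases hk : k = i
      · subst hk
        rw [List.count_cons_self, succ_nsmul', hδX, if_pos rfl]
        have h6 : (pre ++ ks).Perm ls := by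
          have := (List.perm_middle (a := k) (l₁ := pre) (l₂ := ks)).symm.trans hpre
          exact this.cons_inv
        have h7 : (pre.map X ++ X j :: ks.map X ++ ws).Perm ((j :: ls).map X ++ ws) := by
          refine List.Perm.append_right ws ?_
          have e : pre.map X ++ X j :: ks.map X = (pre ++ j :: ks).map X := by simp
          rw [e]
          refine List.Perm.map _ ?_
          exact List.perm_middle.trans (h6.cons j)
        have h8 := Ph_perm_sub hbr m H _ _ h7 [] (by
          rw [List.nil_append, h7.length_eq]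
          simp only [List.map_cons, List.cons_append, List.length_cons, List.length_append,
            List.length_map]
          omega) (by
          intro z hz
          rw [List.nil_append] at hz
          have hz' := h7.mem_iff.1 hz
          rw [List.mem_append] at hz'
          rcases hz' with hz' | hz'
          · obtain ⟨q, _, rfl⟩ := List.mem_map.1 hz'
            exact hX q
          · exact hmemw z hz')
        rw [List.nil_append, List.nil_append] at h8
        have := I.add_mem h8 h4
        convert this using 1
        simp only [hT]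
        abel
      · rw [List.count_cons_of_ne (fun h' => hk h'), hδX, if_neg hk]
        have h9 : Ph p (pre.map X ++ (0 : R) :: ks.map X ++ ws) = 0 := by
          have := map_zero (PhHom p (pre.map X) (ks.map X ++ ws))
          rw [PhHom_apply] at this
          simpa using this
        rw [h9, zero_add]
        exact h4
  have h10 := key (i :: ls) [] (List.Perm.refl _)
  simp only [List.map_nil, List.nil_append] at h10
  have h11 := I.sub_mem h3 h10
  rw [sub_sub_cancel] at h11
  rw [← Nat.cast_smul_eq_nsmul F] at h11
  have h12 := I.smul_mem ((((i :: ls).count i : ℕ) : F)⁻¹) h11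
  rwa [smul_smul, inv_mul_cancel₀ hc, one_smul] at h12

theorem PP_perm (hX : ∀ i, X i ∈ Lset LD)
    (hbr : ∀ x ∈ Lset LD, ∀ y ∈ Lset LD, x * y - y * x ∈ Lset LD) (m : ℕ)
    (H : ∀ zs : List R, (∀ z ∈ zs, z ∈ Lset LD) → zs.length + 1 = m → Ph p zs ∈ I)
    (es : List ℕ) (hes : ∀ e ∈ es, 1 ≤ e) (ls ls' : List (Fin 3)) (hp : ls.Perm ls')
    (hlen : ls.length + es.length = m) (h : PP X LD I p es ls) : PP X LD I p es ls' := by
  intro ws hws
  refine Ph_perm_mem hbr m H (ls.map X ++ ws) (ls'.map X ++ ws)
    (List.Perm.append_right ws (hp.map X)) ?_ ?_ (h ws hws)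
  · rw [List.length_append, List.length_map, ← hws.length_eq, hlen]
  · intro z hz
    rw [List.mem_append] at hz
    rcases hz with hz | hz
    · obtain ⟨q, _, rfl⟩ := List.mem_map.1 hz
      exact hX q
    · exact mem_Lset_of_forall₂ hes hws z hz

/-- the letter list with as many `0`, then as many `1` as possible -/
def topL (q k : ℕ) : List (Fin 3) :=
  List.replicate (min k q) 0 ++ (List.replicate (min (k - q) q) 1 ++ List.replicate (k - q - q) 2)

theorem length3 (l : List (Fin 3)) : l.length = l.count 0 + l.count 1 + l.count 2 := by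
  induction l with
  | nil => rfl
  | cons a l ih =>
    rw [List.length_cons, ih]
    fin_cases a <;> simp <;> omega

theorem perm_topL (q k : ℕ) (ls : List (Fin 3)) (hlen : ls.length = k)
    (hq : ∀ i, ls.count i ≤ q) (h01 : ls.count 1 ≠ 0 → ls.count 0 = q)
    (h02 : ls.count 2 ≠ 0 → ls.count 0 = q) (h12 : ls.count 2 ≠ 0 → ls.count 1 = q) :
    ls.Perm (topL q k) := by
  rw [List.perm_iff_count]
  have hl := length3 ls
  have h0 := hq 0
  have h1 := hq 1
  have h2 := hq 2
  intro i
  unfold topL
  fin_cases i
  · simp [List.count_replicate]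
    omega
  · simp [List.count_replicate]
    omega
  · simp [List.count_replicate]
    omega

/-- weight of a letter list -/
def lwt (ls : List (Fin 3)) : ℕ := (ls.map Fin.val).sum

theorem lwt_perm {ls ls' : List (Fin 3)} (h : ls.Perm ls') : lwt ls = lwt ls' :=
  (h.map _).sum_eq

/-- **All letter lists from the top one.** -/
theorem PP_all (hX : ∀ i, X i ∈ Lset LD)
    (hbr : ∀ x ∈ Lset LD, ∀ y ∈ Lset LD, x * y - y * x ∈ Lset LD) (m : ℕ)
    (H : ∀ zs : List R, (∀ z ∈ zs, z ∈ Lset LD) → zs.length + 1 = m → Ph p zs ∈ I)
    (q : ℕ) (hq : ∀ a : ℕ, 1 ≤ a → a ≤ q → (a : F) ≠ 0)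
    (δ : Fin 3 → Fin 3 → (R →+ R)) (hδ : ∀ i j a b, δ i j (a * b) = δ i j a * b + a * δ i j b)
    (hδI : ∀ i j, i ≠ j → ∀ r ∈ I, δ i j r ∈ I)
    (hδX : ∀ i j k, δ i j (X k) = if k = j then X i else 0)
    (es : List ℕ) (hes : ∀ e ∈ es, 1 ≤ e) (hδL : ∀ i j, ∀ e ∈ es, ∀ z ∈ LD e, δ i j z ∈ LD e)
    (hcnt : ∀ ls : List (Fin 3), (∃ i, q < ls.count i) → PP X LD I p es ls)
    (htop : ∀ k, k + es.length = m → PP X LD I p es (topL q k))
    (ls : List (Fin 3)) (hlen : ls.length + es.length = m) : PP X LD I p es ls := by
  induction hn : lwt ls using Nat.strong_induction_on generalizing ls with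
  | _ n ih =>
    by_cases hbig : ∃ i, q < ls.count i
    · exact hcnt ls hbig
    · push Not at hbig
      -- one raising move
      have move : ∀ i j : Fin 3, i < j → j ∈ ls → ls.count i < q → PP X LD I p es ls := by
        intro i j hij hj hi
        have hperm := List.perm_cons_erase hj
        have hne : i ≠ j := hij.ne
        have hl : (ls.erase j).length + 1 = ls.length := by
          rw [hperm.length_eq, List.length_cons]
        refine PP_perm hX hbr m H es hes (j :: ls.erase j) ls hperm.symm
          (by rw [← hperm.length_eq]; exact hlen) ?_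
        refine PP_step hX hbr m H (δ j i) (hδ j i) (hδI j i hne.symm) i j (hδX j i) es hes
          (hδL j i) (ls.erase j) (by omega) ?_ ?_
        · rw [List.count_cons_self, List.count_erase_of_ne hne]
          exact hq _ (by omega) (by omega)
        · refine ih (lwt (i :: ls.erase j)) ?_ _ ?_ rfl
          · have h1 := lwt_perm hperm
            have h2 : (i : ℕ) < (j : ℕ) := hij
            unfold lwt at h1 hn ⊢
            rw [List.map_cons, List.sum_cons] at h1 ⊢
            omega
          · rw [List.length_cons]
            omega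
      by_cases h01 : ls.count 1 ≠ 0 → ls.count 0 = q
      · by_cases h02 : ls.count 2 ≠ 0 → ls.count 0 = q
        · by_cases h12 : ls.count 2 ≠ 0 → ls.count 1 = q
          · have hperm := perm_topL q ls.length ls rfl hbig h01 h02 h12
            exact PP_perm hX hbr m H es hes _ _ hperm.symm
              (by rw [← hperm.length_eq]; exact hlen) (htop ls.length hlen)
          · push Not at h12
            exact move 1 2 (by decide) (List.count_pos_iff.1 (by omega))
              (lt_of_le_of_ne (hbig 1) h12.2)
        · push Not at h02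
          exact move 0 2 (by decide) (List.count_pos_iff.1 (by omega))
            (lt_of_le_of_ne (hbig 0) h02.2)
      · push Not at h01
        exact move 0 1 (by decide) (List.count_pos_iff.1 (by omega))
          (lt_of_le_of_ne (hbig 0) h01.2)

end long

end Pool.Agent.Work.MP_bde882_al.Red
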