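import Pool.Agent.Work.MP_bde882_al_h64.Long

/-!
All long rearrangement sums from the base family.
-/

set_option autoImplicit false

namespace Pool.Agent.Work.MP_bde882_al.Red

open Finset

section long2

variable {F R : Type*} [Field F] [Ring R] [Algebra F R]
variable {X : Fin 3 → R} {LD : ℕ → Submodule F R} {I : Submodule F R} {p : ℕ}

/-- expansion of the last entries in a spanning family -/
theorem Ph_expand {ι : Type*} (b : ι → R) (deg : ι → ℕ) (es : List ℕ) (ws : List R)
    (hws : List.Forall₂ (fun e w => w ∈ Submodule.span F (b '' {i | deg i = e})) es ws) :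
    ∀ pre : List R, (∀ l : List ι, l.map deg = es → Ph p (pre ++ l.map b) ∈ I) →
      Ph p (pre ++ ws) ∈ I := by
  induction hws with
  | nil =>
    intro pre h
    exact h [] rfl
  | @cons e w es ws h1 _ ih =>
    intro pre h
    induction h1 using Submodule.span_induction with
    | mem x hx =>
      obtain ⟨i, hi, rfl⟩ := hx
      have := ih (pre ++ [b i]) (by
        intro l hl
        have := h (i :: l) (by rw [List.map_cons, hl]; exact congrArg (· :: es) hi)
        simpa using this)
      simpa using this
    | zero =>
      have := map_zero (PhHom p pre ws)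
      rw [PhHom_apply] at this
      rw [this]
      exact I.zero_mem
    | add x y _ _ hx hy =>
      have := map_add (PhHom p pre ws) x y
      rw [PhHom_apply, PhHom_apply, PhHom_apply] at this
      rw [this]
      exact I.add_mem hx hy
    | smul c x _ hx =>
      rw [Ph_smul_entry]
      exact I.smul_mem _ hx

/-- expansion of the first entries in letters -/
theorem Ph_letters (hX1 : LD 1 ≤ Submodule.span F (Set.range X)) (es : List ℕ) (ws : List R) :
    ∀ (vs : List R), (∀ v ∈ vs, v ∈ LD 1) → ∀ pre : List (Fin 3),
      (∀ ls : List (Fin 3), ls.length = vs.length → Ph p ((pre ++ ls).map X ++ ws) ∈ I) →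
      Ph p (pre.map X ++ vs ++ ws) ∈ I := by
  intro vs
  induction vs with
  | nil =>
    intro _ pre h
    have := h [] rfl
    simpa using this
  | cons v vs ih =>
    intro hv pre h
    have h1 := hX1 (hv v (by simp))
    have hv' : ∀ v ∈ vs, v ∈ LD 1 := fun v hv'' => hv v (by simp [hv''])
    clear hv
    induction h1 using Submodule.span_induction with
    | mem x hx =>
      obtain ⟨i, rfl⟩ := hx
      have := ih hv' (pre ++ [i]) (by
        intro ls hls
        have := h (i :: ls) (by simp [hls])
        simpa using this)
      simpa using this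
    | zero =>
      have := map_zero (PhHom p (pre.map X) (vs ++ ws))
      rw [PhHom_apply] at this
      have e : pre.map X ++ (0 : R) :: vs ++ ws = pre.map X ++ (0 : R) :: (vs ++ ws) := by simp
      rw [e, this]
      exact I.zero_mem
    | add x y _ _ hx hy =>
      have := map_add (PhHom p (pre.map X) (vs ++ ws)) x y
      rw [PhHom_apply, PhHom_apply, PhHom_apply] at this
      have e : ∀ z : R, pre.map X ++ z :: vs ++ ws = pre.map X ++ z :: (vs ++ ws) := by simp
      rw [e] at hx hy ⊢
      rw [this]
      exact I.add_mem (hx h) (hy h)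
    | smul c x _ hx =>
      have e : ∀ z : R, pre.map X ++ z :: vs ++ ws = pre.map X ++ z :: (vs ++ ws) := by simp
      rw [e] at hx ⊢
      rw [Ph_smul_entry]
      exact I.smul_mem _ (hx h)

/-- every list of homogeneous elements is a permutation of degree one elements followed by elements
of degree at least two -/
theorem split_list (zs : List R) (h : ∀ z ∈ zs, z ∈ Lset LD) :
    ∃ (vs : List R) (es : List ℕ) (ws : List R), zs.Perm (vs ++ ws) ∧ (∀ v ∈ vs, v ∈ LD 1) ∧
      (∀ e ∈ es, 2 ≤ e) ∧ List.Forall₂ (fun e w => w ∈ LD e) es ws := by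
  induction zs with
  | nil => exact ⟨[], [], [], List.Perm.refl _, by simp, by simp, List.Forall₂.nil⟩
  | cons z zs ih =>
    obtain ⟨vs, es, ws, h1, h2, h3, h4⟩ := ih (fun z' hz' => h z' (by simp [hz']))
    obtain ⟨d, hd, hz⟩ := h z (by simp)
    by_cases hd1 : d = 1
    · subst hd1
      refine ⟨z :: vs, es, ws, by simpa using h1.cons z, ?_, h3, h4⟩
      intro v hv
      rw [List.mem_cons] at hv
      rcases hv with rfl | hv
      · exact hz
      · exact h2 v hv
    · refine ⟨vs, d :: es, z :: ws, ?_, h2, ?_, List.Forall₂.cons hz h4⟩
      · exact (h1.cons z).trans List.perm_middle.symm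
      · intro e he
        rw [List.mem_cons] at he
        rcases he with rfl | he
        · omega
        · exact h3 e he

theorem sum_ge_two (es : List ℕ) (h : ∀ e ∈ es, 2 ≤ e) (e : ℕ) (he : e ∈ es) :
    e + 2 * es.length ≤ es.sum + 2 := by
  induction es with
  | nil => simp at he
  | cons a es ih =>
    have h2 : 2 * es.length ≤ es.sum := by
      clear ih he
      induction es with
      | nil => simp
      | cons c es ih2 =>
        rw [List.sum_cons, List.length_cons]
        have := ih2 (fun e he => h e (by
          rw [List.mem_cons] at he ⊢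
          rcases he with he | he
          · exact Or.inl he
          · exact Or.inr (by simp [he])))
        have := h c (by simp)
        omega
    rw [List.mem_cons] at he
    rw [List.sum_cons, List.length_cons]
    rcases he with rfl | he
    · omega
    · have := ih (fun e he => h e (by simp [he])) he
      have := h a (by simp)
      omega

/-- **Long lists of homogeneous elements.** -/
theorem long_mem {ι : Type*} [LinearOrder ι] (b : ι → R) (deg : ι → ℕ)
    (hb : ∀ i, b i ∈ LD (deg i)) (q : ℕ) (hq : ∀ a : ℕ, 1 ≤ a → a ≤ q → (a : F) ≠ 0)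
    (hXm : ∀ i, X i ∈ LD 1) (hX1 : LD 1 ≤ Submodule.span F (Set.range X))
    (hbr : ∀ x ∈ Lset LD, ∀ y ∈ Lset LD, x * y - y * x ∈ Lset LD)
    (hspan : ∀ d, 2 ≤ d → d ≤ q + 1 → LD d ≤ Submodule.span F (b '' {i | deg i = d}))
    (δ : Fin 3 → Fin 3 → (R →+ R)) (hδ : ∀ i j a b, δ i j (a * b) = δ i j a * b + a * δ i j b)
    (hδI : ∀ i j, i ≠ j → ∀ r ∈ I, δ i j r ∈ I)
    (hδX : ∀ i j k, δ i j (X k) = if k = j then X i else 0)
    (hδL : ∀ i j, ∀ e, 1 ≤ e → ∀ z ∈ LD e, δ i j z ∈ LD e)
    (hbig : ∀ (k : ℕ) (vs : List R) (es : List ℕ) (ws : List R), (∀ v ∈ vs, v ∈ LD 1) →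
      List.Forall₂ (fun e w => w ∈ LD e) es ws → vs.length = k → 3 * q < k + es.sum →
      Ph p (vs ++ ws) ∈ I)
    (hcnt : ∀ (es : List ℕ) (ls : List (Fin 3)), (∃ i, q < ls.count i) → PP X LD I p es ls)
    (hshort : ∀ zs : List R, (∀ z ∈ zs, z ∈ Lset LD) → zs.length < 2 * q → Ph p zs ∈ I)
    (hbase : ∀ (k : ℕ) (l : List ι), 2 * q ≤ k + l.length → k + l.length < 3 * q →
      k + (l.map deg).sum ≤ 3 * q → (∀ i ∈ l, 2 ≤ deg i) → l.Pairwise (· ≤ ·) →
      Ph p ((topL q k).map X ++ l.map b) ∈ I) :
    ∀ zs : List R, (∀ z ∈ zs, z ∈ Lset LD) → zs.length < 3 * q → Ph p zs ∈ I := by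
  intro zs
  induction hn : zs.length using Nat.strong_induction_on generalizing zs with
  | _ m ih =>
    intro hzs hm
    by_cases hlow : m < 2 * q
    · exact hshort zs hzs (by omega)
    rw [not_lt] at hlow
    by_cases hm0 : m = 0
    · exact hshort zs hzs (by omega)
    have H : ∀ zs : List R, (∀ z ∈ zs, z ∈ Lset LD) → zs.length + 1 = m → Ph p zs ∈ I := by
      intro zs' h1 h2
      exact ih zs'.length (by omega) zs' rfl h1 (by omega)
    have hXL : ∀ i, X i ∈ Lset LD := fun i => ⟨1, le_refl 1, hXm i⟩
    obtain ⟨vs, es, ws, h1, h2, h3, h4⟩ := split_list zs hzs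
    have hlw : ws.length = es.length := h4.length_eq.symm
    have hlen : vs.length + es.length = m := by
      rw [← hn, h1.length_eq, List.length_append, hlw]
    have hes1 : ∀ e ∈ es, 1 ≤ e := fun e he => by have := h3 e he; omega
    have hmem : ∀ z ∈ vs ++ ws, z ∈ Lset LD := fun z hz => hzs z (h1.mem_iff.2 hz)
    refine Ph_perm_mem hbr m H (vs ++ ws) zs h1.symm
      (by rw [List.length_append, hlw, hlen]) hmem ?_
    by_cases hsum : 3 * q < vs.length + es.sum
    · exact hbig vs.length vs es ws h2 h4 rfl hsum
    rw [not_lt] at hsum
    have hle : ∀ e ∈ es, e ≤ q + 1 := by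
      intro e he
      have := sum_ge_two es h3 e he
      have h5 : 1 ≤ es.length := List.length_pos_of_mem he
      have h6 : es.length ≤ es.sum := by
        have : ∀ es : List ℕ, (∀ e ∈ es, 1 ≤ e) → es.length ≤ es.sum := by
          intro es
          induction es with
          | nil => intro _; simp
          | cons a es ih2 =>
            intro h
            rw [List.length_cons, List.sum_cons]
            have := ih2 (fun e he => h e (by simp [he]))
            have := h a (by simp)
            omega
        exact this es hes1
      omega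
    have hall : ∀ ls : List (Fin 3), ls.length + es.length = m → PP X LD I p es ls := by
      refine PP_all hXL hbr m H q hq δ hδ hδI hδX es hes1
        (fun i j e he z hz => hδL i j e (hes1 e he) z hz) (hcnt es) ?_
      intro k hk ws' hws'
      refine Ph_expand b deg es ws' ?_ ((topL q k).map X) ?_
      · -- the spanning property
        have : ∀ (es' : List ℕ) (ws' : List R), (∀ e ∈ es', 2 ≤ e) → (∀ e ∈ es', e ≤ q + 1) →
            List.Forall₂ (fun e w => w ∈ LD e) es' ws' →
            List.Forall₂ (fun e w => w ∈ Submodule.span F (b '' {i | deg i = e})) es' ws' := by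
          intro es' ws' ha hb' hc
          induction hc with
          | nil => exact List.Forall₂.nil
          | @cons e w es'' ws'' h5 _ ih2 =>
            refine List.Forall₂.cons (hspan e (ha e (by simp)) (hb' e (by simp)) h5) ?_
            exact ih2 (fun e he => ha e (by simp [he])) (fun e he => hb' e (by simp [he]))
        exact this es ws' h3 hle hws'
      · intro l hl
        have hll : l.length = es.length := by rw [← hl, List.length_map]
        have htl : (topL q k).length ≤ k := by
          unfold topL
          simp only [List.length_append, List.length_replicate]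
          omega
        have htl' : (topL q k).length = k := by
          unfold topL
          simp only [List.length_append, List.length_replicate]
          omega
        have hdeg : ∀ i ∈ l, 2 ≤ deg i := by
          intro i hi
          exact h3 _ (by rw [← hl]; exact List.mem_map_of_mem hi)
        have hs := List.perm_insertionSort (· ≤ ·) l
        have hsum' : (l.map deg).sum = es.sum := by rw [hl]
        have hk' : k = vs.length := by omega
        refine Ph_perm_mem hbr m H ((topL q k).map X ++ (l.insertionSort (· ≤ ·)).map b) _
          (List.Perm.append_left _ (hs.map b)) ?_ ?_ ?_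
        · rw [List.length_append, List.length_map, List.length_map, hs.length_eq, htl', hll, hk]
        · intro z hz
          rw [List.mem_append] at hz
          rcases hz with hz | hz
          · obtain ⟨i, _, rfl⟩ := List.mem_map.1 hz
            exact hXL i
          · obtain ⟨i, hi, rfl⟩ := List.mem_map.1 hz
            exact ⟨deg i, by have := hdeg i (hs.mem_iff.1 hi); omega, hb i⟩
        · refine hbase k _ ?_ ?_ ?_ ?_ (List.pairwise_insertionSort _ l)
          · rw [hs.length_eq]
            omega
          · rw [hs.length_eq]
            omega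
          · rw [(hs.map deg).sum_eq, hsum']
            omega
          · intro i hi
            exact hdeg i (hs.mem_iff.1 hi)
    have := Ph_letters (I := I) (p := p) hX1 es ws vs h2 [] (by
      intro ls hls
      rw [List.nil_append]
      exact hall ls (by omega) ws h4)
    simpa using this

/-- from homogeneous elements to all elements of the Lie ring -/
theorem mem_of_homog (m : ℕ)
    (h : ∀ zs : List R, (∀ z ∈ zs, z ∈ Lset LD) → zs.length = m → Ph p zs ∈ I) :
    ∀ (l₂ l₁ : List R), (∀ z ∈ l₁, z ∈ Lset LD) → (∀ z ∈ l₂, z ∈ lieSum LD) →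
      (l₁ ++ l₂).length = m → Ph p (l₁ ++ l₂) ∈ I := by
  intro l₂
  induction l₂ with
  | nil =>
    intro l₁ h1 _ h3
    exact h _ (by simpa using h1) h3
  | cons z l₂ ih =>
    intro l₁ h1 h2 h3
    have hz : z ∈ ⨆ d : ℕ, LD (d + 1) := h2 z (by simp)
    have h2' : ∀ z ∈ l₂, z ∈ lieSum LD := fun z hz => h2 z (by simp [hz])
    have h3' : ∀ w : R, (l₁ ++ [w] ++ l₂).length = m := by
      intro w
      simpa using h3
    clear h2 h3
    induction hz using Submodule.iSup_induction' with
    | mem d x hx =>
      have := ih (l₁ ++ [x]) (by
        intro z hz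
        rw [List.mem_append, List.mem_singleton] at hz
        rcases hz with hz | rfl
        · exact h1 z hz
        · exact ⟨d + 1, by omega, hx⟩) h2' (h3' x)
      simpa using this
    | zero =>
      have := map_zero (PhHom p l₁ l₂)
      rw [PhHom_apply] at this
      rw [this]
      exact I.zero_mem
    | add x y _ _ hx hy =>
      have := map_add (PhHom p l₁ l₂) x y
      rw [PhHom_apply, PhHom_apply, PhHom_apply] at this
      rw [this]
      exact I.add_mem hx hy

end long2

end Pool.Agent.Work.MP_bde882_al.Red
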