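import Pool.Agent.Work.MP_bde882_al_h64.Long2
import Pool.Agent.Work.MP_bde882_al_h64.Grade

/-!
The long rearrangement sums for functions on words: only the lists
`0^q 1^(q-r) [2^{a₁} 1] … [2^{a_r} 1]` and `0^q 1^q 2^s` have to be checked.
-/

set_option autoImplicit false

namespace Pool.Agent.Work.MP_bde882_al.Red

open Finset
open Pool.Agent.Work.MP_bde882_al.H93 (LieD)

section inst

variable {p : ℕ} [Fact p.Prime]

/-- span of words inside `IF F` -/
theorem spanW_le_IF {F : Fn p} (S : Set (List (Fin 3)))
    (h : ∀ w ∈ S, ∀ u b : List (Fin 3), F (u ++ w ++ b) = 0) :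
    spanW (ZMod p) (Xop p) S ≤ IF F := by
  unfold spanW
  rw [Submodule.span_le]
  rintro _ ⟨w, hw, rfl⟩
  rw [SetLike.mem_coe, mem_IF_iff]
  intro u b
  simp only [Xop_prod]
  exact h w hw u b

theorem cntGe_le_IF {F : Fn p} (hcont : ∀ v : List (Fin 3), (¬ ∀ i, v.count i = p - 1) → F v = 0)
    (i : Fin 3) (n : ℕ) (hn : p - 1 < n) : spanW (ZMod p) (Xop p) (cntGe i n) ≤ IF F := by
  refine spanW_le_IF _ ?_
  intro w hw u b
  apply hcont
  intro h
  have h1 := h i
  have h2 : n ≤ w.count i := hw
  rw [List.count_append, List.count_append] at h1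
  omega

theorem lenEq_le_IF {F : Fn p} (hcont : ∀ v : List (Fin 3), (¬ ∀ i, v.count i = p - 1) → F v = 0)
    (n : ℕ) (hn : 3 * (p - 1) < n) : spanW (ZMod p) (Xop p) (lenEq n) ≤ IF F := by
  refine spanW_le_IF _ ?_
  intro w hw u b
  apply hcont
  intro h
  have h1 := length_eq_counts (u ++ w ++ b)
  rw [h, h, h, List.length_append, List.length_append] at h1
  have h2 : w.length = n := hw
  omega

omit [Fact p.Prime] in
theorem cnt_zero (i : Fin 3) : ([] : List (Fin 3)) ∈ cntGe i 0 := Nat.zero_le _

section generic

variable {F R : Type*} [Field F] [Ring R] [Algebra F R] (X : Fin 3 → R)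

theorem letters_cnt (i : Fin 3) (ls : List (Fin 3)) :
    List.Forall₂ (fun n z => z ∈ spanW F X (cntGe i n)) (ls.map (fun j => if j = i then 1 else 0))
      (ls.map X) := by
  induction ls with
  | nil => exact List.Forall₂.nil
  | cons a ls ih =>
    refine List.Forall₂.cons ?_ ih
    have := word_mem_spanW (F := F) (X := X) (S := cntGe i (if a = i then 1 else 0)) (w := [a]) (by
      change (if a = i then 1 else 0) ≤ [a].count i
      by_cases h : a = i
      · subst h
        simp
      · rw [if_neg h]
        exact Nat.zero_le _)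
    simpa using this

theorem letters_cnt_sum (i : Fin 3) (ls : List (Fin 3)) :
    (ls.map (fun j => if j = i then 1 else 0)).sum = ls.count i := by
  induction ls with
  | nil => rfl
  | cons a ls ih =>
    rw [List.map_cons, List.sum_cons, ih, List.count_cons, add_comm]
    by_cases h : a = i
    · simp [h]
    · simp [h]

theorem forall₂_append' {α β : Type*} {r : α → β → Prop} {l₁ l₂ : List α} {u₁ u₂ : List β}
    (h₁ : List.Forall₂ r l₁ u₁) (h₂ : List.Forall₂ r l₂ u₂) :
    List.Forall₂ r (l₁ ++ l₂) (u₁ ++ u₂) := by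
  induction h₁ with
  | nil => exact h₂
  | cons h _ ih => exact List.Forall₂.cons h ih

theorem adZY_cnt1 (a : ℕ) : adZY X a ∈ spanW F X (cntGe 1 1) := by
  induction a with
  | zero =>
    have := word_mem_spanW (F := F) (X := X) (S := cntGe 1 1) (w := [1]) (by
      change 1 ≤ [1].count 1
      decide)
    simpa [adZY] using this
  | succ a ih =>
    refine spanW_bracket 2 ?_ ?_ ih
    · intro s hs
      have hs' : 1 ≤ s.count 1 := hs
      change 1 ≤ (2 :: s).count 1
      rw [List.count_cons]
      omega
    · intro s hs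
      have hs' : 1 ≤ s.count 1 := hs
      change 1 ≤ (s ++ [2]).count 1
      rw [List.count_append]
      omega

theorem adZY_cnt2 (a : ℕ) : adZY X a ∈ spanW F X (cntGe 2 a) := by
  induction a with
  | zero =>
    have := word_mem_spanW (F := F) (X := X) (S := cntGe 2 0) (w := [1]) (Nat.zero_le _)
    simpa [adZY] using this
  | succ a ih =>
    refine spanW_bracket 2 ?_ ?_ ih
    · intro s hs
      have hs' : a ≤ s.count 2 := hs
      change a + 1 ≤ (2 :: s).count 2
      rw [List.count_cons_self]
      omega
    · intro s hs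
      have hs' : a ≤ s.count 2 := hs
      change a + 1 ≤ (s ++ [2]).count 2
      rw [List.count_append, List.count_singleton_self]
      omega

theorem adZY_LieD (a : ℕ) : adZY X a ∈ LieD F X (a + 1) := by
  induction a with
  | zero =>
    rw [zero_add, H93.LieD_one]
    exact Submodule.subset_span ⟨1, rfl⟩
  | succ a ih => exact H93.bracket_mem_LieD X (a + 1) (by omega) 2 _ ih

/-- lists with an entry in the ideal of the words with a letter `0`, after `q` letters `0` -/
theorem Ph_zero_part (p q : ℕ) (I : Submodule F R)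
    (hI0 : spanW F X (cntGe 0 (q + 1)) ≤ I) (ls : List (Fin 3)) (hls : q ≤ ls.count 0)
    (l₁ l₂ : List R) (h1 : ∀ z ∈ l₁, z ∈ spanW F X Set.univ) (h2 : ∀ z ∈ l₂, z ∈ spanW F X Set.univ)
    (x : R) (hx : x ∈ spanW F X (cntGe 0 1)) : Ph p (ls.map X ++ (l₁ ++ x :: l₂)) ∈ I := by
  have hz : ∀ l : List R, (∀ z ∈ l, z ∈ spanW F X Set.univ) →
      List.Forall₂ (fun n z => z ∈ spanW F X (cntGe 0 n)) (List.replicate l.length 0) l := by
    intro l
    induction l with
    | nil => intro _; exact List.Forall₂.nil
    | cons a l ih =>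
      intro h
      rw [List.length_cons, List.replicate_succ]
      refine List.Forall₂.cons ?_ (ih (fun z hz => h z (by simp [hz])))
      exact spanW_mono (fun _ _ => Nat.zero_le _) (h a (by simp))
  have h3 := Ph_mem_spanW (F := F) (X := X) (cntGe 0) (cnt_zero 0) (cntGe_append 0) p
    (forall₂_append' (letters_cnt X 0 ls)
      (forall₂_append' (hz l₁ h1) (List.Forall₂.cons hx (hz l₂ h2))))
  refine hI0 (spanW_mono ?_ h3)
  intro w hw
  have hw' : _ ≤ w.count 0 := hw
  change q + 1 ≤ w.count 0
  refine le_trans ?_ hw'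
  rw [List.sum_append, List.sum_append, letters_cnt_sum, List.sum_cons]
  simp only [List.sum_replicate]
  omega

/-- lists with too many letters `1` -/
theorem Ph_one_part (p q : ℕ) (I : Submodule F R)
    (hI0 : spanW F X (cntGe 0 (q + 1)) ≤ I) (hI1 : spanW F X (cntGe 1 (q + 1)) ≤ I)
    (ls : List (Fin 3)) (hls : q ≤ ls.count 0) (ws : List R) :
    ∀ (pre : List R) (ns : List ℕ),
      (∀ w ∈ ws, w ∈ spanW F X (cntGe 0 1) ⊔ spanW F X (cntGe 1 1)) →
      List.Forall₂ (fun n z => z ∈ spanW F X (cntGe 1 n)) ns pre →
      q < ls.count 1 + ns.sum + ws.length → Ph p (ls.map X ++ (pre ++ ws)) ∈ I := by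
  induction ws with
  | nil =>
    intro pre ns _ hpre hq
    have h3 := Ph_mem_spanW (F := F) (X := X) (cntGe 1) (cnt_zero 1) (cntGe_append 1) p
      (forall₂_append' (letters_cnt X 1 ls) hpre)
    rw [List.append_nil]
    refine hI1 (spanW_mono ?_ h3)
    intro w hw
    have hw' : _ ≤ w.count 1 := hw
    change q + 1 ≤ w.count 1
    refine le_trans ?_ hw'
    rw [List.sum_append, letters_cnt_sum]
    rw [List.length_nil] at hq
    omega
  | cons w ws ih =>
    intro pre ns hws hpre hq
    have hw := hws w (by simp)
    rw [Submodule.mem_sup] at hw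
    obtain ⟨x, hx, y, hy, hxy⟩ := hw
    have huniv : ∀ (i : Fin 3) (n : ℕ), ∀ z ∈ spanW F X (cntGe i n), z ∈ spanW F X Set.univ :=
      fun i n z hz => spanW_mono (Set.subset_univ _) hz
    have h1 : Ph p (ls.map X ++ (pre ++ x :: ws)) ∈ I := by
      refine Ph_zero_part X p q I hI0 ls hls pre ws ?_ ?_ x hx
      · intro z hz
        have : ∀ (ns : List ℕ) (pre : List R),
            List.Forall₂ (fun n z => z ∈ spanW F X (cntGe 1 n)) ns pre →
            ∀ z ∈ pre, z ∈ spanW F X Set.univ := by
          intro ns pre h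
          induction h with
          | nil => intro z hz; simp at hz
          | cons h1 _ ih2 =>
            intro z hz
            rw [List.mem_cons] at hz
            rcases hz with rfl | hz
            · exact huniv _ _ _ h1
            · exact ih2 z hz
        exact this ns pre hpre z hz
      · intro z hz
        have := hws z (by simp [hz])
        rw [Submodule.mem_sup] at this
        obtain ⟨x', hx', y', hy', rfl⟩ := this
        exact Submodule.add_mem _ (huniv _ _ _ hx') (huniv _ _ _ hy')
    have h2 : Ph p (ls.map X ++ (pre ++ y :: ws)) ∈ I := by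
      have := ih (pre ++ [y]) (ns ++ [1]) (fun w hw => hws w (by simp [hw]))
        (forall₂_append' hpre (List.Forall₂.cons hy List.Forall₂.nil)) (by
          rw [List.sum_append]
          rw [List.length_cons] at hq
          simp only [List.sum_cons, List.sum_nil]
          omega)
      simpa using this
    have h3 := map_add (PhHom p (ls.map X ++ pre) ws) x y
    rw [PhHom_apply, PhHom_apply, PhHom_apply, hxy] at h3
    simp only [List.append_assoc] at h3
    rw [h3]
    exact I.add_mem h1 h2

theorem adZY_mem_sup (a : ℕ) : adZY X a ∈ spanW F X (cntGe 0 1) ⊔ spanW F X (cntGe 1 1) :=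
  Submodule.mem_sup_right (adZY_cnt1 X a)

theorem LieD_mem_sup (d : ℕ) (hd : 2 ≤ d) :
    LieD F X d ≤ spanW F X (cntGe 0 1) ⊔ spanW F X (cntGe 1 1) := by
  refine (LieD_le_adZY d hd).trans (sup_le (sup_le ?_ ?_) ?_)
  · rw [Submodule.span_singleton_le_iff_mem]
    exact adZY_mem_sup X _
  · exact le_sup_left
  · refine le_trans (spanW_mono ?_) le_sup_right
    intro w hw
    have hw' : 2 ≤ w.count 1 := hw
    change 1 ≤ w.count 1
    omega

/-- replace the Lie elements by `ad(X 2) ^ a (X 1)` -/
theorem Ph_expandZ (p q : ℕ) (I : Submodule F R)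
    (hI0 : spanW F X (cntGe 0 (q + 1)) ≤ I) (hI1 : spanW F X (cntGe 1 (q + 1)) ≤ I)
    (ls : List (Fin 3)) (hls : q ≤ ls.count 0) (m : ℕ)
    (hm : q < ls.count 1 + m + 1) (es : List ℕ) (ws : List R)
    (hws : List.Forall₂ (fun e w => w ∈ LieD F X e) es ws) (hes : ∀ e ∈ es, 2 ≤ e) :
    ∀ (as : List ℕ), as.length + es.length = m →
      Ph p (ls.map X ++ (as.map (adZY X) ++ es.map (fun e => adZY X (e - 1)))) ∈ I →
      Ph p (ls.map X ++ (as.map (adZY X) ++ ws)) ∈ I := by
  induction hws with
  | nil => intro as _ h; exact h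
  | @cons e w es ws h1 h2 ih =>
    intro as hlen h
    have hpre : List.Forall₂ (fun n z => z ∈ spanW F X (cntGe 1 n)) (List.replicate as.length 1)
        (as.map (adZY X)) := by
      clear h hlen
      induction as with
      | nil => exact List.Forall₂.nil
      | cons a as ih2 =>
        rw [List.length_cons, List.replicate_succ]
        exact List.Forall₂.cons (adZY_cnt1 X a) ih2
    have hws' : ∀ w ∈ ws, w ∈ spanW F X (cntGe 0 1) ⊔ spanW F X (cntGe 1 1) := by
      intro w' hw'
      have : ∀ (es : List ℕ) (ws : List R), List.Forall₂ (fun e w => w ∈ LieD F X e) es ws →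
          (∀ e ∈ es, 2 ≤ e) → ∀ w ∈ ws, w ∈ spanW F X (cntGe 0 1) ⊔ spanW F X (cntGe 1 1) := by
        intro es ws h
        induction h with
        | nil => intro _ z hz; simp at hz
        | cons h3 _ ih3 =>
          intro he z hz
          rw [List.mem_cons] at hz
          rcases hz with rfl | hz
          · exact LieD_mem_sup X _ (he _ (by simp)) h3
          · exact ih3 (fun e he' => he e (by simp [he'])) z hz
      exact this es ws h2 (fun e he => hes e (by simp [he])) w' hw'
    have hwl : ws.length = es.length := h2.length_eq.symm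
    have huniv : ∀ z ∈ spanW F X (cntGe 0 1) ⊔ spanW F X (cntGe 1 1), z ∈ spanW F X Set.univ := by
      intro z hz
      rw [Submodule.mem_sup] at hz
      obtain ⟨x', hx', y', hy', rfl⟩ := hz
      exact Submodule.add_mem _ (spanW_mono (Set.subset_univ _) hx')
        (spanW_mono (Set.subset_univ _) hy')
    -- decomposition of `w`
    have hw := LieD_le_adZY (F := F) (X := X) e (hes e (by simp)) h1
    rw [Submodule.mem_sup] at hw
    obtain ⟨y, hy, x2, hx2, hw⟩ := hw
    rw [Submodule.mem_sup] at hy
    obtain ⟨y0, hy0, x1, hx1, hy⟩ := hy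
    rw [Submodule.mem_span_singleton] at hy0
    obtain ⟨c, hc⟩ := hy0
    have hA : Ph p (ls.map X ++ (as.map (adZY X) ++ (adZY X (e - 1)) :: ws)) ∈ I := by
      have := ih (fun e he => hes e (by simp [he])) (as ++ [e - 1]) (by
        rw [List.length_append, List.length_singleton]
        rw [List.length_cons] at hlen
        omega) (by simpa using h)
      simpa using this
    have hB : Ph p (ls.map X ++ (as.map (adZY X) ++ x1 :: ws)) ∈ I := by
      refine Ph_zero_part X p q I hI0 ls hls _ ws ?_ (fun z hz => huniv z (hws' z hz)) x1 hx1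
      intro z hz
      obtain ⟨a, _, rfl⟩ := List.mem_map.1 hz
      exact huniv _ (adZY_mem_sup X a)
    have hC : Ph p (ls.map X ++ (as.map (adZY X) ++ x2 :: ws)) ∈ I := by
      have := Ph_one_part X p q I hI0 hI1 ls hls ws (as.map (adZY X) ++ [x2])
        (List.replicate as.length 1 ++ [2]) hws'
        (forall₂_append' hpre (List.Forall₂.cons hx2 List.Forall₂.nil)) (by
          rw [List.sum_append, List.sum_replicate, hwl]
          rw [List.length_cons] at hlen
          simp only [List.sum_cons, List.sum_nil, smul_eq_mul, mul_one]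
          omega)
      simpa using this
    have hAc : Ph p (ls.map X ++ (as.map (adZY X) ++ (c • adZY X (e - 1)) :: ws)) ∈ I := by
      have h5 := Ph_smul_entry (F := F) p (ls.map X ++ as.map (adZY X)) ws c (adZY X (e - 1))
      simp only [List.append_assoc] at h5
      rw [h5]
      exact I.smul_mem _ hA
    have h3 := map_add (PhHom p (ls.map X ++ as.map (adZY X)) ws) y x2
    have h4 := map_add (PhHom p (ls.map X ++ as.map (adZY X)) ws) y0 x1
    rw [PhHom_apply, PhHom_apply, PhHom_apply, hw] at h3
    rw [PhHom_apply, PhHom_apply, PhHom_apply, hy] at h4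
    simp only [List.append_assoc] at h3 h4
    rw [h3, h4, ← hc]
    exact I.add_mem (I.add_mem hAc hB) hC

end generic

end inst

end Pool.Agent.Work.MP_bde882_al.Red
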