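import Pool.Agent.Work.MP_bde882_al_h64.Long3

/-!
Block B: all long rearrangement sums of elements of the Lie ring of operators vanish on `F`, from
finitely many explicit checks.
-/

set_option autoImplicit false

namespace Pool.Agent.Work.MP_bde882_al.Red

open Finset
open Pool.Agent.Work.MP_bde882_al.H93 (LieD)

section blockB

variable {p : ℕ} [Fact p.Prime]

/-- the operator `[2, [2, … [2, 1]]]` on functions on words -/
abbrev zy (p : ℕ) (a : ℕ) : Module.End (ZMod p) (Fn p) := adZY (Xop p) a

/-- the letters `0^q 1^(q-r)` -/
def lB1 (p r : ℕ) : List (Fin 3) := List.replicate (p - 1) 0 ++ List.replicate (p - 1 - r) 1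

/-- the letters `0^q 1^q 2^s` -/
def lB2 (p s : ℕ) : List (Fin 3) :=
  List.replicate (p - 1) 0 ++ (List.replicate (p - 1) 1 ++ List.replicate s 2)

theorem Lset_bracket {F R : Type*} [Field F] [Ring R] [Algebra F R] (X : Fin 3 → R) (x : R)
    (hx : x ∈ Lset (LieD F X)) (y : R) (hy : y ∈ Lset (LieD F X)) :
    x * y - y * x ∈ Lset (LieD F X) := by
  obtain ⟨a, ha, hx⟩ := hx
  obtain ⟨b, hb, hy⟩ := hy
  refine ⟨a + b, by omega, ?_⟩
  refine lie_mem_of X (LieD F X) (H93.LieD_one X) ?_ ?_ a b ha hb x y hx hy
  · intro d hd i l hl
    exact H93.bracket_mem_LieD X d hd i l hl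
  · intro d hd
    rw [H93.LieD_succ X d hd]
    refine Submodule.span_mono ?_
    rintro _ ⟨k, l, hl, rfl⟩
    exact ⟨k, l, hl, rfl⟩

theorem lieSum_bracket {F R : Type*} [Field F] [Ring R] [Algebra F R] (X : Fin 3 → R) (x : R)
    (hx : x ∈ lieSum (LieD F X)) (y : R) (hy : y ∈ lieSum (LieD F X)) :
    x * y - y * x ∈ lieSum (LieD F X) := by
  refine lieSum_closed X (LieD F X) (H93.LieD_one X) ?_ ?_ x hx y hy
  · intro d hd i l hl
    exact H93.bracket_mem_LieD X d hd i l hl
  · intro d hd
    rw [H93.LieD_succ X d hd]
    refine Submodule.span_mono ?_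
    rintro _ ⟨k, l, hl, rfl⟩
    exact ⟨k, l, hl, rfl⟩

theorem topL_eq (q r : ℕ) (hr : r ≤ q) :
    topL q (2 * q - r) = List.replicate q 0 ++ List.replicate (q - r) 1 := by
  unfold topL
  rw [show min (2 * q - r) q = q by omega, show min (2 * q - r - q) q = q - r by omega,
    show 2 * q - r - q - q = 0 by omega, List.replicate_zero, List.append_nil]

theorem topL_eq' (q s : ℕ) :
    topL q (2 * q + s) = List.replicate q 0 ++ (List.replicate q 1 ++ List.replicate s 2) := by
  unfold topL
  rw [show min (2 * q + s) q = q by omega, show min (2 * q + s - q) q = q by omega,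
    show 2 * q + s - q - q = s by omega]

theorem count_topL0 (q k : ℕ) (hk : q ≤ k) : (topL q k).count 0 = q := by
  unfold topL
  rw [List.count_append, List.count_append, List.count_replicate_self, List.count_replicate,
    List.count_replicate]
  simp
  omega

theorem count_topL1 (q k : ℕ) : (topL q k).count 1 = min (k - q) q := by
  unfold topL
  rw [List.count_append, List.count_append, List.count_replicate_self, List.count_replicate,
    List.count_replicate]
  simp

theorem length_topL (q k : ℕ) : (topL q k).length = k := by
  unfold topL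
  simp only [List.length_append, List.length_replicate]
  omega

/-- **Block B.** -/
theorem long_IF (F : Fn p) (hcont : ∀ v : List (Fin 3), (¬ ∀ i, v.count i = p - 1) → F v = 0)
    (hE : ∀ i j, i ≠ j → Eop p i j F = 0)
    (hpow : ∀ z ∈ lieSum (LieD (ZMod p) (Xop p)), z ^ (p - 1) ∈ IF F)
    (hB1 : ∀ as : List ℕ, (∀ a ∈ as, 1 ≤ a) → as.Pairwise (· ≤ ·) → as.sum ≤ p - 1 →
      Ph p ((lB1 p as.length).map (Xop p)
        ++ as.map (zy p)) ∈ IF F)
    (hB2 : ∀ s, 1 ≤ s → s < p - 1 →
      Ph p ((lB2 p s).map (Xop p)) ∈ IF F) :
    ∀ zs : List (Module.End (ZMod p) (Fn p)), (∀ z ∈ zs, z ∈ Lset (LieD (ZMod p) (Xop p))) →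
      zs.length < 3 * (p - 1) → Ph p zs ∈ IF F := by
  have hp : p.Prime := Fact.out
  have hp2 := hp.two_le
  set q := p - 1 with hqdef
  have hbr := Lset_bracket (F := ZMod p) (Xop p)
  have hXL : ∀ i, Xop p i ∈ Lset (LieD (ZMod p) (Xop p)) := fun i =>
    ⟨1, le_refl 1, Submodule.subset_span ⟨i, rfl⟩⟩
  have hI0 : spanW (ZMod p) (Xop p) (cntGe 0 (q + 1)) ≤ IF F :=
    cntGe_le_IF hcont 0 (q + 1) (by omega)
  have hI1 : spanW (ZMod p) (Xop p) (cntGe 1 (q + 1)) ≤ IF F :=
    cntGe_le_IF hcont 1 (q + 1) (by omega)
  have hq0 : ∀ a : ℕ, 1 ≤ a → a ≤ q → (a : ZMod p) ≠ 0 := by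
    intro a h1 h2 h3
    rw [ZMod.natCast_eq_zero_iff] at h3
    have := Nat.le_of_dvd (by omega) h3
    omega
  -- short lists
  have hshort : ∀ zs : List (Module.End (ZMod p) (Fn p)),
      (∀ z ∈ zs, z ∈ Lset (LieD (ZMod p) (Xop p))) → zs.length < 2 * q → Ph p zs ∈ IF F := by
    intro zs hzs hlen b
    change Ph p zs • ((b.map (Xop p)).prod F) = 0
    rw [Ph_smul]
    refine cop_eq_zero_of_pow _ (lieSum (LieD (ZMod p) (Xop p)))
      (lieSum_bracket (F := ZMod p) (Xop p)) ?_ zs ?_ hlen
    · intro z hz
      exact hpow z hz b
    · intro z hz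
      obtain ⟨d, hd, hz⟩ := hzs z hz
      exact mem_lieSum _ d hd hz
  intro zs
  induction hn : zs.length using Nat.strong_induction_on generalizing zs with
  | _ m ih =>
    intro hzs hm
    by_cases hlow : m < 2 * q
    · exact hshort zs hzs (by omega)
    rw [not_lt] at hlow
    have H : ∀ zs : List (Module.End (ZMod p) (Fn p)),
        (∀ z ∈ zs, z ∈ Lset (LieD (ZMod p) (Xop p))) → zs.length + 1 = m → Ph p zs ∈ IF F := by
      intro zs' h1 h2
      exact ih zs'.length (by omega) zs' rfl h1 (by omega)
    obtain ⟨vs, es, ws, h1, h2, h3, h4⟩ := split_list zs hzs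
    have hlw : ws.length = es.length := h4.length_eq.symm
    have hlen : vs.length + es.length = m := by
      rw [← hn, h1.length_eq, List.length_append, hlw]
    have hes1 : ∀ e ∈ es, 1 ≤ e := fun e he => by have := h3 e he; omega
    have hmem : ∀ z ∈ vs ++ ws, z ∈ Lset (LieD (ZMod p) (Xop p)) :=
      fun z hz => hzs z (h1.mem_iff.2 hz)
    refine Ph_perm_mem hbr m H (vs ++ ws) zs h1.symm
      (by rw [List.length_append, hlw, hlen]) hmem ?_
    by_cases hsum : 3 * q < vs.length + es.sum
    · -- total degree too large
      have hvs : ∀ vs : List (Module.End (ZMod p) (Fn p)), (∀ v ∈ vs, v ∈ LieD (ZMod p) (Xop p) 1) →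
          List.Forall₂ (fun n z => z ∈ spanW (ZMod p) (Xop p) (lenEq n))
            (List.replicate vs.length 1) vs := by
        intro vs
        induction vs with
        | nil => intro _; exact List.Forall₂.nil
        | cons v vs ih2 =>
          intro h
          rw [List.length_cons, List.replicate_succ]
          exact List.Forall₂.cons (LieD_le_len 1 (le_refl 1) (h v (by simp)))
            (ih2 (fun v' hv' => h v' (by simp [hv'])))
      have hws : ∀ (es : List ℕ) (ws : List (Module.End (ZMod p) (Fn p))),
          List.Forall₂ (fun e w => w ∈ LieD (ZMod p) (Xop p) e) es ws → (∀ e ∈ es, 1 ≤ e) →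
          List.Forall₂ (fun n z => z ∈ spanW (ZMod p) (Xop p) (lenEq n)) es ws := by
        intro es ws h
        induction h with
        | nil => intro _; exact List.Forall₂.nil
        | cons h5 _ ih2 =>
          intro h
          exact List.Forall₂.cons (LieD_le_len _ (h _ (by simp)) h5)
            (ih2 (fun e he => h e (by simp [he])))
      have h5 := Ph_mem_spanW (F := ZMod p) (X := Xop p) lenEq rfl lenEq_append p
        (forall₂_append' (hvs vs h2) (hws es ws h4 hes1))
      refine lenEq_le_IF hcont _ ?_ h5
      rw [List.sum_append, List.sum_replicate, smul_eq_mul, mul_one]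
      exact hsum
    rw [not_lt] at hsum
    have hes2 : 2 * es.length ≤ es.sum := by
      have : ∀ es : List ℕ, (∀ e ∈ es, 2 ≤ e) → 2 * es.length ≤ es.sum := by
        intro es
        induction es with
        | nil => intro _; simp
        | cons a es ih2 =>
          intro h
          rw [List.length_cons, List.sum_cons]
          have := ih2 (fun e he => h e (by simp [he]))
          have := h a (by simp)
          omega
      exact this es h3
    have hcnt : ∀ ls : List (Fin 3), (∃ i, q < ls.count i) →
        PP (Xop p) (LieD (ZMod p) (Xop p)) (IF F) p es ls := by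
      rintro ls ⟨i, hi⟩ ws' hws'
      have hz : ∀ (es : List ℕ) (l : List (Module.End (ZMod p) (Fn p))),
          List.Forall₂ (fun e w => w ∈ LieD (ZMod p) (Xop p) e) es l → (∀ e ∈ es, 1 ≤ e) →
          List.Forall₂ (fun n z => z ∈ spanW (ZMod p) (Xop p) (cntGe i n))
            (List.replicate l.length 0) l := by
        intro es l h
        induction h with
        | nil => intro _; exact List.Forall₂.nil
        | cons h5 _ ih2 =>
          intro h
          rw [List.length_cons, List.replicate_succ]
          refine List.Forall₂.cons ?_ (ih2 (fun e he => h e (by simp [he])))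
          exact spanW_mono (fun _ _ => Nat.zero_le _) (LieD_le_all _ (h _ (by simp)) h5)
      have h5 := Ph_mem_spanW (F := ZMod p) (X := Xop p) (cntGe i) (cnt_zero i) (cntGe_append i) p
        (forall₂_append' (letters_cnt (Xop p) i ls) (hz es ws' hws' hes1))
      refine cntGe_le_IF hcont i _ ?_ h5
      rw [List.sum_append, letters_cnt_sum, List.sum_replicate, smul_zero, add_zero]
      exact hi
    have hall : ∀ ls : List (Fin 3), ls.length + es.length = m →
        PP (Xop p) (LieD (ZMod p) (Xop p)) (IF F) p es ls := by
      refine PP_all hXL hbr m H q hq0 (fun i j => (Dop p i j).toAddMonoidHom)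
        (fun i j a b => Dop_mul i j a b) ?_ (fun i j k => Dop_X i j k) es hes1 ?_ hcnt ?_
      · intro i j hij r hr
        exact IF_D i j (hE i j hij) hr
      · intro i j e _ z hz
        refine H93.deriv_mem_LieD (Xop p) (Dop p i j) (fun a b => Dop_mul i j a b) ?_ e z hz
        intro k
        rw [Dop_X]
        split_ifs
        · exact Submodule.subset_span ⟨i, rfl⟩
        · exact Submodule.zero_mem _
      · intro k hk ws' hws'
        have hkv : k = vs.length := by omega
        have hkq : q ≤ k := by omega
        have hc0 : q ≤ (topL q k).count 0 := (count_topL0 q k hkq).ge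
        have hc1 := count_topL1 q k
        have hexp := Ph_expandZ (Xop p) p q (IF F) hI0 hI1 (topL q k) hc0 es.length
          (by rw [hc1]; omega) es ws' hws' h3 [] (by simp)
        rw [List.map_nil, List.nil_append, List.nil_append] at hexp
        refine hexp ?_
        -- the list of the exponents
        have hone : ∀ as : List ℕ, ∀ w ∈ as.map (zy p),
            w ∈ spanW (ZMod p) (Xop p) (cntGe 0 1) ⊔ spanW (ZMod p) (Xop p) (cntGe 1 1) := by
          intro as w hw
          obtain ⟨a, _, rfl⟩ := List.mem_map.1 hw
          exact adZY_mem_sup (Xop p) a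
        have hes' : es.map (fun e => adZY (Xop p) (e - 1)) = (es.map (· - 1)).map (zy p) := by
          rw [List.map_map]
          rfl
        rw [hes']
        set as := es.map (· - 1) with has
        have hasl : as.length = es.length := by rw [has, List.length_map]
        have has1 : ∀ a ∈ as, 1 ≤ a := by
          intro a ha
          obtain ⟨e, he, rfl⟩ := List.mem_map.1 ha
          have := h3 e he
          change 1 ≤ e - 1
          omega
        have hsum1 : as.sum + es.length = es.sum := by
          have : ∀ es : List ℕ, (∀ e ∈ es, 1 ≤ e) → (es.map (· - 1)).sum + es.length = es.sum := by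
            intro es
            induction es with
            | nil => intro _; rfl
            | cons a es ih2 =>
              intro h
              rw [List.map_cons, List.sum_cons, List.sum_cons, List.length_cons]
              have := ih2 (fun e he => h e (by simp [he]))
              have := h a (by simp)
              omega
          exact this es hes1
        by_cases hm2 : m = 2 * q
        · -- sort the exponents
          have hs := List.perm_insertionSort (· ≤ ·) as
          refine Ph_perm_mem hbr m H ((topL q k).map (Xop p)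
            ++ (as.insertionSort (· ≤ ·)).map (zy p)) _
            (List.Perm.append_left _ (hs.map (zy p))) ?_ ?_ ?_
          · rw [List.length_append, List.length_map, List.length_map, hs.length_eq, length_topL,
              hasl, hk]
          · intro z hz
            rw [List.mem_append] at hz
            rcases hz with hz | hz
            · obtain ⟨i, _, rfl⟩ := List.mem_map.1 hz
              exact hXL i
            · obtain ⟨a, _, rfl⟩ := List.mem_map.1 hz
              exact ⟨a + 1, by omega, adZY_LieD (Xop p) a⟩
          · have hk2 : k = 2 * q - es.length := by omega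
            rw [hk2, topL_eq q es.length (by omega)]
            have := hB1 (as.insertionSort (· ≤ ·)) (fun a ha => has1 a (hs.mem_iff.1 ha))
              (List.pairwise_insertionSort _ as) (by rw [hs.sum_eq]; omega)
            rwa [hs.length_eq, hasl] at this
        · by_cases hes0 : es = []
          · have : as = [] := by rw [has, hes0]; rfl
            rw [this, List.map_nil, List.append_nil]
            have hk2 : k = 2 * q + (m - 2 * q) := by
              rw [hes0, List.length_nil] at hk
              omega
            rw [hk2, topL_eq']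
            exact hB2 (m - 2 * q) (by omega) (by omega)
          · have hpos : 1 ≤ es.length := List.length_pos_iff.2 hes0
            have := Ph_one_part (Xop p) p q (IF F) hI0 hI1 (topL q k) hc0 (as.map (zy p)) [] []
              (hone as) List.Forall₂.nil (by
                rw [List.length_map, hasl, hc1, List.sum_nil]
                omega)
            rwa [List.nil_append] at this
    have hfin := Ph_letters (I := IF F) (p := p) (LD := LieD (ZMod p) (Xop p)) (X := Xop p)
      (H93.LieD_one (Xop p)).le es ws vs h2 [] (by
      intro ls hls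
      rw [List.nil_append]
      exact hall ls (by omega) ws h4)
    simpa using hfin

/-- **Assembly of the two reductions.** -/
theorem goal_of_blocks (F : Fn p)
    (hcont : ∀ v : List (Fin 3), (¬ ∀ i, v.count i = p - 1) → F v = 0)
    (hE : ∀ i j, i ≠ j → Eop p i j F = 0)
    (hpow : ∀ z ∈ lieSum (LieD (ZMod p) (Xop p)), z ^ (p - 1) ∈ IF F)
    (hB1 : ∀ as : List ℕ, (∀ a ∈ as, 1 ≤ a) → as.Pairwise (· ≤ ·) → as.sum ≤ p - 1 →
      Ph p ((lB1 p as.length).map (Xop p)
        ++ as.map (zy p)) ∈ IF F)
    (hB2 : ∀ s, 1 ≤ s → s < p - 1 →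
      Ph p ((lB2 p s).map (Xop p)) ∈ IF F)
    (hT : cop p F ((top3 p).map (Xop p)) [] ≠ 0) : Goal := by
  have hp : p.Prime := Fact.out
  have hlongL := long_IF F hcont hE hpow hB1 hB2
  refine goal_of_long hp F hcont (lieSum (LieD (ZMod p) (Xop p))) ?_
    (lieSum_bracket (F := ZMod p) (Xop p)) ?_ ?_ hT
  · intro i
    exact mem_lieSum _ 1 (le_refl 1) (Submodule.subset_span ⟨i, rfl⟩)
  · intro z hz
    exact IF_apply (hpow z hz)
  · intro zs hzs _ hlen
    have h1 : Ph p zs ∈ IF F := by
      have := mem_of_homog (I := IF F) (p := p) zs.length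
        (fun zs' h1 h2 => hlongL zs' h1 (by omega)) zs [] (by simp) hzs (by simp)
      simpa using this
    have h2 := IF_apply h1
    have h3 := Ph_smul (W := Fn p) p F zs
    rw [← h3]
    exact h2

end blockB

end Pool.Agent.Work.MP_bde882_al.Red
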