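import Pool.Agent.Work.MP_bde882_al_h64.DP

/-!
Tables for the rearrangement sums of long lists with repeated entries.
-/

set_option autoImplicit false

namespace Pool.Agent.Work.MP_bde882_al.DP

open Finset
open Pool.Agent.Work.MP_bde882_al.Red

section prog

variable {Op : Type} (w : Op → ℕ) (fd : ℕ → ℕ) (f : Op → ℕ → ℕ → ℕ)

/-- combine the leaves of `T` (with block) and of `R` -/
noncomputable def zipT (g : ℕ → ℕ → ℕ → ℕ) (T : Tb) : Tb → List Op → ℕ → Tb :=
  Tb.rec (motive := fun _ => Tb → List Op → ℕ → Tb)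
    (fun v R _ s => Tb.rec (motive := fun _ => Tb)
        (fun v' => Tb.leaf (g s v v')) Tb.nil (fun _ _ _ _ => Tb.nil) R)
    (fun _ _ _ => Tb.nil)
    (fun _ _ ihS ihSs R P s =>
      List.rec (motive := fun _ => Tb) Tb.nil
        (fun p P' _ => Tb.rec (motive := fun _ => Tb) (fun _ => Tb.nil) Tb.nil
          (fun R' Rs _ _ => Tb.cons (ihS R' P' s) (ihSs Rs P (Nat.sub s (w p)))) R) P)
    T

theorem zipT_leaf (g : ℕ → ℕ → ℕ → ℕ) (v v' : ℕ) (P : List Op) (s : ℕ) :
    zipT w g (Tb.leaf v) (Tb.leaf v') P s = Tb.leaf (g s v v') := rfl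

theorem zipT_nil (g : ℕ → ℕ → ℕ → ℕ) (R : Tb) (P : List Op) (s : ℕ) :
    zipT w g Tb.nil R P s = Tb.nil := rfl

theorem zipT_cons (g : ℕ → ℕ → ℕ → ℕ) (S Ss R Rs : Tb) (p : Op) (P : List Op) (s : ℕ) :
    zipT w g (Tb.cons S Ss) (Tb.cons R Rs) (p :: P) s
      = Tb.cons (zipT w g S R P s) (zipT w g Ss Rs (p :: P) (s - w p)) := rfl

/-- Horner scheme over the layers; `cs` are the coefficients, `s` the block of the first entry -/
noncomputable def hor (q : Op) (P : List Op) (T : Tb) : List ℕ → ℕ → Tb :=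
  Tb.rec (motive := fun _ => List ℕ → ℕ → Tb)
    (fun _ _ _ => Tb.nil)
    (fun _ _ => Tb.nil)
    (fun R rest _ ih cs s =>
      Tb.rec (motive := fun _ => Tb) (fun _ => Tb.nil) R
        (fun _ _ _ _ => List.rec (motive := fun _ => Tb) Tb.nil
          (fun c cs' _ => zipT w (fun s v v' => fd (Nat.add (Nat.mul c v') (f q s v)))
            (ih cs' (Nat.sub s (w q))) R P (Nat.sub s (w q))) cs) rest)
    T

/-- all Horner values -/
noncomputable def cmb (q : Op) (P : List Op) (T : Tb) : List (List ℕ) → ℕ → Tb :=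
  Tb.rec (motive := fun _ => List (List ℕ) → ℕ → Tb)
    (fun _ _ _ => Tb.nil)
    (fun _ _ => Tb.nil)
    (fun R rest _ ih rows s =>
      List.rec (motive := fun _ => Tb) Tb.nil
        (fun cs rows' _ => Tb.cons (hor w fd f q P (Tb.cons R rest) cs s)
          (ih rows' (Nat.sub s (w q)))) rows)
    T

/-- apply `g` to all layers; `d` is the difference of the blocks -/
noncomputable def mapL (d : ℕ) (g : ℕ → Tb → Tb) (T : Tb) : ℕ → Tb :=
  Tb.rec (motive := fun _ => ℕ → Tb) (fun _ _ => Tb.nil) (fun _ => Tb.nil)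
    (fun S _ _ ih s => Tb.cons (g s S) (ih (Nat.sub s d))) T

/-- one round; `Q` lists the operators with their coefficient rows -/
noncomputable def round (Q : List (Op × List (List ℕ))) : List Op → ℕ → Tb → Tb :=
  List.rec (motive := fun _ => List Op → ℕ → Tb → Tb)
    (fun _ _ T => T)
    (fun q _ ih P s T =>
      List.rec (motive := fun _ => Tb) Tb.nil
        (fun _ P' _ => cmb w fd f q.1 P' (mapL (w q.1) (ih P') T s) q.2 s) P)
    Q

theorem hor_nil_cons (q : Op) (P : List Op) (R : Tb) (cs : List ℕ) (s : ℕ) :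
    hor w fd f q P (Tb.cons R Tb.nil) cs s = R := rfl

theorem hor_cons (q : Op) (P : List Op) (R S Ss : Tb) (c : ℕ) (cs : List ℕ) (s : ℕ) :
    hor w fd f q P (Tb.cons R (Tb.cons S Ss)) (c :: cs) s
      = zipT w (fun s v v' => fd (c * v' + f q s v))
          (hor w fd f q P (Tb.cons S Ss) cs (s - w q)) R P (s - w q) := rfl

theorem cmb_nil (q : Op) (P : List Op) (rows : List (List ℕ)) (s : ℕ) :
    cmb w fd f q P Tb.nil rows s = Tb.nil := rfl

theorem cmb_cons (q : Op) (P : List Op) (R rest : Tb) (cs : List ℕ) (rows : List (List ℕ))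
    (s : ℕ) : cmb w fd f q P (Tb.cons R rest) (cs :: rows) s
      = Tb.cons (hor w fd f q P (Tb.cons R rest) cs s) (cmb w fd f q P rest rows (s - w q)) := rfl

theorem mapL_nil (d : ℕ) (g : ℕ → Tb → Tb) (s : ℕ) : mapL d g Tb.nil s = Tb.nil := rfl

theorem mapL_cons (d : ℕ) (g : ℕ → Tb → Tb) (S Ss : Tb) (s : ℕ) :
    mapL d g (Tb.cons S Ss) s = Tb.cons (g s S) (mapL d g Ss (s - d)) := rfl

theorem round_nil (P : List Op) (s : ℕ) (T : Tb) : round w fd f [] P s T = T := rfl

theorem round_cons (q : Op) (rows : List (List ℕ)) (Q : List (Op × List (List ℕ))) (p : Op)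
    (P : List Op) (s : ℕ) (T : Tb) :
    round w fd f ((q, rows) :: Q) (p :: P) s T
      = cmb w fd f q P (mapL (w q) (round w fd f Q P) T s) rows s := rfl

/-- the row of coefficients `C(m,l) % 7, …, C(m,0) % 7` -/
def crow (m : ℕ) : ℕ → List ℕ
  | 0 => [m.choose 0 % 7]
  | l + 1 => (m.choose (l + 1) % 7) :: crow m l

/-- the rows `m, …, 0` -/
def crows : ℕ → List (List ℕ)
  | 0 => [crow 0 0]
  | m + 1 => crow (m + 1) (m + 1) :: crows m

end prog

section sound

variable {A W : Type*} [Ring A] [AddCommGroup W] [Module A W]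
variable {Op : Type} {wt : Op → Fin 3 → ℕ} {sem : Op → A}
variable {RF : (Fin 3 → ℕ) → ℕ → W → Prop} {RU : ℕ → (Fin 3 → ℕ) → ℕ → W → Prop}
variable {f : Op → ℕ → ℕ → ℕ} {fd : ℕ → ℕ}

omit [AddCommGroup W] in
theorem zipT_sound (q : Op) (g : ℕ → ℕ → ℕ → ℕ) (h : W → W → W)
    (R1 R2 R3 : (Fin 3 → ℕ) → ℕ → W → Prop)
    (hg : ∀ (κ : Fin 3 → ℕ) (v v' : ℕ) (a a' : W), (∀ x, κ x + wt q x ≤ 6) → R1 κ v a →
      R2 (κ + wt q) v' a' → R3 (κ + wt q) (g (cod κ) v v') (h a a'))
    (P : List Op) (ms : List ℕ)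
    (κ : Fin 3 → ℕ) (T R : Tb) (φ ψ : List ℕ → W) (s : ℕ) (hs : s = cod (κ + tot wt P ms))
    (hv : ∀ x, κ x + tot wt P ms x + wt q x ≤ 6) (hT : RT wt R1 P ms κ T φ)
    (hR : RT wt R2 P ms (κ + wt q) R ψ) :
    RT wt R3 P ms (κ + wt q) (zipT (fun p => cod (wt p)) g T R P s)
      (fun ms' => h (φ ms') (ψ ms')) := by
  induction P generalizing ms κ T R φ ψ s with
  | nil =>
    cases ms with
    | nil =>
      obtain ⟨v, rfl, h2⟩ := hT
      obtain ⟨v', rfl, h4⟩ := hR
      refine ⟨_, zipT_leaf _ _ _ _ _ _, ?_⟩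
      have h3 : s = cod κ := by rw [hs]; rfl
      rw [h3]
      exact hg κ v v' _ _ (fun x => hv x) h2 h4
    | cons m ms => exact absurd hT (fun h => h)
  | cons p P ih =>
    cases ms with
    | nil => exact absurd hT (fun h => h)
    | cons m ms =>
      -- one layer
      have key : ∀ (t s : ℕ) (S R : Tb) (φ ψ : List ℕ → W),
          s = cod (κ + tot wt (p :: P) (t :: ms)) →
          (∀ x, κ x + tot wt (p :: P) (t :: ms) x + wt q x ≤ 6) →
          RT wt R1 P ms (κ + t • wt p) S φ →
          RT wt R2 P ms (κ + wt q + t • wt p) R ψ →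
          RT wt R3 P ms (κ + wt q + t • wt p) (zipT (fun p => cod (wt p)) g S R P s)
            (fun ms' => h (φ ms') (ψ ms')) := by
        intro t s S R φ ψ hs hv h2 h4
        rw [add_right_comm] at h4 ⊢
        refine ih ms _ S R _ _ s ?_ ?_ h2 h4
        · rw [hs]
          simp only [tot]
          rw [add_assoc]
        · intro x
          have := hv x
          simp only [tot, Pi.add_apply, Pi.smul_apply, smul_eq_mul] at this ⊢
          omega
      change RL _ m T at hT
      change RL _ m R at hR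
      change RL _ m _
      induction m generalizing T R s with
      | zero =>
        obtain ⟨S, rfl, h2⟩ := hT
        obtain ⟨S', rfl, h4⟩ := hR
        exact ⟨_, by rw [zipT_cons, zipT_nil], key 0 s S S' _ _ hs hv h2 h4⟩
      | succ m ihm =>
        obtain ⟨S, Ss, rfl, h2, h3⟩ := hT
        obtain ⟨S', Ss', rfl, h4, h5⟩ := hR
        refine ⟨_, _, by rw [zipT_cons], key (m + 1) s S S' _ _ hs hv h2 h4, ?_⟩
        refine ihm _ _ _ ?_ ?_ h3 h5
        · rw [hs, ← tot_succ_sub wt p P m ms κ]
        · intro x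
          have := hv x
          simp only [tot, Pi.add_apply, Pi.smul_apply, smul_eq_mul] at this ⊢
          rw [add_mul] at this
          omega

/-- the additional hypothesis on multiples -/
structure SoundC (wt : Op → Fin 3 → ℕ) (sem : Op → A) (RF : (Fin 3 → ℕ) → ℕ → W → Prop)
    (RU : ℕ → (Fin 3 → ℕ) → ℕ → W → Prop) (f : Op → ℕ → ℕ → ℕ) (fd : ℕ → ℕ) : Prop
    extends Sound wt sem RF RU f fd where
  smul : ∀ (c : ℕ) (κ : Fin 3 → ℕ) (y : ℕ) (a : W), c ≤ 6 → RF κ y a → RU 1 κ (c * y) (c • a)
  seven : ∀ a : W, (7 : ℕ) • a = 0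

theorem mod_seven (h7 : ∀ a : W, (7 : ℕ) • a = 0) (c : ℕ) (a : W) : (c % 7) • a = c • a := by
  conv_rhs => rw [← Nat.mod_add_div c 7]
  rw [add_smul, mul_comm, mul_smul, h7, smul_zero, add_zero]

/-- the Horner value -/
def horV (b : A) (G : ℕ → W) (m : ℕ) : ℕ → W
  | 0 => G 0
  | l + 1 => m.choose (l + 1) • G (l + 1) + b • horV b G m l

theorem horV_eq (b : A) (G : ℕ → W) (m l : ℕ) :
    horV b G m l = ∑ i ∈ range (l + 1), m.choose i • (b ^ (l - i) • G i) := by
  induction l with
  | zero => simp [horV]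
  | succ l ih =>
    rw [horV, ih, sum_range_succ _ (l + 1), add_comm, Nat.sub_self, pow_zero, one_smul, smul_sum]
    congr 1
    refine sum_congr rfl (fun i hi => ?_)
    rw [mem_range] at hi
    rw [show l + 1 - i = (l - i) + 1 by omega, pow_succ', mul_smul, smul_comm]

theorem hor_sound (H : SoundC wt sem RF RU f fd) (q : Op) (P : List Op) (m : ℕ) (ms : List ℕ)
    (κ : Fin 3 → ℕ) (G : ℕ → List ℕ → W) (l : ℕ) (T : Tb) (s : ℕ)
    (hs : s = cod (κ + l • wt q + tot wt P ms))
    (hv : ∀ x, κ x + l * wt q x + tot wt P ms x ≤ 6)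
    (hT : RL (fun t S => RT wt RF P ms (κ + t • wt q) S (G t)) l T) :
    RT wt RF P ms (κ + l • wt q) (hor (fun p => cod (wt p)) fd f q P T (crow m l) s)
      (fun ms' => horV (sem q) (fun t => G t ms') m l) := by
  induction l generalizing T s with
  | zero =>
    obtain ⟨S, rfl, h2⟩ := hT
    rw [hor_nil_cons]
    exact h2
  | succ l ih =>
    obtain ⟨R, Rs, rfl, h2, h3⟩ := hT
    have h5 : ∃ S Ss, Rs = Tb.cons S Ss := by
      cases l with
      | zero =>
        obtain ⟨S, e1, -⟩ := h3
        exact ⟨S, _, e1⟩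
      | succ k =>
        obtain ⟨S, Ss, e1, -⟩ := h3
        exact ⟨S, Ss, e1⟩
    obtain ⟨S, Ss, rfl⟩ := h5
    have hs' : s - cod (wt q) = cod (κ + l • wt q + tot wt P ms) := by
      rw [hs, succ_nsmul]
      have : κ + (l • wt q + wt q) + tot wt P ms = (κ + l • wt q + tot wt P ms) + wt q := by
        abel
      rw [this, cod_add _ (wt q), Nat.add_sub_cancel]
    have h6 := ih (Tb.cons S Ss) (s - cod (wt q)) hs' (fun x => by
      have := hv x
      rw [add_mul] at this
      omega) h3
    rw [crow, hor_cons]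
    have e : κ + (l + 1) • wt q = κ + l • wt q + wt q := by rw [succ_nsmul, ← add_assoc]
    rw [e] at h2 ⊢
    have h7 := zipT_sound (W := W) (wt := wt) q
      (fun s v v' => fd ((m.choose (l + 1) % 7) * v' + f q s v))
      (fun a a' => (m.choose (l + 1)) • a' + sem q • a) RF RF RF ?_ P ms (κ + l • wt q) _ R _ _
      (s - cod (wt q)) hs' ?_ h6 h2
    · exact h7
    · intro κ' v v' a a' hκ hva hva'
      have h8 := H.smul (m.choose (l + 1) % 7) _ _ _ (by
        have := Nat.mod_lt (m.choose (l + 1)) (show 7 > 0 by norm_num)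
        omega) hva'
      rw [mod_seven H.seven] at h8
      exact H.fold 2 _ _ _ (by norm_num) (H.add 1 _ _ _ _ _ h8 (H.mv q κ' v a hκ hva))
    · intro x
      have := hv x
      simp only [Pi.add_apply, Pi.smul_apply, smul_eq_mul, add_mul, one_mul] at this ⊢
      omega

theorem cmb_sound (H : SoundC wt sem RF RU f fd) (q : Op) (P : List Op) (ms : List ℕ)
    (κ : Fin 3 → ℕ) (G : ℕ → List ℕ → W) (m : ℕ) (T : Tb) (s : ℕ)
    (hs : s = cod (κ + m • wt q + tot wt P ms))
    (hv : ∀ x, κ x + m * wt q x + tot wt P ms x ≤ 6)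
    (hT : RL (fun t S => RT wt RF P ms (κ + t • wt q) S (G t)) m T) :
    RL (fun t S => RT wt RF P ms (κ + t • wt q) S
      (fun ms' => horV (sem q) (fun l => G l ms') t t)) m
      (cmb (fun p => cod (wt p)) fd f q P T (crows m) s) := by
  induction m generalizing T s with
  | zero =>
    have h1 := hor_sound H q P 0 ms κ G 0 T s hs hv hT
    obtain ⟨S, rfl, h2⟩ := hT
    exact ⟨_, by rw [crows, cmb_cons, cmb_nil], h1⟩
  | succ m ih =>
    have h1 := hor_sound H q P (m + 1) ms κ G (m + 1) T s hs hv hT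
    obtain ⟨R, Rs, rfl, h2, h3⟩ := hT
    have h4 := ih Rs (s - cod (wt q)) ?_ ?_ h3
    · exact ⟨_, _, by rw [crows, cmb_cons], h1, h4⟩
    · rw [hs, succ_nsmul]
      have : κ + (m • wt q + wt q) + tot wt P ms = (κ + m • wt q + tot wt P ms) + wt q := by
        abel
      rw [this, cod_add _ (wt q), Nat.add_sub_cancel]
    · intro x
      have := hv x
      rw [add_mul] at this
      omega

/-- operators with their coefficient rows -/
def rowsOf : List Op → List ℕ → List (Op × List (List ℕ))
  | p :: P, m :: ms => (p, crows m) :: rowsOf P ms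
  | _, _ => []

theorem round_sound (H : SoundC wt sem RF RU f fd) (P : List Op) (ms : List ℕ)
    (κ : Fin 3 → ℕ) (T : Tb) (V : List ℕ → W) (s : ℕ) (hs : s = cod (κ + tot wt P ms))
    (hv : ∀ x, κ x + tot wt P ms x ≤ 6) (hT : RT wt RF P ms κ T V) :
    RT wt RF P ms κ (round (fun p => cod (wt p)) fd f (rowsOf P ms) P s T)
      (iterT (P.map sem) V) := by
  induction P generalizing ms κ T V s with
  | nil =>
    cases ms with
    | nil => exact hT
    | cons m ms => exact absurd hT (fun h => h)
  | cons p P ih =>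
    cases ms with
    | nil => exact absurd hT (fun h => h)
    | cons m ms =>
      change RL _ m T at hT
      rw [rowsOf, round_cons]
      change RL _ m _
      -- the inner rounds
      have h1 : ∀ (t : ℕ) (T : Tb) (s : ℕ), t ≤ m →
          s = cod (κ + tot wt (p :: P) (t :: ms)) →
          RL (fun t S => RT wt RF P ms (κ + t • wt p) S (fun ms' => V (t :: ms'))) t T →
          RL (fun t S => RT wt RF P ms (κ + t • wt p) S
            (iterT (P.map sem) (fun ms' => V (t :: ms')))) t
            (mapL (cod (wt p)) (round (fun p => cod (wt p)) fd f (rowsOf P ms) P) T s) := by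
        intro t
        induction t with
        | zero =>
          intro T s _ hs hT
          obtain ⟨S, rfl, h2⟩ := hT
          refine ⟨_, by rw [mapL_cons, mapL_nil], ?_⟩
          refine ih ms _ S _ s ?_ ?_ h2
          · rw [hs]
            simp only [tot]
            rw [add_assoc]
          · intro x
            have := hv x
            simp only [tot, Pi.add_apply, Pi.smul_apply, smul_eq_mul] at this ⊢
            omega
        | succ t iht =>
          intro T s ht hs hT
          obtain ⟨S, Ss, rfl, h2, h3⟩ := hT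
          refine ⟨_, _, by rw [mapL_cons], ?_, ?_⟩
          · refine ih ms _ S _ s ?_ ?_ h2
            · rw [hs]
              simp only [tot]
              rw [add_assoc]
            · intro x
              have := hv x
              simp only [tot, Pi.add_apply, Pi.smul_apply, smul_eq_mul] at this ⊢
              have h4 : (t + 1) * wt p x ≤ m * wt p x := Nat.mul_le_mul_right _ ht
              omega
          · refine iht Ss _ (by omega) ?_ h3
            rw [hs, ← tot_succ_sub wt p P t ms κ]
      have h2 := h1 m T s le_rfl hs hT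
      have h3 := cmb_sound H p P ms κ
        (fun t => iterT (P.map sem) (fun ms' => V (t :: ms'))) m _ s ?_ ?_ h2
      · refine RL_mono (fun t S hS => RT_congr wt RF _ _ _ _ _ _ (fun ms' _ => ?_) hS) m _ h3
        rw [horV_eq, List.map_cons, iterT]
        rw [← sum_range_reflect]
        refine sum_congr rfl (fun i hi => ?_)
        rw [mem_range] at hi
        have e1 : t + 1 - 1 - i = t - i := by omega
        have e2 : t - (t - i) = i := by omega
        rw [e1, e2, Nat.choose_symm (by omega)]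
      · rw [hs]
        simp only [tot]
        rw [add_assoc]
      · intro x
        have := hv x
        simp only [tot, Pi.add_apply, Pi.smul_apply, smul_eq_mul] at this
        omega

end sound

/-! ### Sums over the rounds -/

/-- the table with `y` at the zero multiplicities and `0` elsewhere -/
noncomputable def initT (ms : List ℕ) : ℕ → Tb :=
  List.rec (motive := fun _ => ℕ → Tb) (fun y => Tb.leaf y)
    (fun m _ ih y => Nat.rec (motive := fun _ => Tb) (Tb.cons (ih y) Tb.nil)
      (fun _ L => Tb.cons (ih 0) L) m) ms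

/-- sum of the values of the heads of `T, rd T, rd (rd T), …` -/
noncomputable def rsum (g : ℕ → ℕ) (rd : Tb → Tb) (n : ℕ) : Tb → ℕ :=
  Nat.rec (motive := fun _ => Tb → ℕ) (fun T => g (headT T))
    (fun _ ih T => Nat.add (g (headT T)) (ih (rd T))) n

section sumsound

variable {A W : Type*} [Ring A] [AddCommGroup W] [Module A W]
variable {Op : Type} {wt : Op → Fin 3 → ℕ} {sem : Op → A}
variable {RF : (Fin 3 → ℕ) → ℕ → W → Prop} {RU : ℕ → (Fin 3 → ℕ) → ℕ → W → Prop}
variable {f : Op → ℕ → ℕ → ℕ} {fd : ℕ → ℕ}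

theorem initT_sound (hz : ∀ κ, RF κ 0 0) (P : List Op) (ms : List ℕ) (hl : ms.length = P.length)
    (κ : Fin 3 → ℕ) (y : ℕ) (a : W) (h : RF κ y a) :
    RT wt RF P ms κ (initT ms y) (fun ms' => if ms'.sum = 0 then a else 0) := by
  induction P generalizing ms κ y a with
  | nil =>
    cases ms with
    | nil =>
      refine ⟨y, rfl, ?_⟩
      beta_reduce
      rw [List.sum_nil, if_pos rfl]
      exact h
    | cons m ms => simp at hl
  | cons p P ih =>
    cases ms with
    | nil => simp at hl
    | cons m ms =>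
      have hl' : ms.length = P.length := by simpa using hl
      change RL _ m _
      induction m with
      | zero =>
        refine ⟨_, rfl, ?_⟩
        have h1 := ih ms hl' (κ + 0 • wt p) y a (by rw [zero_nsmul, add_zero]; exact h)
        refine RT_congr wt RF _ _ _ _ _ _ (fun ms' _ => ?_) h1
        beta_reduce
        rw [List.sum_cons, zero_add]
      | succ m ihm =>
        refine ⟨_, _, rfl, ?_, ihm (by simpa using hl')⟩
        have h1 := ih ms hl' (κ + (m + 1) • wt p) 0 0 (hz _)
        refine RT_congr wt RF _ _ _ _ _ _ (fun ms' _ => ?_) h1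
        beta_reduce
        rw [List.sum_cons, if_neg (show ¬ (m + 1 + ms'.sum = 0) by omega), ite_self]

theorem rsum_sound (H : SoundC wt sem RF RU f fd) (hz : ∀ κ, RF κ 0 0) (P : List Op)
    (ms : List ℕ) (hl : ms.length = P.length) (κ : Fin 3 → ℕ) (y : ℕ) (a : W) (h : RF κ y a)
    (hv : ∀ x, κ x + tot wt P ms x ≤ 6) (s : ℕ) (hs : s = cod (κ + tot wt P ms)) (g : ℕ → ℕ)
    (L : W →+ ZMod 7)
    (hg : ∀ y a, RF (κ + tot wt P ms) y a → ((g y : ℕ) : ZMod 7) = L a) (n : ℕ) :
    ((rsum g (round (fun p => cod (wt p)) fd f (rowsOf P ms) P s) n (initT ms y) : ℕ) : ZMod 7)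
      = L (∑ j ∈ range (n + 1), VV (P.map sem) a j ms) := by
  have key : ∀ (n j : ℕ) (T : Tb), RT wt RF P ms κ T (VV (P.map sem) a j) →
      ((rsum g (round (fun p => cod (wt p)) fd f (rowsOf P ms) P s) n T : ℕ) : ZMod 7)
        = L (∑ i ∈ range (n + 1), VV (P.map sem) a (j + i) ms) := by
    intro n
    induction n with
    | zero =>
      intro j T hT
      rw [sum_range_one]
      exact hg _ _ (head_sound _ _ _ _ _ hT)
    | succ n ih =>
      intro j T hT
      have h1 := round_sound H P ms κ T _ s hs hv hT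
      have h2 := ih (j + 1) _ h1
      change ((g (headT T) + rsum g _ n _ : ℕ) : ZMod 7) = _
      rw [Nat.cast_add, h2, hg _ _ (head_sound _ _ _ _ _ hT), sum_range_succ' _ (n + 1), map_add,
        add_comm]
      congr 1
      congr 1
      refine sum_congr rfl (fun i _ => ?_)
      congr 1
      omega
  have h1 := initT_sound (wt := wt) hz P ms hl κ y a h
  have h2 := key n 0 (initT ms y) h1
  rw [h2]
  congr 1
  refine sum_congr rfl (fun i _ => ?_)
  rw [zero_add]

end sumsound

end Pool.Agent.Work.MP_bde882_al.DP
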