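import Pool.Agent.Work.MP_bde882_al_h64.Words3
import Pool.Agent.Work.MP_bde882_al_red.Bch

/-!
Final glue: a function on words, killed by the `(p-1)`-st powers of a Lie ring of operators and by
the long rearrangement sums, gives the group.
-/

set_option autoImplicit false

namespace Pool.Agent.Work.MP_bde882_al.Red

open Finset

section out

variable {p : ℕ}

/-- functions on words -/
abbrev Fn (p : ℕ) : Type := List (Fin 3) → ZMod p

/-- append a letter -/
def Xop (p : ℕ) (i : Fin 3) : Module.End (ZMod p) (Fn p) where
  toFun g := fun u => g (u ++ [i])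
  map_add' _ _ := rfl
  map_smul' _ _ := rfl

theorem Xop_apply (i : Fin 3) (g : Fn p) (u : List (Fin 3)) : Xop p i g u = g (u ++ [i]) := rfl

theorem Xop_prod (r : List (Fin 3)) (g : Fn p) (u : List (Fin 3)) :
    ((r.map (Xop p)).prod) g u = g (u ++ r) := by
  induction r generalizing u with
  | nil => simp
  | cons a r ih =>
    rw [List.map_cons, List.prod_cons, Module.End.mul_apply, Xop_apply, ih]
    rw [List.append_assoc, List.singleton_append]

/-- evaluation at a word -/
def evW (u : List (Fin 3)) : Fn p →+ ZMod p where
  toFun g := g u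
  map_zero' := rfl
  map_add' _ _ := rfl

theorem cop_apply (F : Fn p) (u v : List (Fin 3)) :
    (cop p F (v.map (Xop p))) u = csum p v (fun r => F (u ++ r)) := by
  change evW u (cop p F (v.map (Xop p))) = _
  unfold cop
  rw [csum_hom, csum_map]
  congr 1
  funext r
  exact Xop_prod r F u

theorem csum_eq_zero (t : List (Fin 3)) (Φ : List (Fin 3) → ZMod p)
    (h : ∀ r, r.Perm t → Φ r = 0) : csum p t Φ = 0 := by
  unfold csum
  exact sum_eq_zero (fun m _ => arr_eq_zero m t Φ h)

theorem length_eq_counts (l : List (Fin 3)) :
    l.length = l.count 0 + l.count 1 + l.count 2 := by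
  induction l with
  | nil => rfl
  | cons a l ih =>
    rw [List.length_cons, ih]
    fin_cases a <;> simp <;> omega

/-- the sorted word of full content -/
def top3 (p : ℕ) : List (Fin 3) :=
  List.replicate (p - 1) 0 ++ (List.replicate (p - 1) 1 ++ List.replicate (p - 1) 2)

theorem count_top3 (i : Fin 3) : (top3 p).count i = p - 1 := by
  unfold top3
  fin_cases i <;> simp [List.count_replicate]

variable {A W : Type*} [Ring A] [AddCommGroup W] [Module A W]

/-- permutation invariance when the shorter sums vanish -/
theorem cop_perm (w : W) (L : Set A) (hL : ∀ x ∈ L, ∀ y ∈ L, x * y - y * x ∈ L) (n : ℕ)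
    (hz : ∀ zs : List A, (∀ z ∈ zs, z ∈ L) → zs.length + 1 = n → cop p w zs = 0)
    (l l' : List A) (h : l.Perm l') : ∀ pre : List A, (pre ++ l).length = n →
      (∀ z ∈ pre ++ l, z ∈ L) → cop p w (pre ++ l) = cop p w (pre ++ l') := by
  induction h with
  | nil => intro pre _ _; rfl
  | cons x _ ih =>
    intro pre hlen hmem
    have := ih (pre ++ [x]) (by simpa using hlen) (by simpa using hmem)
    simpa using this
  | swap x y l =>
    intro pre hlen hmem
    rw [cop_swap, hz (pre ++ (y * x - x * y) :: l), add_zero]
    · intro z hz'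
      rw [List.mem_append, List.mem_cons] at hz'
      rcases hz' with h1 | rfl | h1
      · exact hmem z (List.mem_append_left _ h1)
      · exact hL _ (hmem y (by simp)) _ (hmem x (by simp))
      · exact hmem z (by simp [h1])
    · rw [List.length_append, List.length_cons, List.length_cons] at hlen
      rw [List.length_append, List.length_cons]
      omega
  | trans h1 _ ih1 ih2 =>
    intro pre hlen hmem
    rw [ih1 pre hlen hmem, ih2 pre]
    · rw [← hlen, List.length_append, List.length_append, h1.length_eq]
    · intro z hz'
      rw [List.mem_append] at hz'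
      rcases hz' with h3 | h3
      · exact hmem z (List.mem_append_left _ h3)
      · exact hmem z (List.mem_append_right _ (h1.mem_iff.2 h3))

/-- **Final glue.** -/
theorem goal_of_long (hp : p.Prime) (F : Fn p)
    (hcont : ∀ v : List (Fin 3), (¬ ∀ i, v.count i = p - 1) → F v = 0)
    (L : Submodule (ZMod p) (Module.End (ZMod p) (Fn p)))
    (hX : ∀ i, Xop p i ∈ L) (hL : ∀ x ∈ L, ∀ y ∈ L, x * y - y * x ∈ L)
    (hpow : ∀ z ∈ L, (z ^ (p - 1)) F = 0)
    (hlong : ∀ zs : List (Module.End (ZMod p) (Fn p)), (∀ z ∈ zs, z ∈ L) →
      2 * (p - 1) ≤ zs.length → zs.length < 3 * (p - 1) → cop p F zs = 0)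
    (hT : cop p F ((top3 p).map (Xop p)) [] ≠ 0) : Goal := by
  have hfact := Fact.mk hp
  have hp2 := hp.two_le
  have hshort : ∀ zs : List (Module.End (ZMod p) (Fn p)), (∀ z ∈ zs, z ∈ L) →
      zs.length < 3 * (p - 1) → cop p F zs = 0 := by
    intro zs hzs hlen
    by_cases h : zs.length < 2 * (p - 1)
    · exact cop_eq_zero_of_pow F L hL hpow zs hzs h
    · exact hlong zs hzs (not_lt.1 h) hlen
  refine goal_of_words3 hp F _ hT ?_
  intro u v
  rw [← cop_apply]
  have hv : ∀ z ∈ v.map (Xop p), z ∈ L := by
    intro z hz
    obtain ⟨i, _, rfl⟩ := List.mem_map.1 hz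
    exact hX i
  by_cases hlen : v.length < 3 * (p - 1)
  · rw [hshort _ hv (by rw [List.length_map]; exact hlen), if_neg]
    · rfl
    · rintro ⟨_, h⟩
      have h1 := length_eq_counts v
      rw [h, h, h] at h1
      omega
  · by_cases hc : u = [] ∧ (∀ i, v.count i = p - 1)
    · rw [if_pos hc]
      obtain ⟨rfl, hc⟩ := hc
      have hperm : v.Perm (top3 p) := by
        rw [List.perm_iff_count]
        intro i
        rw [hc i, count_top3]
      have hlen' : v.length = 3 * (p - 1) := by
        rw [length_eq_counts v, hc, hc, hc]
        omega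
      have h1 := cop_perm (p := p) F (L : Set (Module.End (ZMod p) (Fn p))) hL (3 * (p - 1))
        (fun zs hzs h => hshort zs hzs (by omega)) (v.map (Xop p)) ((top3 p).map (Xop p))
        (hperm.map _) [] (by rw [List.nil_append, List.length_map]; exact hlen')
        (by rw [List.nil_append]; exact hv)
      rw [List.nil_append, List.nil_append] at h1
      rw [h1]
    · rw [if_neg hc, cop_apply]
      refine csum_eq_zero _ _ ?_
      intro r hr
      apply hcont
      intro h
      have h1 := length_eq_counts (u ++ r)
      rw [h, h, h, List.length_append, hr.length_eq] at h1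
      have hu : u = [] := by
        apply List.eq_nil_of_length_eq_zero
        omega
      subst hu
      apply hc
      refine ⟨rfl, fun i => ?_⟩
      rw [← h i, List.nil_append, hr.count_eq]

end out

end Pool.Agent.Work.MP_bde882_al.Red
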