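import Pool.Agent.Work.MP_bde882_al_h64.DP

/-!
Soundness of the recursion over all orders (evaluated with memoisation by the kernel).
-/

set_option autoImplicit false

namespace Pool.Agent.Work.MP_bde882_al.DP

open Finset
open Pool.Agent.Work.MP_bde882_al.Red

section pv

variable {A W : Type*} [Ring A] [AddCommGroup W] [Module A W]
variable {Op : Type} {wt : Op → Fin 3 → ℕ} {sem : Op → A}
variable {RF : (Fin 3 → ℕ) → ℕ → W → Prop} {RU : ℕ → (Fin 3 → ℕ) → ℕ → W → Prop}
variable {f : Op → ℕ → ℕ → ℕ} {fd : ℕ → ℕ}

theorem cod_cont (t : List Op) : cod (cont wt t) = (t.map (fun p => cod (wt p))).sum := by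
  induction t with
  | nil => rfl
  | cons p t ih => rw [cont_cons, cod_add, ih, List.map_cons, List.sum_cons]

theorem cont_perm {l l' : List Op} (h : l.Perm l') : cont wt l = cont wt l' := by
  unfold cont
  exact (h.map wt).sum_eq

/-- sums over the selections of a list -/
theorem sel_rel (H : Sound wt sem RF RU f fd) (κ : Fin 3 → ℕ) (hz : RU 0 κ 0 0)
    (l : List Op) (F : Op → List Op → ℕ) (G : Op → List Op → W)
    (hFG : ∀ x t, (x :: t).Perm l → RU 1 κ (F x t) (G x t)) :
    RU l.length κ (sel l F) (sel l G) := by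
  induction l generalizing F G with
  | nil => exact hz
  | cons a l ih =>
    simp only [sel, List.length_cons]
    have h1 := hFG a l (List.Perm.refl _)
    have h2 := ih (fun y t => F y (a :: t)) (fun y t => G y (a :: t))
      (fun x t hx => hFG x (a :: t) ((List.Perm.swap a x t).trans (hx.cons a)))
    have h3 := H.add _ κ _ _ _ _ h2 h1
    rw [Nat.add_comm (F a l), add_comm (G a l)]
    exact h3

/-- **Soundness of the recursion over all orders.** -/
theorem pv_sound (H : Sound wt sem RF RU f fd) (hz : ∀ κ, RU 0 κ 0 0) (κ0 : Fin 3 → ℕ) (a0 : W)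
    (y0 : ℕ) (h : RF κ0 y0 a0) (pv : ℕ → List Op → ℕ) (h0 : ∀ l, pv 0 l = y0)
    (h1 : ∀ n l, pv (n + 1) l = fd (sel l (fun x t =>
      f x (cod κ0 + (t.map (fun p => cod (wt p))).sum) (pv n t))))
    (n : ℕ) (l : List Op) (hl : l.length = n) (hn : n ≤ 6)
    (hv : ∀ x, κ0 x + cont wt l x ≤ 6) :
    RF (κ0 + cont wt l) (pv n l) (syn sem a0 n l) := by
  induction n generalizing l with
  | zero =>
    rw [List.length_eq_zero_iff] at hl
    subst hl
    rw [h0]
    change RF (κ0 + 0) y0 a0
    rw [add_zero]
    exact h
  | succ n ih =>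
    rw [h1]
    simp only [syn]
    refine H.fold l.length _ _ _ (by omega) ?_
    refine sel_rel H _ (hz _) l _ _ (fun x t hx => ?_)
    have hlen : t.length = n := by
      have := hx.length_eq
      rw [List.length_cons] at this
      omega
    have hc : cont wt l = cont wt t + wt x := by
      rw [← cont_perm hx, cont_cons, add_comm]
    have hv' : ∀ y, κ0 y + cont wt t y + wt x y ≤ 6 := by
      intro y
      have := hv y
      rw [hc, Pi.add_apply] at this
      omega
    have h2 := ih t hlen (by omega) (fun y => by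
      have := hv' y
      omega)
    have h3 := H.mv x (κ0 + cont wt t) _ _ (fun y => hv' y) h2
    rw [cod_add, cod_cont] at h3
    rw [hc, ← add_assoc]
    exact h3

end pv

end Pool.Agent.Work.MP_bde882_al.DP
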