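import Pool.Agent.Work.MP_bde882_al_h64.TabStep2
import Pool.Agent.Work.MP_bde882_al_h87.Model

/-!
Correct tables: the table of `a :: w` from the tables of `a` and of `w`.
-/

set_option autoImplicit false

namespace Pool.Agent.Work.MP_bde882_al.TS64

open Finset
open Pool.Agent.Work.MP_bde882_al.Pk
open Pool.Agent.Work.MP_bde882_al.H87
open Pool.Agent.Work.MP_bde882_al.Fin8
open Pool.Agent.Work.MP_bde882_al.DP (cod)
open Pool.Agent.Work.MP_bde882_al.Pg62 (Tr Op Blk find find_lf find_nd tmask mdl apB trO)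

theorem fitB_of {ca cb cc β : ℕ} (hβ : β < 343) (h0 : dg 0 β + ca ≤ 6) (h1 : dg 1 β + cb ≤ 6)
    (h2 : dg 2 β + cc ≤ 6) : fitB ca cb cc β = true := by
  have e0 : dg 0 β = β / 49 % 7 := rfl
  have e1 : dg 1 β = β / 7 % 7 := rfl
  have e2 : dg 2 β = β / 1 % 7 := rfl
  have a0 : Nat.ble (β / 49 + ca) 6 = true := Nat.ble_eq_true_of_le (by omega)
  have a1 : Nat.ble (β / 7 % 7 + cb) 6 = true := Nat.ble_eq_true_of_le (by omega)
  have a2 : Nat.ble (β % 7 + cc) 6 = true := Nat.ble_eq_true_of_le (by omega)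
  change an (Nat.ble (β / 49 + ca) 6) (an (Nat.ble (β / 7 % 7 + cb) 6)
    (Nat.ble (β % 7 + cc) 6)) = true
  rw [a0, a1, a2]
  rfl

theorem cov_true {DD : ℕ → ℕ} {ca cb cc sh : ℕ} {tr : Tr} (h : cov DD ca cb cc sh tr = true)
    {β : ℕ} (hβ : β < 343) (hf : fitB ca cb cc β = true) (hno : find β tr = Blk.no) :
    DD β = 0 ∨ DD (β + sh) = 0 := by
  have h1 := allN_true h β hβ
  rw [hf, hno] at h1
  by_contra hc
  rw [not_or] at hc
  have a1 : Nat.ble 1 (DD β) = true := Nat.ble_eq_true_of_le (Nat.one_le_iff_ne_zero.2 hc.1)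
  have a2 : Nat.ble 1 (DD (Nat.add β sh)) = true :=
    Nat.ble_eq_true_of_le (Nat.one_le_iff_ne_zero.2 hc.2)
  rw [a1, a2] at h1
  exact Bool.false_ne_true h1

/-- **A correct table** of the word `w`. -/
structure Good (w : List (Fin 3)) (tr : Tr) : Prop where
  node : Node dm (tgtW w) tr
  cover : ∀ β < 343, (∀ i, dg i β + ct w i ≤ 6) → find β tr = Blk.no →
    dm β = 0 ∨ dm (β + tgtW w) = 0
  val : ∀ β < 343, (∀ i, dg i β + ct w i ≤ 6) → ∀ t < dm β, ∀ r < dm (β + tgtW w),
    MO HH w β r t = (mB (find β tr) r t : ZMod 7)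

theorem cover_of {w : List (Fin 3)} {ca cb cc : ℕ} {tr : Tr}
    (e0 : ct w 0 = ca) (e1 : ct w 1 = cb) (e2 : ct w 2 = cc)
    (h : cov dm ca cb cc (tgtW w) tr = true) :
    ∀ β < 343, (∀ i, dg i β + ct w i ≤ 6) → find β tr = Blk.no →
      dm β = 0 ∨ dm (β + tgtW w) = 0 := by
  intro β hβ hfit hno
  refine cov_true h hβ (fitB_of hβ ?_ ?_ ?_) hno
  · rw [← e0]; exact hfit 0
  · rw [← e1]; exact hfit 1
  · rw [← e2]; exact hfit 2

theorem dg_fit_one {a : Fin 3} {β : ℕ} (h : ∀ i, dg i β + ct [a] i ≤ 6) : dg a β < 6 := by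
  have h1 := h a
  have h2 : ct [a] a = 1 := by
    unfold ct
    simp
  omega

/-- letters -/
theorem good_letter (a : Fin 3) {tr : Tr} {s ca cb cc : ℕ}
    (e : sh a = s ∧ ct [a] 0 = ca ∧ ct [a] 1 = cb ∧ ct [a] 2 = cc)
    (h1 : chk1 dm s tr = true) (h2 : cov dm ca cb cc s tr = true)
    (hx : ∀ β < 343, dg a β < 6 → ∀ t < dm β, ∀ r < dm (β + sh a),
      xh HH a β r t = (mB (find β tr) r t : ZMod 7)) : Good [a] tr := by
  have e1 : tgtW [a] = s := by
    rw [tgtW_single]
    exact e.1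
  refine ⟨?_, cover_of e.2.1 e.2.2.1 e.2.2.2 (by rw [e1]; exact h2), ?_⟩
  · rw [e1]
    exact node_chk1 h1
  · intro β hβ hfit t ht r hr
    have hda := dg_fit_one hfit
    rw [tgtW_single] at hr
    have hup := dg_up β hβ a (by omega)
    rw [MO_single a β r t hβ hda (by rw [DH_HH β hβ]; exact ht)
      (by rw [DH_HH _ hup.1]; exact hr)]
    exact hx β hβ hda t ht r hr

/-- the values of a letter -/
theorem Good.xval {a : Fin 3} {tr : Tr} (g : Good [a] tr) {β t r : ℕ} (hβ : β < 343)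
    (hda : dg a β < 6) (ht : t < dm β) (hr : r < dm (β + sh a)) :
    xh HH a β r t = (mB (find β tr) r t : ZMod 7) := by
  have hup := dg_up β hβ a (by omega)
  rw [← MO_single a β r t hβ hda (by rw [DH_HH β hβ]; exact ht) (by rw [DH_HH _ hup.1]; exact hr)]
  refine g.val β hβ (fun i => ?_) t ht r (by rw [tgtW_single]; exact hr)
  have h1 : ct [a] i = if a = i then 1 else 0 := by
    unfold ct
    rw [List.count_cons, List.count_nil, zero_add]
    by_cases h : a = i
    · rw [if_pos h]; simp [h]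
    · rw [if_neg h]; simp [h]
  rw [h1]
  have h2 : dg i β < 7 := Nat.mod_lt _ (by norm_num)
  split_ifs with h
  · rw [← h]
    omega
  · omega

/-- **The step**: `a :: w` from `a` and `w`. -/
theorem good_step {a : Fin 3} {w : List (Fin 3)} {tr tx tw : Tr} {sA sW ca cb cc : ℕ}
    (gx : Good [a] tx) (gw : Good w tw) (hw : w ≠ [])
    (e : sh a = sA ∧ tgtW w = sW ∧ ct (a :: w) 0 = ca ∧ ct (a :: w) 1 = cb ∧ ct (a :: w) 2 = cc)
    (hc : chk2 dm sA sW tr tx tw = true) (hv : cov dm ca cb cc (Nat.add sA sW) tr = true) :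
    Good (a :: w) tr := by
  obtain ⟨eA, eW, e0, e1, e2⟩ := e
  have eAW : tgtW (a :: w) = sA + sW := by rw [tgtW_cons, eA, eW]
  have hcov := cover_of (tr := tr) e0 e1 e2 (by rw [eAW]; exact hv)
  refine ⟨by rw [eAW]; exact node_chk2 hc, hcov, ?_⟩
  intro β hβ hfit t ht r hr
  have hno : find β tr ≠ Blk.no := by
    intro h
    rcases hcov β hβ hfit h with h1 | h1
    · rw [h1] at ht
      exact absurd ht (Nat.not_lt_zero _)
    · rw [h1] at hr
      exact absurd hr (Nat.not_lt_zero _)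
  have hfit' : ∀ i, dg i β + ct w i + (Pi.single a 1 : Fin 3 → ℕ) i ≤ 6 := by
    intro i
    have := hfit i
    rw [ct_cons, Pi.add_apply] at this
    omega
  have hda : dg a β + ct w a + 1 ≤ 6 := by
    have := hfit' a
    rwa [Pi.single_eq_same] at this
  have hup := dg_up β hβ a (by omega)
  have hdgup : ∀ i, dg i (β + sh a) = dg i β + (Pi.single a 1 : Fin 3 → ℕ) i := by
    intro i
    have := (dg_facts _ hup.1 a hup.2).2 i
    rw [Nat.add_sub_cancel] at this
    rw [this]
    congr 1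
    by_cases h : i = a
    · subst h
      rw [if_pos rfl, Pi.single_eq_same]
    · rw [if_neg h, Pi.single_eq_of_ne h]
  obtain ⟨hb1, hd1⟩ := blk_fit w β hβ (fun i => by have := hfit' i; omega)
  obtain ⟨hb2, hd2⟩ := blk_fit (a :: w) β hβ hfit
  have e3 : β + tgtW w + sh a = β + tgtW (a :: w) := by rw [tgtW_cons]; ring
  have e4 : β + sh a + tgtW w = β + tgtW (a :: w) := by rw [tgtW_cons]; ring
  have hda1 : dg a (β + tgtW w) < 6 := by
    rw [hd1 a]
    omega
  have hda0 : dg a β < 6 := by omega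
  rw [MO_cons a w hw β r t hβ hfit (by rw [DH_HH β hβ]; exact ht)
    (by rw [DH_HH _ hb2]; exact hr), DH_HH _ hb1, DH_HH _ hup.1]
  rw [eAW] at hr
  have hst := step hc (by rw [← eA, ← tgtW_single]; exact gx.node) (by rw [← eW]; exact gw.node)
    ht hr hno
  rw [hst, ← eA, ← eW]
  congr 1
  · refine sum_congr rfl (fun s hs => ?_)
    rw [mem_range] at hs
    congr 1
    · refine gx.xval hb1 hda1 hs ?_
      rw [e3, eAW]
      exact hr
    · exact gw.val β hβ (fun i => by have := hfit' i; omega) t ht s hs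
  · refine sum_congr rfl (fun s hs => ?_)
    rw [mem_range] at hs
    congr 1
    · refine gw.val (β + sh a) hup.1 (fun i => ?_) s hs r ?_
      · rw [hdgup i]
        have := hfit' i
        omega
      · rw [e4, eAW]
        exact hr
    · exact gx.xval hβ hda0 ht hs

/-- **The tables in the form used by the packed programs.** -/
theorem Good.blkOk {w : List (Fin 3)} {tr : Tr} (g : Good w tr) {β : ℕ} (hβ : β < 343)
    (hfit : ∀ i, dg i β + ct w i ≤ 6) : BlkOk HH wcut w β (find β tr) := by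
  obtain ⟨hb, -⟩ := blk_fit w β hβ hfit
  cases hf : find β tr with
  | no =>
    intro t ht r hr
    rw [DH_HH β hβ] at ht
    rw [DH_HH _ hb] at hr
    rcases g.cover β hβ hfit hf with h1 | h1
    · rw [h1] at ht
      exact absurd ht (Nat.not_lt_zero _)
    · rw [h1] at hr
      exact absurd hr (Nat.not_lt_zero _)
  | mk K N off ch =>
    obtain ⟨h1, h2⟩ := g.node β K N off ch hf
    refine ⟨h1.h1, ?_, ?_, h1.hc, fun p => dig ch (off + p), wcut_spec 30 (by norm_num) ch off _,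
      fun l _ => h1.hd _, ?_⟩
    · rw [DH_HH β hβ, h1.hK]
    · rw [DH_HH _ hb]
      exact h1.hr
    · intro i hi t ht
      rw [DH_HH β hβ] at ht
      rw [DH_HH _ hb]
      have h3 := mB_slot off ch h1.hc i t hi
      split_ifs with h4
      · rw [g.val β hβ hfit t ht _ h4, hf, h3]
      · have h5 := h2 t (by rw [h1.hK]; exact ht) (slot K N i) (not_lt.1 h4)
        rw [h3] at h5
        exact h5

theorem dg_cod (κ : Fin 3 → ℕ) (h : ∀ i, κ i ≤ 6) : cod κ < 343 ∧ ∀ i, dg i (cod κ) = κ i :=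
  dg_of_tgt κ h

/-- **All tables are correct.** -/
theorem tabOk_of {J : Type} (o : J → Op) (word : J → List (Fin 3))
    (h : ∀ j, Good (word j) (trO (o j))) : TabOk HH wcut o word := by
  intro j κ hκ
  obtain ⟨h1, h2⟩ := dg_cod κ (fun i => by have := hκ i; omega)
  exact (h j).blkOk h1 (fun i => by rw [h2 i]; exact hκ i)

end Pool.Agent.Work.MP_bde882_al.TS64
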