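import Pool.Agent.Work.MP_bde882_al_h87.Widen
import Pool.Agent.Work.MP_bde882_al_h40.Mv2
import Pool.Agent.Work.MP_bde882_al_h62.Prog

/-!
Checker for the operator tables: one word at a time, columnwise, with lanes of 18 bits.
-/

set_option autoImplicit false

namespace Pool.Agent.Work.MP_bde882_al.TS64

open Finset
open Pool.Agent.Work.MP_bde882_al.Pk
open Pool.Agent.Work.MP_bde882_al.H87 (dig wcut wcut_spec dig_lt shl_eq shr_eq land_eq)
open Pool.Agent.Work.MP_bde882_al.Pg62 (Tr Op Blk find find_lf find_nd tmask mdl apB)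

/-! ### Digits of a block -/

/-- entry of the table of a block: row `r`, column `t` -/
def mB : Blk → ℕ → ℕ → ℕ
  | .no, _, _ => 0
  | .mk K N off ch, r, t =>
    ∑ i ∈ range N, if slot K N i = r then dig ch (off + (K * i + (K - 1) - t)) else 0

theorem mB_mk (K N off : ℕ) (ch : List ℕ) (r t : ℕ) : mB (Blk.mk K N off ch) r t
    = ∑ i ∈ range N, if slot K N i = r then dig ch (off + (K * i + (K - 1) - t)) else 0 := rfl

theorem mB_slot {K N : ℕ} (off : ℕ) (ch : List ℕ) (hc : Nat.Coprime K N) (i t : ℕ) (hi : i < N) :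
    mB (Blk.mk K N off ch) (slot K N i) t = dig ch (off + (K * i + (K - 1) - t)) := by
  rw [mB_mk, sum_eq_single i]
  · rw [if_pos rfl]
  · intro j hj hne
    rw [if_neg]
    intro h
    exact hne (slot_inj hc (by simpa using hj) (by simpa using hi) h)
  · intro h
    exact absurd (mem_range.2 hi) h

theorem mB_of_ge {K N : ℕ} (off : ℕ) (ch : List ℕ) (hN : 0 < N) (r t : ℕ) (hr : N ≤ r) :
    mB (Blk.mk K N off ch) r t = 0 := by
  rw [mB_mk]
  refine sum_eq_zero (fun i _ => ?_)
  rw [if_neg]
  intro h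
  have := slot_lt (K := K) (i := i) hN
  omega

theorem mB_le {K N : ℕ} (off : ℕ) (ch : List ℕ) (hc : Nat.Coprime K N) (hN : 0 < N) (r t : ℕ) :
    mB (Blk.mk K N off ch) r t ≤ 7 := by
  by_cases hr : r < N
  · have : r ∈ (range N).image (slot K N) := by
      rw [slot_image hc]
      exact mem_range.2 hr
    obtain ⟨i, hi, rfl⟩ := mem_image.1 this
    rw [mB_slot off ch hc i t (mem_range.1 hi)]
    have := dig_lt ch (off + (K * i + (K - 1) - t))
    omega
  · rw [mB_of_ge off ch hN r t (by omega)]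
    omega

/-! ### Programs -/

/-- column `t` of a block -/
noncomputable def col (b : Blk) (t : ℕ) : ℕ :=
  Blk.rec (motive := fun _ => ℕ) 0
    (fun K N off ch =>
      Nat.mod (Nat.land (Nat.shiftLeft (wcut 18 ch off (Nat.mul K N)) (Nat.mul 18 t))
        (tmask 18 K N)) (mdl 18 N)) b

/-- mask of the high three bits of 430 lanes of 18 bits -/
noncomputable def HM18 : ℕ :=
  Nat.mul (Nat.sub (Nat.pow 2 18) (Nat.pow 2 15))
    (Nat.div (Nat.sub (Nat.pow 2 7740) 1) (Nat.sub (Nat.pow 2 18) 1))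

/-- zero test on lanes of 18 bits -/
noncomputable def zt18 (y : ℕ) : Bool :=
  Bool.rec (motive := fun _ => Bool) false (Nat.beq (Nat.land (Nat.div y 7) HM18) 0)
    (Nat.beq (Nat.mod y 7) 0)

/-- conjunction, evaluated from the left -/
noncomputable def an (a b : Bool) : Bool := Bool.rec (motive := fun _ => Bool) false b a

theorem an_true {a b : Bool} (h : an a b = true) : a = true ∧ b = true := by
  cases a with
  | false => exact absurd h Bool.false_ne_true
  | true => exact ⟨rfl, h⟩

/-- all `t < n` -/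
noncomputable def allN (F : ℕ → Bool) (n : ℕ) : Bool :=
  Nat.rec (motive := fun _ => Bool) true (fun t ih => an (F t) ih) n

theorem allN_true {F : ℕ → Bool} {n : ℕ} (h : allN F n = true) : ∀ t < n, F t = true := by
  induction n with
  | zero => intro t ht; omega
  | succ n ih =>
    obtain ⟨h1, h2⟩ := an_true h
    intro t ht
    rcases Nat.lt_succ_iff_lt_or_eq.1 ht with h3 | h3
    · exact ih h2 t h3
    · rw [h3]
      exact h1

/-- all nodes of a tree -/
noncomputable def allT (g : ℕ → Blk → Bool) (t : Tr) : Bool :=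
  Tr.rec (motive := fun _ => Bool) true
    (fun key K N off ch _ _ il ir => an (g key (Blk.mk K N off ch)) (an il ir)) t

theorem allT_find (g : ℕ → Blk → Bool) (t : Tr) (h : allT g t = true) (b K N off : ℕ)
    (ch : List ℕ) (hf : find b t = Blk.mk K N off ch) : g b (Blk.mk K N off ch) = true := by
  induction t with
  | lf =>
    rw [find_lf] at hf
    cases hf
  | nd key K' N' off' ch' l r ihl ihr =>
    obtain ⟨h1, h2⟩ := an_true h
    obtain ⟨h3, h4⟩ := an_true h2
    rw [find_nd] at hf
    split_ifs at hf with h5 h6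
    · rw [← hf, h5]
      exact h1
    · exact ihl h3 hf
    · exact ihr h4 hf

/-- `1` in each of 4096 lanes of 3 bits -/
noncomputable def M3 : ℕ := Nat.div (Nat.sub (Nat.pow 2 12288) 1) 7

/-- no digit `7` in the pieces -/
noncomputable def okCh (ch : List ℕ) : Bool :=
  List.rec (motive := fun _ => Bool) true
    (fun x _ ih => an (Nat.beq (Nat.land (Nat.land x (Nat.land (Nat.shiftRight x 1)
      (Nat.shiftRight x 2))) M3) 0) ih) ch

/-- no column has an entry in the rows from `r0` on -/
noncomputable def cst (r0 y : ℕ) : Bool := Nat.ble (Nat.succ y) (Nat.pow 2 (Nat.mul 18 r0))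

/-- shape of a block -/
noncomputable def shp (DD : ℕ → ℕ) (sh key : ℕ) (b : Blk) : Bool :=
  Blk.rec (motive := fun _ => Bool) false
    (fun K N _ ch =>
      an (Nat.beq K (DD key)) (an (Nat.ble 1 K) (an (Nat.ble K 430) (an (Nat.ble 1 N)
        (an (Nat.ble (DD (Nat.add key sh)) N) (an (Nat.ble N 430) (an (Nat.beq (Nat.gcd K N) 1)
          (okCh ch)))))))) b

/-- number of columns -/
noncomputable def kB (b : Blk) : ℕ := Blk.rec (motive := fun _ => ℕ) 0 (fun K _ _ _ => K) b

/-- check of a letter table -/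
noncomputable def chk1 (DD : ℕ → ℕ) (sh : ℕ) (tr : Tr) : Bool :=
  allT (fun key b => an (shp DD sh key b)
    (allN (fun t => cst (DD (Nat.add key sh)) (col b t)) (kB b))) tr

/-- check of one column: `b` the block of `a :: w`, `bx, bw` the blocks of `a` after `w`, `bv, ba`
the blocks of `w` after `a` -/
noncomputable def cchk (r0 : ℕ) (b bx bw bv ba : Blk) (t : ℕ) : Bool :=
  an (cst r0 (col b t))
    (zt18 (Nat.add (col b t) (Nat.add (Nat.mul 6 (apB wcut 18 bx (col bw t)))
      (apB wcut 18 bv (col ba t)))))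

/-- check of the table `tr` of `a :: w`, from the tables `tx` of `a` and `tw` of `w` -/
noncomputable def chk2 (DD : ℕ → ℕ) (shA shW : ℕ) (tr tx tw : Tr) : Bool :=
  allT (fun key b => an (shp DD (Nat.add shA shW) key b)
    (allN (cchk (DD (Nat.add key (Nat.add shA shW))) b (find (Nat.add key shW) tx) (find key tw)
      (find (Nat.add key shA) tw) (find key tx)) (kB b))) tr

/-- the content fits -/
noncomputable def fitB (ca cb cc b : ℕ) : Bool :=
  an (Nat.ble (Nat.add (Nat.div b 49) ca) 6) (an (Nat.ble (Nat.add (Nat.mod (Nat.div b 7) 7) cb) 6)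
    (Nat.ble (Nat.add (Nat.mod b 7) cc) 6))

/-- the block is there -/
noncomputable def isB (b : Blk) : Bool :=
  Blk.rec (motive := fun _ => Bool) false (fun _ _ _ _ => true) b

/-- no block is missing; `DD b = 0` or `DD (b + sh) = 0` or the block `b` is in the tree -/
noncomputable def cov (DD : ℕ → ℕ) (ca cb cc sh : ℕ) (tr : Tr) : Bool :=
  allN (fun b => Bool.rec (motive := fun _ => Bool) true
    (Bool.rec (motive := fun _ => Bool) true
      (Bool.rec (motive := fun _ => Bool) true (isB (find b tr)) (Nat.ble 1 (DD (Nat.add b sh))))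
      (Nat.ble 1 (DD b))) (fitB ca cb cc b)) 343

/-! ### Soundness -/

theorem tmask_eq (W K N : ℕ) (hW : 0 < W) (hK : 0 < K) : tmask W K N = topMask W K N := by
  have hdef : tmask W K N = ((2 ^ W - 1) * ((2 ^ (W * (K * N)) - 1) / (2 ^ (W * K) - 1)))
      * 2 ^ (W * (K - 1)) := by
    change Nat.shiftLeft ((2 ^ W - 1) * ((2 ^ (W * (K * N)) - 1) / (2 ^ (W * K) - 1)))
      (W * (K - 1)) = _
    rw [shl_eq]
  have h1 := lanes_const_eq (W * K) 1 N
  have h2 : (2 ^ (W * (K * N)) - 1) / (2 ^ (W * K) - 1) = lanes (W * K) (fun _ => 1) N := by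
    rw [one_mul, mul_assoc] at h1
    rw [← h1]
    refine Nat.mul_div_cancel _ ?_
    have h3 : 1 < 2 ^ (W * K) := Nat.one_lt_two_pow (by positivity)
    omega
  rw [hdef, h2, lanes_const_mul, lanes_mul]
  unfold topMask
  refine lanes_congr _ (fun i _ => ?_)
  have h4 : W * K = W * (K - 1) + W := by
    obtain ⟨q, rfl⟩ : ∃ q, K = q + 1 := ⟨K - 1, by omega⟩
    rw [Nat.add_sub_cancel]
    ring
  rw [h4, pow_add, mul_one, Nat.sub_mul, one_mul, mul_comm (2 ^ W)]

theorem mdl_eq (W N : ℕ) : mdl W N = 2 ^ (W * N) - 1 := rfl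

/-- a block in good shape -/
structure Shp (DD : ℕ → ℕ) (sh key K N : ℕ) (ch : List ℕ) : Prop where
  hK : K = DD key
  h1 : 1 ≤ K
  hK2 : K ≤ 430
  hN0 : 1 ≤ N
  hr : DD (key + sh) ≤ N
  hN : N ≤ 430
  hc : Nat.Coprime K N
  hd : ∀ p, dig ch p ≤ 6

theorem col_spec (K N off : ℕ) (ch : List ℕ) (hK : 1 ≤ K) (hK2 : K ≤ 430)
    (hc : Nat.Coprime K N) (t : ℕ) (ht : t < K) :
    col (Blk.mk K N off ch) t = lanes 18 (fun r => mB (Blk.mk K N off ch) r t) N := by
  have hdef : col (Blk.mk K N off ch) t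
      = ((Nat.shiftLeft (wcut 18 ch off (K * N)) (18 * t)) &&& tmask 18 K N) % mdl 18 N := rfl
  have hv : 2 ^ (18 * t) = lanes 18 (fun s => if s = t then 1 else 0) K := by
    unfold lanes
    rw [sum_eq_single t]
    · beta_reduce
      rw [if_pos rfl, one_mul]
    · intro s _ hs
      beta_reduce
      rw [if_neg hs, zero_mul]
    · intro h
      exact absurd (mem_range.2 ht) h
  rw [hdef, shl_eq, wcut_spec 18 (by norm_num), hv, tmask_eq 18 K N (by norm_num) hK, mdl_eq]
  rw [mv_spec2 18 K N K 7 1 (fun p => dig ch (off + p)) (fun s => if s = t then 1 else 0)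
    (fun r s => mB (Blk.mk K N off ch) r s) hK le_rfl hc
    (fun l _ => by have := dig_lt ch (off + l); omega)
    (fun s _ => by split_ifs <;> omega) (by norm_num; omega)
    (fun i hi s _ => (mB_slot off ch hc i s hi).symm)]
  refine lanes_congr _ (fun r _ => ?_)
  rw [sum_eq_single t]
  · rw [if_pos rfl, mul_one]
  · intro s _ hs
    rw [if_neg hs, mul_zero]
  · intro h
    exact absurd (mem_range.2 ht) h

theorem ap_spec (K N off : ℕ) (ch : List ℕ) (hK : 1 ≤ K) (hK2 : K ≤ 430)
    (hc : Nat.Coprime K N) (u : ℕ → ℕ) (hu : ∀ s < K, u s ≤ 7) :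
    apB wcut 18 (Blk.mk K N off ch) (lanes 18 u K)
      = lanes 18 (fun r => ∑ s ∈ range K, mB (Blk.mk K N off ch) r s * u s) N := by
  have hdef : apB wcut 18 (Blk.mk K N off ch) (lanes 18 u K)
      = ((wcut 18 ch off (K * N) * lanes 18 u K) &&& tmask 18 K N) % mdl 18 N := rfl
  rw [hdef, wcut_spec 18 (by norm_num), tmask_eq 18 K N (by norm_num) hK, mdl_eq]
  rw [mv_spec2 18 K N K 7 7 (fun p => dig ch (off + p)) u
    (fun r s => mB (Blk.mk K N off ch) r s) hK le_rfl hc
    (fun l _ => by have := dig_lt ch (off + l); omega) hu (by norm_num; omega)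
    (fun i hi s _ => (mB_slot off ch hc i s hi).symm)]

theorem ap_no (y : ℕ) : apB wcut 18 Blk.no y = 0 := rfl

theorem col_no (t : ℕ) : col Blk.no t = 0 := rfl

end Pool.Agent.Work.MP_bde882_al.TS64
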