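import Pool.Agent.Work.MP_bde882_al_h64.TabStep
import Pool.Agent.Work.MP_bde882_al_h40.Inst
import Pool.Agent.Work.MP_bde882_al_red.Homog

/-!
Soundness of the checker for the operator tables.
-/

set_option autoImplicit false

namespace Pool.Agent.Work.MP_bde882_al.TS64

open Finset
open Pool.Agent.Work.MP_bde882_al.Pk
open Pool.Agent.Work.MP_bde882_al.H87
open Pool.Agent.Work.MP_bde882_al.Pg62 (Tr Op Blk find find_lf find_nd tmask mdl apB trO)

/-! ### Pieces without the digit 7 -/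

set_option exponentiation.threshold 13000 in
theorem M3_eq : M3 = lanes 3 (fun _ => 1) 4096 := by
  have h1 : M3 = 1 * ((2 ^ (3 * 4096) - 1) / (2 ^ 3 - 1)) := by
    rw [one_mul]
    rfl
  rw [h1]
  exact lanes_one_eq 3 1 4096 (by norm_num)

theorem lane_M3 (p : ℕ) (hp : p < 4096) : lane 3 M3 p = 1 := by
  rw [M3_eq]
  exact lane_lanes 3 _ 4096 p hp (fun _ _ => by norm_num)

theorem lane_ne_seven (x p : ℕ) (hp : p < 4096)
    (h : Nat.land (Nat.land x (Nat.land (Nat.shiftRight x 1) (Nat.shiftRight x 2))) M3 = 0) :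
    lane 3 x p ≤ 6 := by
  have h0 : ((x &&& ((x >>> 1) &&& (x >>> 2))) &&& M3).testBit (3 * p) = false := by
    have h1 : ((x &&& ((x >>> 1) &&& (x >>> 2))) &&& M3) = 0 := h
    rw [h1, Nat.zero_testBit]
  rw [Nat.testBit_and, Nat.testBit_and, Nat.testBit_and, Nat.testBit_shiftRight,
    Nat.testBit_shiftRight] at h0
  have h2 : M3.testBit (3 * p) = true := by
    have h3 := lane_M3 p hp
    unfold lane at h3
    rw [Nat.testBit_eq_decide_div_mod_eq]
    have h4 : M3 / 2 ^ (3 * p) % 2 = 1 := by omega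
    rw [h4]
    rfl
  rw [h2, Bool.and_true] at h0
  by_contra h5
  have h6 : x / 2 ^ (3 * p) % 2 ^ 3 = 7 := by
    have h7 := lane_lt 3 x p
    unfold lane at h5 h7
    omega
  have e0 : x.testBit (3 * p) = true := by
    rw [Nat.testBit_eq_decide_div_mod_eq]
    have : x / 2 ^ (3 * p) % 2 = 1 := by omega
    rw [this]
    rfl
  have e1 : x.testBit (1 + 3 * p) = true := by
    rw [Nat.testBit_eq_decide_div_mod_eq, Nat.add_comm, pow_succ, ← Nat.div_div_eq_div_mul]
    have : x / 2 ^ (3 * p) / 2 % 2 = 1 := by omega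
    rw [this]
    rfl
  have e2 : x.testBit (2 + 3 * p) = true := by
    rw [Nat.testBit_eq_decide_div_mod_eq, Nat.add_comm, pow_add, ← Nat.div_div_eq_div_mul]
    have : x / 2 ^ (3 * p) / 2 ^ 2 % 2 = 1 := by omega
    rw [this]
    rfl
  rw [e0, e1, e2] at h0
  exact Bool.false_ne_true h0.symm

theorem okCh_cons (x : ℕ) (l : List ℕ) : okCh (x :: l)
    = an (Nat.beq (Nat.land (Nat.land x (Nat.land (Nat.shiftRight x 1)
      (Nat.shiftRight x 2))) M3) 0) (okCh l) := rfl

theorem okCh_true (ch : List ℕ) (h : okCh ch = true) : ∀ p, dig ch p ≤ 6 := by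
  induction ch with
  | nil =>
    intro p
    rw [dig_nil]
    omega
  | cons x l ih =>
    rw [okCh_cons] at h
    obtain ⟨h1, h2⟩ := an_true h
    intro p
    by_cases hp : p < 4096
    · rw [dig_cons_lt x l p hp]
      exact lane_ne_seven x p hp (Nat.eq_of_beq_eq_true h1)
    · obtain ⟨q, rfl⟩ := Nat.exists_eq_add_of_le (not_lt.1 hp)
      rw [dig_cons_ge]
      exact ih h2 q

theorem shp_true {DD : ℕ → ℕ} {sh key K N off : ℕ} {ch : List ℕ}
    (h : shp DD sh key (Blk.mk K N off ch) = true) : Shp DD sh key K N ch := by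
  obtain ⟨a1, h⟩ := an_true h
  obtain ⟨a2, h⟩ := an_true h
  obtain ⟨a3, h⟩ := an_true h
  obtain ⟨a4, h⟩ := an_true h
  obtain ⟨a5, h⟩ := an_true h
  obtain ⟨a6, h⟩ := an_true h
  obtain ⟨a7, a8⟩ := an_true h
  exact ⟨Nat.eq_of_beq_eq_true a1, Nat.le_of_ble_eq_true a2, Nat.le_of_ble_eq_true a3,
    Nat.le_of_ble_eq_true a4, Nat.le_of_ble_eq_true a5, Nat.le_of_ble_eq_true a6,
    Nat.eq_of_beq_eq_true a7, okCh_true ch a8⟩

theorem lanes_eq_zero (W : ℕ) (f : ℕ → ℕ) (n : ℕ) (h : lanes W f n = 0) : ∀ i < n, f i = 0 := by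
  intro i hi
  unfold lanes at h
  rw [Finset.sum_eq_zero_iff] at h
  have h1 := h i (mem_range.2 hi)
  rcases Nat.mul_eq_zero.1 h1 with h2 | h2
  · exact h2
  · exact absurd h2 (by positivity)

theorem cst_true {r0 n : ℕ} {f : ℕ → ℕ} (h : cst r0 (lanes 18 f n) = true) :
    ∀ r, r0 ≤ r → r < n → f r = 0 := by
  have h1 : lanes 18 f n < 2 ^ (18 * r0) := Nat.le_of_ble_eq_true h
  intro r hr hn
  obtain ⟨q, rfl⟩ := Nat.exists_eq_add_of_le hr
  obtain ⟨m, rfl⟩ := Nat.exists_eq_add_of_le (show r0 ≤ n by omega)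
  rw [lanes_split] at h1
  have h2 : lanes 18 (fun i => f (r0 + i)) m = 0 := by
    by_contra h3
    have h4 : 1 ≤ lanes 18 (fun i => f (r0 + i)) m := Nat.one_le_iff_ne_zero.2 h3
    have h5 := Nat.mul_le_mul_left (2 ^ (18 * r0)) h4
    omega
  exact lanes_eq_zero 18 _ m h2 q (by omega)

set_option exponentiation.threshold 13000 in
theorem HM18_eq : HM18 = lanes 18 (fun _ => 2 ^ 18 - 2 ^ (18 - 3)) 430 :=
  const_gen2 _ (2 ^ 18 - 2 ^ (18 - 3)) 18 430 7740 (by norm_num) (by norm_num) rfl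

theorem zt18_split (y : ℕ) (h : zt18 y = true) : y % 7 = 0 ∧ (y / 7) &&& HM18 = 0 := by
  have h2 : zt18 y = Bool.rec (motive := fun _ => Bool) false
    (Nat.beq ((y / 7) &&& HM18) 0) (Nat.beq (y % 7) 0) := rfl
  rw [h2] at h
  cases h3 : Nat.beq (y % 7) 0 with
  | false =>
    rw [h3] at h
    exact absurd h Bool.false_ne_true
  | true =>
    rw [h3] at h
    exact ⟨Nat.eq_of_beq_eq_true h3, Nat.eq_of_beq_eq_true h⟩

theorem zt18_true {f : ℕ → ℕ} (hf : ∀ i < 430, f i < 2 ^ 18) (h : zt18 (lanes 18 f 430) = true) :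
    ∀ i < 430, f i % 7 = 0 := by
  have h1 := zt18_split _ h
  rw [HM18_eq] at h1
  exact ztest_spec 18 430 f (by norm_num) hf h1.1 h1.2

/-! ### Tables in good shape -/

/-- every block is in good shape, the unused rows are zero -/
def Node (DD : ℕ → ℕ) (sh : ℕ) (tr : Tr) : Prop :=
  ∀ β K N off ch, find β tr = Blk.mk K N off ch → Shp DD sh β K N ch ∧
    ∀ t < K, ∀ r, DD (β + sh) ≤ r → mB (Blk.mk K N off ch) r t = 0

theorem node_aux {DD : ℕ → ℕ} {sh β K N off : ℕ} {ch : List ℕ}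
    (h1 : Shp DD sh β K N ch) (h2 : ∀ t < K, cst (DD (β + sh)) (col (Blk.mk K N off ch) t) = true) :
    ∀ t < K, ∀ r, DD (β + sh) ≤ r → mB (Blk.mk K N off ch) r t = 0 := by
  intro t ht r hr
  by_cases hrN : r < N
  · have h3 := h2 t ht
    rw [col_spec K N off ch h1.h1 h1.hK2 h1.hc t ht] at h3
    exact cst_true h3 r hr hrN
  · exact mB_of_ge off ch h1.hN0 r t (by omega)

theorem node_chk1 {DD : ℕ → ℕ} {sh : ℕ} {tr : Tr} (h : chk1 DD sh tr = true) : Node DD sh tr := by
  intro β K N off ch hf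
  have h1 := allT_find _ tr h β K N off ch hf
  obtain ⟨h2, h3⟩ := an_true h1
  have h4 := shp_true h2
  exact ⟨h4, node_aux h4 (fun t ht => allN_true h3 t ht)⟩

theorem node_chk2 {DD : ℕ → ℕ} {shA shW : ℕ} {tr tx tw : Tr}
    (h : chk2 DD shA shW tr tx tw = true) : Node DD (shA + shW) tr := by
  intro β K N off ch hf
  have h1 := allT_find _ tr h β K N off ch hf
  obtain ⟨h2, h3⟩ := an_true h1
  have h4 := shp_true h2
  refine ⟨h4, node_aux h4 (fun t ht => ?_)⟩
  exact (an_true (allN_true h3 t ht)).1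

/-- the packed product of a block and a column of another block -/
theorem ap_col {DD : ℕ → ℕ} {sh1 sh2 β t : ℕ} {t1 t2 : Tr} (h1 : Node DD sh1 t1)
    (h2 : Node DD sh2 t2) (ht : t < DD β) :
    apB wcut 18 (find (β + sh2) t1) (col (find β t2) t)
      = lanes 18 (fun r => ∑ s ∈ range (DD (β + sh2)),
          mB (find (β + sh2) t1) r s * mB (find β t2) s t) 430 ∧
    ∀ r, ∑ s ∈ range (DD (β + sh2)), mB (find (β + sh2) t1) r s * mB (find β t2) s t
      ≤ 430 * 49 := by
  have hz : ∀ f : ℕ → ℕ, (∀ r, f r = 0) → lanes 18 f 430 = 0 :=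
    fun f hf => lanes_eq_zero_of 18 f 430 (fun i _ => hf i)
  cases e2 : find β t2 with
  | no =>
    have h0 : ∀ r, ∑ s ∈ range (DD (β + sh2)), mB (find (β + sh2) t1) r s * mB Blk.no s t = 0 :=
      fun r => sum_eq_zero (fun s _ => Nat.mul_zero _)
    refine ⟨?_, fun r => by rw [h0 r]; exact Nat.zero_le _⟩
    rw [hz _ h0, col_no]
    cases find (β + sh2) t1 with
    | no => rfl
    | mk K N off ch =>
      change ((wcut 18 ch off (K * N) * 0) &&& tmask 18 K N) % mdl 18 N = 0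
      rw [Nat.mul_zero, Nat.zero_and, Nat.zero_mod]
  | mk K2 N2 off2 ch2 =>
    obtain ⟨g2, z2⟩ := h2 β K2 N2 off2 ch2 e2
    have htK : t < K2 := by rw [g2.hK]; exact ht
    cases e1 : find (β + sh2) t1 with
    | no =>
      have h0 : ∀ r, ∑ s ∈ range (DD (β + sh2)), mB Blk.no r s * mB (Blk.mk K2 N2 off2 ch2) s t = 0 :=
        fun r => sum_eq_zero (fun s _ => Nat.zero_mul _)
      refine ⟨?_, fun r => by rw [h0 r]; exact Nat.zero_le _⟩
      rw [hz _ h0, ap_no]
    | mk K1 N1 off1 ch1 =>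
      obtain ⟨g1, z1⟩ := h1 (β + sh2) K1 N1 off1 ch1 e1
      have e3 : lanes 18 (fun r => mB (Blk.mk K2 N2 off2 ch2) r t) N2
          = lanes 18 (fun r => mB (Blk.mk K2 N2 off2 ch2) r t) K1 := by
        rw [g1.hK]
        exact lanes_cut 18 _ _ _ g2.hr (fun i _ hi => z2 t htK i hi)
      rw [col_spec K2 N2 off2 ch2 g2.h1 g2.hK2 g2.hc t htK, e3,
        ap_spec K1 N1 off1 ch1 g1.h1 g1.hK2 g1.hc _
          (fun s _ => mB_le off2 ch2 g2.hc g2.hN0 s t), ← g1.hK]
      refine ⟨(lanes_cut 18 _ _ _ g1.hN (fun i _ hi => ?_)).symm, fun r => ?_⟩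
      · exact sum_eq_zero (fun s _ => by rw [mB_of_ge off1 ch1 g1.hN0 i s hi, Nat.zero_mul])
      · calc ∑ s ∈ range K1, mB (Blk.mk K1 N1 off1 ch1) r s * mB (Blk.mk K2 N2 off2 ch2) s t
            ≤ ∑ _s ∈ range K1, 7 * 7 := sum_le_sum (fun s _ => Nat.mul_le_mul
              (mB_le off1 ch1 g1.hc g1.hN0 r s) (mB_le off2 ch2 g2.hc g2.hN0 s t))
          _ = K1 * 49 := by simp
          _ ≤ 430 * 49 := Nat.mul_le_mul_right _ g1.hK2

/-- **The step.** -/
theorem step {DD : ℕ → ℕ} {shA shW : ℕ} {tr tx tw : Tr} (h : chk2 DD shA shW tr tx tw = true)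
    (hx : Node DD shA tx) (hw : Node DD shW tw) {β t r : ℕ} (ht : t < DD β)
    (hr : r < DD (β + (shA + shW))) (hno : find β tr ≠ Blk.no) :
    (mB (find β tr) r t : ZMod 7)
      = ∑ s ∈ range (DD (β + shW)),
          (mB (find (β + shW) tx) r s : ZMod 7) * (mB (find β tw) s t : ZMod 7)
        - ∑ s ∈ range (DD (β + shA)),
          (mB (find (β + shA) tw) r s : ZMod 7) * (mB (find β tx) s t : ZMod 7) := by
  cases e : find β tr with
  | no => exact absurd e hno
  | mk K N off ch =>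
    have h1 := allT_find _ tr h β K N off ch e
    obtain ⟨h2, h3⟩ := an_true h1
    have h4 : Shp DD (shA + shW) β K N ch := shp_true h2
    have htK : t < K := by rw [h4.hK]; exact ht
    have h5 := (an_true (allN_true h3 t htK)).2
    obtain ⟨a1, b1⟩ := ap_col (β := β) (t := t) hx hw ht
    obtain ⟨a2, b2⟩ := ap_col (β := β) (t := t) hw hx ht
    change zt18 (col (Blk.mk K N off ch) t
      + (6 * apB wcut 18 (find (β + shW) tx) (col (find β tw) t)
        + apB wcut 18 (find (β + shA) tw) (col (find β tx) t))) = true at h5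
    rw [a1, a2, col_spec K N off ch h4.h1 h4.hK2 h4.hc t htK,
      ← lanes_cut 18 _ N 430 h4.hN (fun i _ hi => mB_of_ge off ch h4.hN0 i t hi),
      lanes_const_mul, lanes_add, lanes_add] at h5
    have hr430 : r < 430 := lt_of_lt_of_le hr (h4.hr.trans h4.hN)
    have h6 := zt18_true (fun i _ => ?_) h5 r hr430
    · have h7 := (ZMod.natCast_eq_natCast_iff _ 0 7).2 h6
      push_cast at h7
      have h8 : (6 : ZMod 7) = -1 := by decide
      rw [h8] at h7
      linear_combination h7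
    · have c1 := b1 i
      have c2 := b2 i
      have c3 := mB_le off ch h4.hc h4.hN0 i t
      norm_num
      omega

end Pool.Agent.Work.MP_bde882_al.TS64
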