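import Pool.Agent.Work.MP_bde882_al_h64.TabGood
import Pool.Agent.Work.MP_bde882_al_h62.Widen4
import Pool.Agent.Work.MP_bde882_al_h69.LieSpan

/-!
The checker for the operator tables with the second program for the widening.
-/

set_option autoImplicit false

namespace Pool.Agent.Work.MP_bde882_al.TS64

open Finset
open Pool.Agent.Work.MP_bde882_al.Pk
open Pool.Agent.Work.MP_bde882_al.H87
open Pool.Agent.Work.MP_bde882_al.Fin8
open Pool.Agent.Work.MP_bde882_al.W62 (wcut4 wcut4_eq apB_congr)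
open Pool.Agent.Work.MP_bde882_al.Pg62 (Tr Op Blk find find_lf find_nd tmask mdl apB trO)

/-- column `t` of a block -/
noncomputable def col4 (b : Blk) (t : ℕ) : ℕ :=
  Blk.rec (motive := fun _ => ℕ) 0
    (fun K N off ch =>
      Nat.mod (Nat.land (Nat.shiftLeft (wcut4 18 ch off (Nat.mul K N)) (Nat.mul 18 t))
        (tmask 18 K N)) (mdl 18 N)) b

theorem col4_eq (b : Blk) (t : ℕ) : col4 b t = col b t := by
  cases b with
  | no => rfl
  | mk K N off ch =>
    change Nat.mod (Nat.land (Nat.shiftLeft (wcut4 18 ch off (Nat.mul K N)) (Nat.mul 18 t))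
      (tmask 18 K N)) (mdl 18 N) = Nat.mod (Nat.land (Nat.shiftLeft (wcut 18 ch off (Nat.mul K N))
        (Nat.mul 18 t)) (tmask 18 K N)) (mdl 18 N)
    rw [wcut4_eq 18 (by norm_num)]

/-- check of one column -/
noncomputable def cchk4 (r0 : ℕ) (b bx bw bv ba : Blk) (t : ℕ) : Bool :=
  an (cst r0 (col4 b t))
    (zt18 (Nat.add (col4 b t) (Nat.add (Nat.mul 6 (apB wcut4 18 bx (col4 bw t)))
      (apB wcut4 18 bv (col4 ba t)))))

theorem cchk4_eq (r0 : ℕ) (b bx bw bv ba : Blk) (t : ℕ) :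
    cchk4 r0 b bx bw bv ba t = cchk r0 b bx bw bv ba t := by
  unfold cchk4 cchk
  rw [col4_eq, col4_eq, col4_eq, apB_congr 18 (wcut4_eq 18 (by norm_num)),
    apB_congr 18 (wcut4_eq 18 (by norm_num))]

/-- check of a letter table -/
noncomputable def chk14 (DD : ℕ → ℕ) (sh : ℕ) (tr : Tr) : Bool :=
  allT (fun key b => an (shp DD sh key b)
    (allN (fun t => cst (DD (Nat.add key sh)) (col4 b t)) (kB b))) tr

theorem chk14_eq (DD : ℕ → ℕ) (sh : ℕ) (tr : Tr) : chk14 DD sh tr = chk1 DD sh tr := by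
  unfold chk14 chk1
  simp only [col4_eq]

/-- check of the table `tr` of `a :: w`, from the tables `tx` of `a` and `tw` of `w` -/
noncomputable def chk24 (DD : ℕ → ℕ) (shA shW : ℕ) (tr tx tw : Tr) : Bool :=
  allT (fun key b => an (shp DD (Nat.add shA shW) key b)
    (allN (cchk4 (DD (Nat.add key (Nat.add shA shW))) b (find (Nat.add key shW) tx) (find key tw)
      (find (Nat.add key shA) tw) (find key tx)) (kB b))) tr

theorem chk24_eq (DD : ℕ → ℕ) (shA shW : ℕ) (tr tx tw : Tr) :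
    chk24 DD shA shW tr tx tw = chk2 DD shA shW tr tx tw := by
  unfold chk24 chk2
  have h : ∀ r0 b bx bw bv ba, cchk4 r0 b bx bw bv ba = cchk r0 b bx bw bv ba :=
    fun r0 b bx bw bv ba => funext (cchk4_eq r0 b bx bw bv ba)
  simp only [h]

/-- **The step, for words given by their codes.** -/
theorem good_dec (d n m : ℕ) (a : Fin 3) {tr tx tw : Tr} {sA sW ca cb cc : ℕ}
    (e : 0 < d ∧ n / 4 = m ∧ H69.dig n = a ∧ sh a = sA ∧ tgtW (H69.dec d m) = sW ∧
      ct (a :: H69.dec d m) 0 = ca ∧ ct (a :: H69.dec d m) 1 = cb ∧ ct (a :: H69.dec d m) 2 = cc)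
    (gx : Good [a] tx) (gw : Good (H69.dec d m) tw)
    (hc : chk24 dm sA sW tr tx tw = true) (hv : cov dm ca cb cc (Nat.add sA sW) tr = true) :
    Good (H69.dec (d + 1) n) tr := by
  obtain ⟨hd, hm, ha, hsA, hsW, h0, h1, h2⟩ := e
  have e1 : H69.dec (d + 1) n = a :: H69.dec d m := by
    rw [← hm, ← ha]
    rfl
  have hw : H69.dec d m ≠ [] := by
    obtain ⟨k, rfl⟩ : ∃ k, d = k + 1 := ⟨d - 1, by omega⟩
    exact List.cons_ne_nil _ _
  rw [e1]
  exact good_step gx gw hw ⟨hsA, hsW, h0, h1, h2⟩ (by rw [← chk24_eq]; exact hc) hv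

end Pool.Agent.Work.MP_bde882_al.TS64
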