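import Pool.Agent.Work.MP_bde882_al_red.Crit
import Pool.Agent.Work.MP_bde882_al_red.Module

/-!
Only the functional of full content is needed: coset sums `κ (v₁ v₂ v₃) ^ (p - 1)` suffice.
-/

set_option autoImplicit false

namespace Pool.Agent.Work.MP_bde882_al.Red

open Finset

section prod

/-- the seven coordinate patterns -/
def idx7 : Fin 7 → Fin 3 → Fin 3 :=
  ![![0, 0, 0], ![1, 1, 1], ![2, 2, 2], ![0, 0, 1], ![0, 0, 2], ![1, 1, 2], ![0, 1, 2]]

/-- the seven signs -/
def sgn7 (p : ℕ) : Fin 7 → ZMod p := ![-1, -1, -1, 1, 1, 1, -1]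

/-- substitution of coordinates -/
def sub7 (p : ℕ) (s : Fin 7) :
    Multiplicative (Fin 3 → ZMod p) →* Multiplicative (Fin 3 → ZMod p) where
  toFun a := Multiplicative.ofAdd (fun i => Multiplicative.toAdd a (idx7 s i))
  map_one' := rfl
  map_mul' _ _ := rfl

theorem sum7e {p : ℕ} (e : Fin 3 → ZMod p) :
    ∑ s : Fin 7, sgn7 p s * ∏ i, e (idx7 s i) = 
     - (e 0 * (e 0 * e 0)) - (e 1 * (e 1 * e 1)) - (e 2 * (e 2 * e 2)) + e 0 * (e 0 * e 1) + e 0 * (e 0 * e 2) + e 1 * (e 1 * e 2) - e 0 * (e 1 * e 2) := by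
  have h0 : ∏ i, e (idx7 0 i) = e 0 * (e 0 * e 0) := by simp [Fin.prod_univ_succ, idx7]
  have h1 : ∏ i, e (idx7 1 i) = e 1 * (e 1 * e 1) := by simp [Fin.prod_univ_succ, idx7]
  have h2 : ∏ i, e (idx7 2 i) = e 2 * (e 2 * e 2) := by simp [Fin.prod_univ_succ, idx7]
  have h3 : ∏ i, e (idx7 3 i) = e 0 * (e 0 * e 1) := by simp [Fin.prod_univ_succ, idx7]
  have h4 : ∏ i, e (idx7 4 i) = e 0 * (e 0 * e 2) := by simp [Fin.prod_univ_succ, idx7]
  have h5 : ∏ i, e (idx7 5 i) = e 1 * (e 1 * e 2) := by simp [Fin.prod_univ_succ, idx7]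
  have h6 : ∏ i, e (idx7 6 i) = e 0 * (e 1 * e 2) := by simp [Fin.prod_univ_succ, idx7]
  rw [Fin.sum_univ_seven, h0, h1, h2, h3, h4, h5, h6]
  simp [sgn7]
  ring
theorem sum7 {p : ℕ} (hp : p.Prime) (a : Fin 3 → ZMod p) (ha : a ≠ 0) :
    ∑ s : Fin 7, sgn7 p s * ∏ i, a (idx7 s i) ^ (p - 1) = -1 := by
  have hfact := Fact.mk hp
  have hp2 := hp.two_le
  have h1 : ∀ i, a i ^ (p - 1) = 0 ∨ a i ^ (p - 1) = 1 := by
    intro i
    by_cases h : a i = 0
    · left
      rw [h, zero_pow]
      omega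
    · right
      exact ZMod.pow_card_sub_one_eq_one h
  have h2 : ¬ (a 0 ^ (p - 1) = 0 ∧ a 1 ^ (p - 1) = 0 ∧ a 2 ^ (p - 1) = 0) := by
    rintro ⟨h, h', h''⟩
    have hq : p - 1 ≠ 0 := by omega
    apply ha
    funext i
    fin_cases i
    · exact (pow_eq_zero_iff hq).1 h
    · exact (pow_eq_zero_iff hq).1 h'
    · exact (pow_eq_zero_iff hq).1 h''
  have h5 := sum7e (fun i => a i ^ (p - 1))
  rw [h5]
  have hx := h1 0
  have hy := h1 1
  have hz := h1 2
  clear h5 h1
  generalize a 0 ^ (p - 1) = x at *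
  generalize a 1 ^ (p - 1) = y at *
  generalize a 2 ^ (p - 1) = z at *
  rcases hx with rfl | rfl <;> rcases hy with rfl | rfl <;> rcases hz with rfl | rfl <;>
    first
    | exact absurd (And.intro rfl (And.intro rfl rfl)) h2
    | ring

variable {P : Type} [Group P] {p : ℕ}

/-- the fibre product -/
def fib7 (π : P →* Multiplicative (Fin 3 → ZMod p)) :
    Subgroup ((Fin 7 → P) × Multiplicative (Fin 3 → ZMod p)) where
  carrier := {x | ∀ s, π (x.1 s) = sub7 p s x.2}
  one_mem' := by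
    intro s
    simp
  mul_mem' := by
    intro x y hx hy s
    have h1 := hx s
    have h2 := hy s
    simp only [Prod.fst_mul, Pi.mul_apply, Prod.snd_mul, map_mul, h1, h2]
  inv_mem' := by
    intro x hx s
    have h1 := hx s
    simp only [Prod.fst_inv, Pi.inv_apply, Prod.snd_inv, map_inv, h1]

/-- **Criterion with coset sums `κ (v₁ v₂ v₃) ^ (p - 1)`.** -/
theorem goal_of_prod [Finite P] (hp : p.Prime) (π : P →* Multiplicative (Fin 3 → ZMod p))
    (hπ : Function.Surjective π) (ψ : P → ZMod p) (κ : ZMod p) (hκ : κ ≠ 0)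
    (h : ∀ u g : P, ∑ i ∈ range p, ψ (u * g ^ i)
      = κ * ∏ i, Multiplicative.toAdd (π g) i ^ (p - 1)) : Goal := by
  have hfact := Fact.mk hp
  have hA : Nat.card (Multiplicative (Fin 3 → ZMod p)) = p ^ 3 := by
    rw [Nat.card_congr Multiplicative.toAdd, Nat.card_fun, Nat.card_zmod]
    simp
  have hfin : Finite (Multiplicative (Fin 3 → ZMod p)) :=
    Nat.finite_of_card_ne_zero (by rw [hA]; exact pow_ne_zero _ hp.ne_zero)
  refine goal_of_fun (P := fib7 π) ((MonoidHom.snd _ _).comp (fib7 π).subtype) hp hA ?_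
    (fun x => κ⁻¹ * ∑ s : Fin 7, sgn7 p s * ψ (x.1.1 s)) ?_
  · intro a
    choose g hg using fun s : Fin 7 => hπ (sub7 p s a)
    exact ⟨⟨(g, a), hg⟩, rfl⟩
  · intro u g hg
    have hg' : Multiplicative.toAdd g.1.2 ≠ 0 := fun h0 => hg h0
    have h1 : ∀ i : ℕ, κ⁻¹ * ∑ s : Fin 7, sgn7 p s * ψ ((u * g ^ i).1.1 s)
        = κ⁻¹ * ∑ s : Fin 7, sgn7 p s * ψ (u.1.1 s * g.1.1 s ^ i) := by
      intro i
      rfl
    rw [sum_congr rfl (fun i _ => h1 i), ← mul_sum, sum_comm]
    have h2 : ∀ s : Fin 7, ∑ i ∈ range p, sgn7 p s * ψ (u.1.1 s * g.1.1 s ^ i)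
        = κ * (sgn7 p s * ∏ i, Multiplicative.toAdd g.1.2 (idx7 s i) ^ (p - 1)) := by
      intro s
      rw [← mul_sum, h]
      have h3 : π (g.1.1 s) = sub7 p s g.1.2 := g.2 s
      rw [h3]
      change sgn7 p s * (κ * ∏ i, Multiplicative.toAdd g.1.2 (idx7 s i) ^ (p - 1)) = _
      ring
    rw [sum_congr rfl (fun s _ => h2 s), ← mul_sum, sum7 hp _ hg']
    field_simp

end prod

section words

variable {p : ℕ}

/-- **Criterion in terms of words, full content only.** -/
theorem goal_of_words3 (hp : p.Prime) (f : List (Fin 3) → ZMod p) (κ : ZMod p) (hκ : κ ≠ 0)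
    (hf : ∀ u v : List (Fin 3), csum p v (fun r => f (u ++ r))
        = if u = [] ∧ (∀ i, v.count i = p - 1) then κ else 0) : Goal := by
  have hfact := Fact.mk hp
  have hV : Finite (V p (p - 1)) := Pi.finite
  let P : Subgroup (Equiv.Perm (V p (p - 1)) × Multiplicative (Fin 3 → ZMod p)) :=
    Subgroup.closure (Set.range (gen p (p - 1)))
  have hlist : ∀ g : P, ∃ J : List (Fin 3), g.1 = (J.map (gen p (p - 1))).prod := by
    intro g
    have h1 : g.1 ∈ Submonoid.closure (Set.range (gen p (p - 1))) := by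
      rw [← Subgroup.closure_toSubmonoid_of_finite]
      exact g.2
    obtain ⟨l, hl, hl'⟩ := Submonoid.exists_list_of_mem_closure h1
    have h2 : l ∈ Set.range (List.map (gen p (p - 1))) := by
      rw [Set.range_list_map]
      exact hl
    obtain ⟨J, rfl⟩ := h2
    exact ⟨J, hl'.symm⟩
  let F : V p (p - 1) := fun l => PhiS (p - 1) f univ l.1
  have hF : ∀ l, ext0 F l = PhiS (p - 1) f univ l := by
    intro l
    by_cases h : l.Nodup
    · rw [ext0, dif_pos h]
    · rw [ext0, dif_neg h, PhiS_not_nodup _ _ _ h]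
  let π : P →* Multiplicative (Fin 3 → ZMod p) :=
    (MonoidHom.snd _ _).comp P.subtype
  refine goal_of_prod (P := P) hp π ?_ (fun g => ext0 (g.1.1 F) []) κ hκ ?_
  · intro a
    let J : List (Fin 3) :=
      List.replicate (Multiplicative.toAdd a 0).val 0 ++
        (List.replicate (Multiplicative.toAdd a 1).val 1 ++
          List.replicate (Multiplicative.toAdd a 2).val 2)
    have hJ : (J.map (gen p (p - 1))).prod ∈ P := by
      refine Subgroup.list_prod_mem _ ?_
      intro x hx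
      obtain ⟨i, -, rfl⟩ := List.mem_map.1 hx
      exact Subgroup.subset_closure ⟨i, rfl⟩
    refine ⟨⟨_, hJ⟩, ?_⟩
    change ((J.map (gen p (p - 1))).prod).2 = a
    rw [gen_prod_snd]
    apply Multiplicative.toAdd.injective
    funext i
    rw [toAdd_ofAdd]
    fin_cases i <;> simp [J, List.count_replicate]
  · intro u g
    obtain ⟨Ju, hJu⟩ := hlist u
    obtain ⟨Jg, hJg⟩ := hlist g
    have h1 : ∀ i : ℕ, ext0 ((u * g ^ i).1.1 F) []
        = subS ((Ju.map (blk (p - 1))).flatten
            ++ (List.replicate i (Jg.map (blk (p - 1))).flatten).flatten)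
            (PhiS (p - 1) f univ) := by
      intro i
      have h2 : (u * g ^ i).1.1
          = (((Ju.map (blk (p - 1))).flatten
            ++ (List.replicate i (Jg.map (blk (p - 1))).flatten).flatten).map rho).prod := by
        have h3 : (u * g ^ i).1.1 = u.1.1 * (g.1.1) ^ i := by
          simp
        rw [h3, hJu, hJg, gen_prod_fst, gen_prod_fst, List.map_append, List.prod_append]
        rw [rho_pow]
      rw [h2, ext0_prod]
      refine subS_congr _ _ _ ?_
      intro s
      rw [List.nil_append, hF]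
    rw [sum_congr rfl (fun i _ => h1 i)]
    rw [sum_PhiS f κ univ (fun u v => by rw [hf u v]; simp)]
    simp only [count_flat]
    rw [prod_US (q := p - 1) univ (fun i => ((Jg.count i : ℕ) : ZMod p)), mul_comm]
    have h4 : ∀ i, Multiplicative.toAdd (π g) i = ((Jg.count i : ℕ) : ZMod p) := by
      intro i
      change Multiplicative.toAdd (g.1).2 i = _
      rw [hJg, gen_prod_snd]
      rfl
    simp only [h4]

end words

section module

variable {A W : Type*} [Ring A] [AddCommGroup W] [Module A W] {p : ℕ}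

/-- **Criterion in terms of a module, full content only.** -/
theorem goal_of_module3 (hp : p.Prime) (X : Fin 3 → A) (w c : W) (φ : W →+ ZMod p)
    (hφ : φ c ≠ 0) (hX : ∀ i, X i • c = 0)
    (h : ∀ v : List (Fin 3), cop p w (v.map X)
      = if ∀ i, v.count i = p - 1 then c else 0) : Goal := by
  refine goal_of_words3 hp (fun r => φ ((r.map X).prod • w)) (φ c) hφ ?_
  intro u v
  have h1 := words_of_module (p := p) X w c φ univ hX (fun v => by rw [h v]; simp) u v
  rw [h1]
  simp

end module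

end Pool.Agent.Work.MP_bde882_al.Red
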